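import Pool.Agent.K3h4.DS.Mo
import Pool.Agent.H4R2.LO.El

/-! Lower bounds for the density of states: trial functions in disjoint boxes of a large torus. -/

set_option autoImplicit false
set_option linter.unusedSectionVars false

open scoped BigOperators ENNReal
open MeasureTheory Filter Topology

namespace Pool.Agent.K3h4.DS.Lo

open Pool.Agent.H4R2.AE (T Hop)
open Pool.Agent.H4R2.LO.El (io io_inj io_val tp tp_io tp_out tp_hop tp_sq Int' io_add io_sub map_pi)
open Pool.Agent.H541R3.AND.Trans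
open Pool.Agent.H541R3.AND.Heat (QT)
open Pool.Agent.K3h4.AN.Dl (pol QL ql_symm pol_moment pol_box)
open Pool.Agent.K3h4.DS.Ex
open Pool.Agent.K3h4.DS.Mo

/-! ### One box -/

section one
variable {d L L0 : ℕ} [NeZero L] [NeZero L0]

theorem tp_ne (hL : L ≤ L0) (f : T d L → ℝ) (y : T d L0) (h : tp L0 f y ≠ 0) :
    ∃ x, y = io d L L0 x ∧ f x ≠ 0 := by
  by_cases hy : y ∈ Set.range (io d L L0)
  · obtain ⟨x, rfl⟩ := hy
    rw [tp_io hL] at h
    exact ⟨x, rfl, h⟩
  · exact absurd (tp_out f y hy) h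

theorem hop_out (hL : L ≤ L0) (lam : ℝ) (V : T d L0 → ℝ) (f : T d L → ℝ) (hf : Int' f)
    (y : T d L0) (hy : y ∉ Set.range (io d L L0)) : Hop lam V (tp L0 f) y = 0 := by
  have h0 : tp L0 f y = 0 := tp_out f y hy
  have h1 : ∀ i : Fin d, tp L0 f (y + Pi.single i 1) = 0 := by
    intro i
    by_contra hc
    obtain ⟨x, hx, hfx⟩ := tp_ne hL f _ hc
    obtain ⟨a, b⟩ := hf x hfx i
    apply hy
    refine ⟨x - Pi.single i 1, ?_⟩
    rw [io_sub x i a b, ← hx, add_sub_cancel_right]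
  have h2 : ∀ i : Fin d, tp L0 f (y - Pi.single i 1) = 0 := by
    intro i
    by_contra hc
    obtain ⟨x, hx, hfx⟩ := tp_ne hL f _ hc
    obtain ⟨a, b⟩ := hf x hfx i
    apply hy
    refine ⟨x + Pi.single i 1, ?_⟩
    rw [io_add x i a b, ← hx, sub_add_cancel]
  unfold Hop
  simp only [h0, h1, h2]
  simp

theorem hop_shift (lam : ℝ) (V g : T d L0 → ℝ) (s y : T d L0) :
    Hop lam V (fun y => g (y - s)) y = Hop lam (fun y => V (y + s)) g (y - s) := by
  unfold Hop
  have e1 : ∀ i : Fin d, y + Pi.single i 1 - s = y - s + Pi.single i 1 := fun i => by abel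
  have e2 : ∀ i : Fin d, y - Pi.single i 1 - s = y - s - Pi.single i 1 := fun i => by abel
  simp only [e1, e2, sub_add_cancel]

theorem sum_shift (F : T d L0 → ℝ) (s : T d L0) : ∑ y, F (y - s) = ∑ y, F y :=
  Equiv.sum_comp (Equiv.subRight s) F

end one

/-! ### Disjoint boxes -/

section boxes
variable {d : ℕ}

/-- corners of the boxes -/
def sh (d n q : ℕ) (c : Fin d → Fin q) : T d (n * q) := fun i => ((n * (c i : ℕ) : ℕ) : ZMod (n * q))

theorem em_inj (n q : ℕ) [NeZero n] [NeZero (n * q)] (c c' : Fin d → Fin q) (x x' : T d n)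
    (h : io d n (n * q) x + sh d n q c = io d n (n * q) x' + sh d n q c') : c = c' ∧ x = x' := by
  have key : ∀ i, c i = c' i ∧ (x i).val = (x' i).val := by
    intro i
    have h1 := congrFun h i
    unfold io sh at h1
    simp only [Pi.add_apply] at h1
    rw [← Nat.cast_add, ← Nat.cast_add] at h1
    have b1 := ZMod.val_lt (x i)
    have b2 := ZMod.val_lt (x' i)
    have l1 : (x i).val + n * (c i : ℕ) < n * q := by
      have := (c i).2
      calc (x i).val + n * (c i : ℕ) < n + n * (c i : ℕ) := by omega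
        _ = n * ((c i : ℕ) + 1) := by ring
        _ ≤ n * q := Nat.mul_le_mul_left n this
    have l2 : (x' i).val + n * (c' i : ℕ) < n * q := by
      have := (c' i).2
      calc (x' i).val + n * (c' i : ℕ) < n + n * (c' i : ℕ) := by omega
        _ = n * ((c' i : ℕ) + 1) := by ring
        _ ≤ n * q := Nat.mul_le_mul_left n this
    have h2 := congrArg ZMod.val h1
    rw [ZMod.val_natCast_of_lt l1, ZMod.val_natCast_of_lt l2] at h2
    have hn : 0 < n := Nat.pos_of_ne_zero (NeZero.ne n)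
    have h3 : ((x i).val + n * (c i : ℕ)) / n = ((x' i).val + n * (c' i : ℕ)) / n := by rw [h2]
    rw [Nat.add_mul_div_left _ _ hn, Nat.add_mul_div_left _ _ hn, Nat.div_eq_of_lt b1,
      Nat.div_eq_of_lt b2, zero_add, zero_add] at h3
    rw [h3] at h2
    exact ⟨Fin.ext h3, by omega⟩
  exact ⟨funext fun i => (key i).1, funext fun i => ZMod.val_injective n (key i).2⟩

/-- lower bound of the trace in terms of the number of good boxes -/
theorem tr_boxes (n q : ℕ) [NeZero n] [NeZero (n * q)] (hnq : n ≤ n * q) (lam : ℝ)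
    (V : T d (n * q) → ℝ) (hV : ∀ x, |lam * V x| ≤ 1) (P : Polynomial ℝ) (E : ℝ)
    (hP : ∀ s : ℝ, |s| ≤ 4 * d + 1 → s < E → 1 ≤ (P.eval s) ^ 2)
    (C : Finset (Fin d → Fin q))
    (hC : ∀ c ∈ C, ∃ f : T d n → ℝ, Int' f ∧
      ∑ x, f x * Hop lam (fun x => V (io d n (n * q) x + sh d n q c)) f x < E * ∑ x, f x ^ 2) :
    (C.card : ℝ) ≤ ∑ z, ∑ x, (pol P (QL 1 (-1) lam V) (Pi.single z 1) x) ^ 2 := by
  classical
  have hC' : ∀ c, ∃ f : T d n → ℝ, c ∈ C → Int' f ∧
      ∑ x, f x * Hop lam (fun x => V (io d n (n * q) x + sh d n q c)) f x < E * ∑ x, f x ^ 2 := by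
    intro c
    by_cases hc : c ∈ C
    · obtain ⟨f, hf⟩ := hC c hc
      exact ⟨f, fun _ => hf⟩
    · exact ⟨0, fun h => absurd h hc⟩
  choose f hf using hC'
  refine Fd.tr (QL 1 (-1) lam V) (ql_symm 1 (-1) lam V) (4 * d + 1)
    (fun g M hg x => ql_sup lam V hV g M hg x) P E hP C
    (fun c y => tp (n * q) (f c) (y - sh d n q c)) (fun c hc => ?_) (fun c hc c' hc' hne y => ?_)
    (fun c hc c' hc' hne y => ?_)
  · obtain ⟨h1, h2⟩ := hf c hc
    have e1 : ∑ y, tp (n * q) (f c) (y - sh d n q c) ^ 2 = ∑ x, f c x ^ 2 := by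
      rw [sum_shift (fun y => tp (n * q) (f c) y ^ 2) (sh d n q c), tp_sq hnq]
    have e2 : ∑ y, tp (n * q) (f c) (y - sh d n q c) *
        QL 1 (-1) lam V (fun y => tp (n * q) (f c) (y - sh d n q c)) y =
        ∑ x, f c x * Hop lam (fun x => V (io d n (n * q) x + sh d n q c)) (f c) x := by
      simp only [ql_eq, hop_shift lam V (tp (n * q) (f c)) (sh d n q c)]
      rw [sum_shift (fun y => tp (n * q) (f c) y *
        Hop lam (fun y => V (y + sh d n q c)) (tp (n * q) (f c)) y) (sh d n q c)]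
      exact tp_hop hnq lam (fun y => V (y + sh d n q c)) (f c) h1
    rw [e1, e2]
    exact h2
  · by_contra hcon
    obtain ⟨x, hx, -⟩ := tp_ne hnq (f c) _ (left_ne_zero_of_mul hcon)
    obtain ⟨x', hx', -⟩ := tp_ne hnq (f c') _ (right_ne_zero_of_mul hcon)
    have e1 : io d n (n * q) x + sh d n q c = io d n (n * q) x' + sh d n q c' := by
      rw [← hx, ← hx', sub_add_cancel, sub_add_cancel]
    exact hne (em_inj n q c c' x x' e1).1
  · by_contra hcon
    obtain ⟨x, hx, -⟩ := tp_ne hnq (f c) _ (left_ne_zero_of_mul hcon)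
    have h2 := right_ne_zero_of_mul hcon
    rw [ql_eq, hop_shift] at h2
    have h3 : y - sh d n q c' ∈ Set.range (io d n (n * q)) := by
      by_contra h4
      exact h2 (hop_out hnq lam _ (f c') (hf c' hc').1 _ h4)
    obtain ⟨x', hx'⟩ := h3
    have e1 : io d n (n * q) x + sh d n q c = io d n (n * q) x' + sh d n q c' := by
      rw [← hx, hx', sub_add_cancel, sub_add_cancel]
    exact hne (em_inj n q c c' x x' e1).1

end boxes

/-! ### Translations of the torus -/

section trans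
variable {d L : ℕ} [NeZero L]

theorem it_shift (lam : ℝ) (V : T d L → ℝ) (z : T d L) (j : ℕ) (x : T d L) :
    (QL 1 (-1) lam V)^[j] (Pi.single z 1) x =
      (QL 1 (-1) lam fun y => V (y + z))^[j] (Pi.single 0 1) (x - z) := by
  induction j generalizing x with
  | zero =>
    simp only [Function.iterate_zero, id]
    by_cases hx : x = z
    · subst hx; simp
    · rw [Pi.single_eq_of_ne hx, Pi.single_eq_of_ne (sub_ne_zero.2 hx)]
  | succ j ih =>
    rw [Function.iterate_succ_apply', Function.iterate_succ_apply', ql_eq, ql_eq]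
    have e : (QL 1 (-1) lam V)^[j] (Pi.single z 1) = fun x =>
        (QL 1 (-1) lam fun y => V (y + z))^[j] (Pi.single 0 1) (x - z) := funext ih
    rw [e]
    exact hop_shift lam V ((QL 1 (-1) lam fun y => V (y + z))^[j] (Pi.single 0 1)) z x

/-- squared norm of `P(H) δ_z` -/
noncomputable def Ph (P : Polynomial ℝ) (lam : ℝ) (z : T d L) (V : T d L → ℝ) : ℝ :=
  ∑ x, (pol P (QL 1 (-1) lam V) (Pi.single z 1) x) ^ 2

theorem ph_shift (P : Polynomial ℝ) (lam : ℝ) (z : T d L) (V : T d L → ℝ) :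
    Ph P lam z V = Ph P lam 0 fun y => V (y + z) := by
  unfold Ph
  rw [← sum_shift (fun x => (pol P (QL 1 (-1) lam fun y => V (y + z)) (Pi.single 0 1) x) ^ 2) z]
  refine Finset.sum_congr rfl fun x _ => ?_
  congr 1
  unfold pol
  refine Finset.sum_congr rfl fun j _ => ?_
  congr 1
  exact it_shift lam V z j x

theorem tit_meas (lam : ℝ) (z : T d L) (n : ℕ) (x : T d L) :
    Measurable fun V : T d L → ℝ => (QL 1 (-1) lam V)^[n] (Pi.single z 1) x := by
  induction n generalizing x with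
  | zero => exact measurable_const
  | succ n ih =>
    have e : (fun V : T d L → ℝ => (QL 1 (-1) lam V)^[n + 1] (Pi.single z 1) x) = fun V =>
        ∑ i : Fin d, (2 * (QL 1 (-1) lam V)^[n] (Pi.single z 1) x -
          (QL 1 (-1) lam V)^[n] (Pi.single z 1) (x + Pi.single i 1) -
          (QL 1 (-1) lam V)^[n] (Pi.single z 1) (x - Pi.single i 1)) +
          lam * V x * (QL 1 (-1) lam V)^[n] (Pi.single z 1) x := by
      funext V
      rw [Function.iterate_succ_apply', ql_eq]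
      rfl
    rw [e]
    refine Measurable.add (Finset.measurable_sum _ fun i _ => ?_) ?_
    · exact (((ih x).const_mul 2).sub (ih _)).sub (ih _)
    · exact ((measurable_pi_apply x).const_mul lam).mul (ih x)

theorem ph_meas (P : Polynomial ℝ) (lam : ℝ) (z : T d L) :
    Measurable fun V : T d L → ℝ => Ph P lam z V := by
  unfold Ph pol
  refine Finset.measurable_sum _ fun x _ => Measurable.pow_const ?_ 2
  exact Finset.measurable_sum _ fun j _ => (tit_meas lam z j x).const_mul _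

end trans

/-- the value of a squared polynomial on the torus -/
theorem vl_sq {d : ℕ} (lam : ℝ) (V : Zd d → ℝ) (hV : ∀ x, |lam * V x| ≤ 1) (P : Polynomial ℝ)
    (h : ℕ) (hP : P.natDegree ≤ h) :
    vl lam (P ^ 2) V = Ph P lam (0 : T d (2 * h + 1)) (VT h V 0) := by
  obtain ⟨m, hm1, hm2, hm3⟩ := ex_spec lam V hV
  have hsp : Spm lam V m := ⟨inferInstance, hm3⟩
  rw [← (spm_poly hsp (P ^ 2)).2]
  have h1 := (pol_moment 1 (-1) lam V P 0 h hP m hm3).2
  have hq : ∀ E : ℝ, Pool.Agent.H541R3.AND.Deloc.q 1 (-1) E = E := fun E => by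
    unfold Pool.Agent.H541R3.AND.Deloc.q; ring
  simp only [hq] at h1
  have h2 : ∀ E : ℝ, (P ^ 2).eval E = (P.eval E) ^ 2 := fun E => by simp
  simp only [h2]
  rw [h1, (pol_box h 1 (-1) lam V 0 P hP).2]
  rfl

theorem map_VT {d : ℕ} (μ : Measure ℝ) [IsProbabilityMeasure μ] (h : ℕ) (x : Zd d) :
    (Measure.infinitePi fun _ : Zd d => μ).map (fun ω => VT h ω x) =
      Measure.pi fun _ : T d (2 * h + 1) => μ := by
  have hinj : Function.Injective fun t : T d (2 * h + 1) => x + lift t :=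
    fun s t hst => lift_inj (add_left_cancel hst)
  have hmap := Measure.map_infinitePi_infinitePi_of_inj (P := fun _ : Zd d => μ) hinj
  rw [Measure.infinitePi_eq_pi (μ := fun _ : T d (2 * h + 1) => μ)] at hmap
  rw [← hmap]
  rfl

theorem VT_meas {d : ℕ} (h : ℕ) (x : Zd d) : Measurable fun ω : Zd d → ℝ => VT h ω x := by
  unfold VT
  fun_prop

theorem tor_bd {d L : ℕ} [NeZero L] (μ : Measure ℝ) [IsProbabilityMeasure μ]
    (hμ : μ (Set.Icc (-1) 1)ᶜ = 0)
    (lam : ℝ) (hl : 0 ≤ lam) (hl1 : lam ≤ 1) :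
    ∀ᵐ V ∂(Measure.pi fun _ : T d L => μ), ∀ x, |lam * V x| ≤ 1 := by
  rw [ae_all_iff]
  intro x
  have h1 : ∀ᵐ s ∂μ, |lam * s| ≤ 1 := by
    have h2 : ∀ᵐ s ∂μ, s ∈ Set.Icc (-1 : ℝ) 1 := by
      rw [ae_iff]
      exact hμ
    filter_upwards [h2] with s hs
    rw [abs_mul, abs_of_nonneg hl]
    have : |s| ≤ 1 := abs_le.2 hs
    calc lam * |s| ≤ 1 * 1 := mul_le_mul hl1 this (abs_nonneg _) zero_le_one
      _ = 1 := one_mul 1
  have hmp : MeasurePreserving (Function.eval x) (Measure.pi fun _ : T d L => μ) μ :=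
    measurePreserving_eval (fun _ : T d L => μ) x
  exact hmp.quasiMeasurePreserving.ae h1

/-- the torus average -/
theorem tor_low {d : ℕ} (μ : Measure ℝ) [IsProbabilityMeasure μ] (hμ : μ (Set.Icc (-1) 1)ᶜ = 0)
    (lam : ℝ) (hl : 0 ≤ lam) (hl1 : lam ≤ 1) (n q : ℕ) [NeZero n] [NeZero q] [NeZero (n * q)]
    (A : Set (T d n → ℝ)) (hA : MeasurableSet A) (P : Polynomial ℝ) (E : ℝ)
    (hP : ∀ s : ℝ, |s| ≤ 4 * d + 1 → s < E → 1 ≤ (P.eval s) ^ 2)
    (h : ∀ V ∈ A, ∃ f : T d n → ℝ, Int' f ∧ ∑ x, f x * Hop lam V f x < E * ∑ x, f x ^ 2)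
    (hi : Integrable (fun V : T d (n * q) → ℝ => Ph P lam 0 V)
      (Measure.pi fun _ : T d (n * q) => μ)) :
    (Measure.pi fun _ : T d n => μ).real A / (n : ℝ) ^ d ≤
      ∫ V, Ph P lam 0 V ∂(Measure.pi fun _ : T d (n * q) => μ) := by
  classical
  obtain ⟨Q, hQ⟩ : ∃ Q : Measure (T d (n * q) → ℝ), Q = Measure.pi fun _ : T d (n * q) => μ :=
    ⟨_, rfl⟩
  have hQp : IsProbabilityMeasure Q := by rw [hQ]; infer_instance
  rw [← hQ] at hi ⊢
  have hnq : n ≤ n * q := Nat.le_mul_of_pos_right n (Nat.pos_of_ne_zero (NeZero.ne q))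
  -- translations preserve the measure
  have hsh : ∀ z : T d (n * q), Q.map (fun V x => V (x + z)) = Q := by
    intro z
    rw [hQ]
    exact map_pi μ (fun x : T d (n * q) => x + z) (add_left_injective z)
  have hmz : ∀ z : T d (n * q), Measurable fun (V : T d (n * q) → ℝ) x => V (x + z) :=
    fun z => measurable_pi_lambda _ fun x => measurable_pi_apply _
  have hPz : ∀ z : T d (n * q), Integrable (fun V => Ph P lam z V) Q ∧
      ∫ V, Ph P lam z V ∂Q = ∫ V, Ph P lam 0 V ∂Q := by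
    intro z
    have e1 : (fun V : T d (n * q) → ℝ => Ph P lam z V) =
        (fun V => Ph P lam 0 V) ∘ fun (V : T d (n * q) → ℝ) x => V (x + z) := by
      funext V
      exact ph_shift P lam z V
    constructor
    · rw [e1]
      rw [← hsh z] at hi
      exact (integrable_map_measure (ph_meas P lam 0).aestronglyMeasurable
        (hmz z).aemeasurable).1 hi
    · rw [e1]
      have h2 : ∫ V, Ph P lam 0 V ∂Q = ∫ V, Ph P lam 0 V ∂(Q.map fun V x => V (x + z)) := by
        rw [hsh z]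
      rw [h2, integral_map (hmz z).aemeasurable (ph_meas P lam 0).aestronglyMeasurable]
      rfl
  have hsum : ∫ V, ∑ z, Ph P lam z V ∂Q = ((n : ℝ) * q) ^ d * ∫ V, Ph P lam 0 V ∂Q := by
    rw [integral_finsetSum _ fun z _ => (hPz z).1]
    rw [Finset.sum_congr rfl fun z _ => (hPz z).2, Finset.sum_const, Finset.card_univ,
      nsmul_eq_mul]
    congr 1
    simp [ZMod.card]
  -- the number of good boxes
  have hmc : ∀ c : Fin d → Fin q, Measurable fun (V : T d (n * q) → ℝ) (x : T d n) =>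
      V (io d n (n * q) x + sh d n q c) :=
    fun c => measurable_pi_lambda _ fun x => measurable_pi_apply _
  have hlaw : ∀ c : Fin d → Fin q, Q.real {V | (fun x : T d n =>
      V (io d n (n * q) x + sh d n q c)) ∈ A} = (Measure.pi fun _ : T d n => μ).real A := by
    intro c
    have hinj : Function.Injective fun x : T d n => io d n (n * q) x + sh d n q c := by
      intro x x' hx
      exact (em_inj n q c c x x' hx).2
    have h1 := map_pi μ (fun x : T d n => io d n (n * q) x + sh d n q c) hinj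
    rw [← h1, map_measureReal_apply (hmc c) hA, hQ]
    rfl
  have hSm : ∀ c : Fin d → Fin q, MeasurableSet {V : T d (n * q) → ℝ | (fun x : T d n =>
      V (io d n (n * q) x + sh d n q c)) ∈ A} := fun c => (hmc c) hA
  have hcount : ∫ V, ∑ c : Fin d → Fin q, ({V : T d (n * q) → ℝ | (fun x : T d n =>
      V (io d n (n * q) x + sh d n q c)) ∈ A}).indicator (fun _ => (1 : ℝ)) V ∂Q =
      (q : ℝ) ^ d * (Measure.pi fun _ : T d n => μ).real A := by
    rw [integral_finsetSum _ fun c _ => (integrable_const _).indicator (hSm c)]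
    have e : ∀ c : Fin d → Fin q, ∫ V, ({V : T d (n * q) → ℝ | (fun x : T d n =>
      V (io d n (n * q) x + sh d n q c)) ∈ A}).indicator (fun _ => (1 : ℝ)) V ∂Q =
      (Measure.pi fun _ : T d n => μ).real A := by
      intro c
      rw [integral_indicator (hSm c), setIntegral_const, smul_eq_mul, mul_one, hlaw]
    rw [Finset.sum_congr rfl fun c _ => e c, Finset.sum_const, Finset.card_univ, nsmul_eq_mul]
    congr 1
    simp
  have hle : ∫ V, ∑ c : Fin d → Fin q, ({V : T d (n * q) → ℝ | (fun x : T d n =>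
      V (io d n (n * q) x + sh d n q c)) ∈ A}).indicator (fun _ => (1 : ℝ)) V ∂Q ≤
      ∫ V, ∑ z, Ph P lam z V ∂Q := by
    refine integral_mono_ae (integrable_finsetSum _ fun c _ =>
      (integrable_const _).indicator (hSm c)) (integrable_finsetSum _ fun z _ => (hPz z).1) ?_
    have hbd : ∀ᵐ V ∂Q, ∀ x, |lam * V x| ≤ 1 := by rw [hQ]; exact tor_bd μ hμ lam hl hl1
    filter_upwards [hbd] with V hV
    have h1 := tr_boxes n q hnq lam V hV P E hP
      (Finset.univ.filter fun c : Fin d → Fin q => (fun x : T d n =>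
        V (io d n (n * q) x + sh d n q c)) ∈ A) (fun c hc => h _ (Finset.mem_filter.1 hc).2)
    refine le_trans (le_of_eq ?_) h1
    rw [Finset.card_filter]
    push_cast
    refine Finset.sum_congr rfl fun c _ => ?_
    rw [Set.indicator_apply]
    rfl
  rw [hcount, hsum] at hle
  have hn0 : (0 : ℝ) < n := by exact_mod_cast Nat.pos_of_ne_zero (NeZero.ne n)
  have hq0 : (0 : ℝ) < q := by exact_mod_cast Nat.pos_of_ne_zero (NeZero.ne q)
  rw [div_le_iff₀ (by positivity)]
  have hqd : (0 : ℝ) < (q : ℝ) ^ d := by positivity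
  have h3 : (q : ℝ) ^ d * (Measure.pi fun _ : T d n => μ).real A ≤
      (q : ℝ) ^ d * ((∫ V, Ph P lam 0 V ∂Q) * (n : ℝ) ^ d) := by
    refine hle.trans (le_of_eq ?_)
    rw [mul_pow]; ring
  exact le_of_mul_le_mul_left h3 hqd

/-- **lower bounds for the density of states** -/
theorem lower {d : ℕ} {μ : Measure ℝ} [IsProbabilityMeasure μ] {lam : ℝ} {ν : Measure ℝ}
    (hμ : μ (Set.Icc (-1) 1)ᶜ = 0) (hl : 0 ≤ lam) (hl1 : lam ≤ 1) (hν : Dos d μ lam ν)
    (m : ℕ) (A : Set (T d (2 * m + 1) → ℝ)) (hA : MeasurableSet A) (E E' : ℝ) (hE : E < E')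
    (h : ∀ V ∈ A, ∃ f : T d (2 * m + 1) → ℝ, Int' f ∧
      ∑ x, f x * Hop lam V f x < E * ∑ x, f x ^ 2) :
    (Measure.pi fun _ : T d (2 * m + 1) => μ).real A / ((2 * m + 1 : ℕ) : ℝ) ^ d ≤
      ν.real (Set.Iic E') := by
  have := hν.1
  apply lim_eps
  intro ε hε
  obtain ⟨P, h1, h2, h3⟩ := apx (4 * d + 1) E E' ε hE hε
  have hP2 : ∀ E : ℝ, (P ^ 2).eval E = (P.eval E) ^ 2 := fun E => by simp
  obtain ⟨i1, i2, i3⟩ := dos_poly hμ hl hl1 hν (P ^ 2)
  simp only [hP2] at i1 i3
  have k1 := (sq_up ν (4 * d + 1) E E' ε (dos_mass hν) (dos_supp hμ hl hl1 hν) P i1 h1 h2 h3).2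
  refine le_trans ?_ k1
  rw [i3]
  obtain ⟨p, hp⟩ : ∃ p, p = P.natDegree := ⟨_, rfl⟩
  obtain ⟨k, hk⟩ : ∃ k, k = 2 * p * m + p + m := ⟨_, rfl⟩
  have hkL : 2 * k + 1 = (2 * m + 1) * (2 * p + 1) := by rw [hk]; ring
  have hPk : P.natDegree ≤ k := by
    rw [hk, ← hp]
    have : 0 ≤ 2 * p * m := Nat.zero_le _
    omega
  have e1 : ∀ᵐ ω ∂(Measure.infinitePi fun _ : Zd d => μ),
      vl lam (P ^ 2) ω = Ph P lam (0 : T d (2 * k + 1)) (VT k ω 0) := by
    filter_upwards [ae_bd μ hμ lam hl hl1] with ω hω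
    exact vl_sq lam ω hω P k hPk
  have i4 : Integrable (fun V : T d (2 * k + 1) → ℝ => Ph P lam 0 V)
      (Measure.pi fun _ : T d (2 * k + 1) => μ) := by
    rw [← map_VT μ k 0]
    refine (integrable_map_measure (ph_meas P lam 0).aestronglyMeasurable
      (VT_meas k 0).aemeasurable).2 ?_
    exact i2.congr e1
  have e2 : ∫ ω, vl lam (P ^ 2) ω ∂(Measure.infinitePi fun _ : Zd d => μ) =
      ∫ V, Ph P lam (0 : T d (2 * k + 1)) V ∂(Measure.pi fun _ : T d (2 * k + 1) => μ) := by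
    rw [integral_congr_ae e1, ← map_VT μ k 0,
      integral_map (VT_meas k 0).aemeasurable (ph_meas P lam 0).aestronglyMeasurable]
  rw [e2]
  have hP1 : ∀ s : ℝ, |s| ≤ 4 * d + 1 → s < E → 1 ≤ (P.eval s) ^ 2 := by
    intro s hs1 hs2
    have h5 := h1 s hs1 hs2.le
    nlinarith
  have hne : NeZero ((2 * m + 1) * (2 * p + 1)) := ⟨by positivity⟩
  have key := tor_low μ hμ lam hl hl1 (2 * m + 1) (2 * p + 1) A hA P E hP1 h
  revert key
  generalize (2 * m + 1) * (2 * p + 1) = L at hkL hne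
  subst hkL
  intro key
  exact key i4

end Pool.Agent.K3h4.DS.Lo
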