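import Pool.Agent.K3h4.DS.Tb
import Pool.Agent.Y663.Mc

/-! Low energy trial functions on a torus: probability of a shift of the energy. -/

set_option autoImplicit false
set_option linter.unusedSectionVars false

open scoped BigOperators ENNReal
open MeasureTheory Filter Topology ProbabilityTheory

namespace Pool.Agent.K3h4.DS.Ta

open Pool.Agent.H4R2.AE (T Hop)
open Pool.Agent.H4R2.LO.El (D Int' ch ch_int ch_sq ch_D SS SS_ge tt tt_nonneg)
open Pool.Agent.Y663.Mc (ApE)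
open Pool.Agent.K3h4.DS.Ti
open Pool.Agent.K3h4.DS.Tb

variable {d L : ℕ} [NeZero L]

/-- there is a trial function in the interior of the box of energy less than `E` -/
def Tr (d L : ℕ) [NeZero L] (lam E : ℝ) : Set (T d L → ℝ) :=
  {V | ∃ f : T d L → ℝ, Int' f ∧ ∑ x, f x * Hop lam V f x < E * ∑ x, f x ^ 2}

theorem tr_open (lam E : ℝ) : IsOpen (Tr d L lam E) := by
  have e : Tr d L lam E = ⋃ f ∈ {f : T d L → ℝ | Int' f},
      {V : T d L → ℝ | ∑ x, f x * Hop lam V f x < E * ∑ x, f x ^ 2} := by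
    ext V
    simp only [Tr, Set.mem_iUnion, Set.mem_ofPred_eq, exists_prop]
  rw [e]
  refine isOpen_biUnion fun f _ => ?_
  refine isOpen_lt ?_ continuous_const
  unfold Hop
  fun_prop

theorem tr_meas (lam E : ℝ) : MeasurableSet (Tr d L lam E) := (tr_open lam E).measurableSet

theorem tt_le (j : ZMod L) : tt L j ≤ L / 2 := by
  unfold tt
  rcases le_total (j.val : ℝ) (L / 2) with h | h
  · exact (min_le_left _ _).trans h
  · refine (min_le_right _ _).trans ?_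
    linarith

theorem ch_nonneg (x : T d L) : 0 ≤ ch d L x :=
  Finset.prod_nonneg fun k _ => tt_nonneg _

theorem ch_le (x : T d L) : ch d L x ≤ ((L : ℝ) / 2) ^ d := by
  unfold ch
  refine (Finset.prod_le_prod (fun _ _ => tt_nonneg _) fun _ _ => tt_le _).trans ?_
  rw [Finset.prod_const, Finset.card_univ, Fintype.card_fin]

theorem hop_pot (lam : ℝ) (V V' f : T d L → ℝ) :
    ∑ x, f x * Hop lam V' f x = ∑ x, f x * Hop lam V f x - lam * ∑ x, (V x - V' x) * f x ^ 2 := by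
  rw [Finset.mul_sum, ← Finset.sum_sub_distrib]
  refine Finset.sum_congr rfl fun x _ => ?_
  unfold Hop
  ring

/-- the trial function -/
theorem trial (hd : 1 ≤ d) (hL : 4 ≤ L) (lam ε E c : ℝ) (hl : 0 ≤ lam) (hc : 0 ≤ c)
    (V V' : T d L → ℝ) (hV : ApE lam ε E V) (hle : ∀ x, V' x ≤ V x)
    (hc' : c * ∑ x, ch d L x ^ 2 ≤ ∑ x, ch d L x ^ 2 * (V x - V' x)) (E' : ℝ)
    (hE' : E + ε + 1024 * d / (L : ℝ) ^ 2 - lam * c / 4 < E') : V' ∈ Tr d L lam E' := by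
  obtain ⟨ψ, hψ, hap⟩ := hV
  have hLpos : (0 : ℝ) < L := by exact_mod_cast Nat.pos_of_ne_zero (NeZero.ne L)
  obtain ⟨χ, hχ⟩ : ∃ χ : T d L → ℝ, χ = ch d L := ⟨_, rfl⟩
  rw [← hχ] at hc'
  refine ⟨fun x => ψ x * χ x, ?_, ?_⟩
  · intro x hx
    have h1 : χ x ≠ 0 := fun h => hx (by simp [h])
    rw [hχ] at h1
    exact ch_int x h1
  have h1 := Pool.Agent.Y663.Mc.vup lam E ε V ψ χ hap (fun x => (hψ x).1) (fun x => (hψ x).2)
  have h2 := hop_pot lam V V' (fun x => ψ x * χ x)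
  rw [h2]
  have a2 := ch_D (d := d) (L := L) hd
  have a3 := SS_ge (L := L) hL
  have hSpos : 0 < SS L := lt_of_lt_of_le (by positivity) a3
  have a4 : SS L ^ d = SS L * SS L ^ (d - 1) := by
    rw [← pow_succ']
    congr 1
    omega
  have hP : 0 < SS L ^ (d - 1) := by positivity
  have hχs : ∑ x, χ x ^ 2 = SS L * SS L ^ (d - 1) := by rw [hχ, ch_sq, a4]
  have hχ0 : 0 < ∑ x, χ x ^ 2 := by rw [hχs]; positivity
  have hge : ∑ x, χ x ^ 2 ≤ ∑ x, (ψ x * χ x) ^ 2 := by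
    refine Finset.sum_le_sum fun x _ => ?_
    rw [mul_pow]
    have := (hψ x).1
    exact le_mul_of_one_le_left (sq_nonneg _) (by nlinarith)
  have hle4 : ∑ x, (ψ x * χ x) ^ 2 ≤ 4 * ∑ x, χ x ^ 2 := by
    rw [Finset.mul_sum]
    refine Finset.sum_le_sum fun x _ => ?_
    rw [mul_pow]
    have h5 := (hψ x).1
    have h6 := (hψ x).2
    exact mul_le_mul_of_nonneg_right (by nlinarith) (sq_nonneg _)
  have hD4 : 4 * D χ ≤ 1024 * d / (L : ℝ) ^ 2 * ∑ x, (ψ x * χ x) ^ 2 := by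
    have b1 : 4 * D χ ≤ 4 * (d * (L * SS L ^ (d - 1))) := by rw [hχ]; linarith
    have b2 : 4 * (d * (L * SS L ^ (d - 1))) ≤ 1024 * d / (L : ℝ) ^ 2 * ∑ x, χ x ^ 2 := by
      rw [hχs]
      have b3 : 1024 * (d : ℝ) / (L : ℝ) ^ 2 * ((L : ℝ) ^ 3 / 256) = 4 * (d * L) := by
        field_simp
        ring
      calc 4 * (d * (L * SS L ^ (d - 1))) = (4 * (d * L)) * SS L ^ (d - 1) := by ring
        _ = (1024 * (d : ℝ) / (L : ℝ) ^ 2 * ((L : ℝ) ^ 3 / 256)) * SS L ^ (d - 1) := by rw [b3]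
        _ ≤ (1024 * (d : ℝ) / (L : ℝ) ^ 2 * SS L) * SS L ^ (d - 1) := by gcongr
        _ = _ := by ring
    exact b1.trans (b2.trans (mul_le_mul_of_nonneg_left hge (by positivity)))
  have hpot : lam * c / 4 * ∑ x, (ψ x * χ x) ^ 2 ≤ lam * ∑ x, (V x - V' x) * (ψ x * χ x) ^ 2 := by
    have b1 : ∑ x, χ x ^ 2 * (V x - V' x) ≤ ∑ x, (V x - V' x) * (ψ x * χ x) ^ 2 := by
      refine Finset.sum_le_sum fun x _ => ?_
      rw [mul_pow]
      have h5 := (hψ x).1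
      have h7 : 0 ≤ V x - V' x := by linarith [hle x]
      have h8 : χ x ^ 2 ≤ ψ x ^ 2 * χ x ^ 2 := le_mul_of_one_le_left (sq_nonneg _) (by nlinarith)
      calc χ x ^ 2 * (V x - V' x) = (V x - V' x) * χ x ^ 2 := by ring
        _ ≤ (V x - V' x) * (ψ x ^ 2 * χ x ^ 2) := mul_le_mul_of_nonneg_left h8 h7
    have b2 : c / 4 * ∑ x, (ψ x * χ x) ^ 2 ≤ c * ∑ x, χ x ^ 2 := by
      calc c / 4 * ∑ x, (ψ x * χ x) ^ 2 ≤ c / 4 * (4 * ∑ x, χ x ^ 2) := by gcongr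
        _ = _ := by ring
    calc lam * c / 4 * ∑ x, (ψ x * χ x) ^ 2 = lam * (c / 4 * ∑ x, (ψ x * χ x) ^ 2) := by ring
      _ ≤ lam * ∑ x, (V x - V' x) * (ψ x * χ x) ^ 2 :=
        mul_le_mul_of_nonneg_left (b2.trans (hc'.trans b1)) hl
  have hf0 : 0 < ∑ x, (ψ x * χ x) ^ 2 := lt_of_lt_of_le hχ0 hge
  have hfin := mul_lt_mul_of_pos_right hE' hf0
  have e1 : (E + ε + 1024 * d / (L : ℝ) ^ 2 - lam * c / 4) * ∑ x, (ψ x * χ x) ^ 2 =
      (E + ε) * ∑ x, (ψ x * χ x) ^ 2 + 1024 * d / (L : ℝ) ^ 2 * ∑ x, (ψ x * χ x) ^ 2 -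
        lam * c / 4 * ∑ x, (ψ x * χ x) ^ 2 := by ring
  rw [e1] at hfin
  linarith

/-- no shift -/
theorem plain (hd : 1 ≤ d) (hL : 4 ≤ L) (lam ε E : ℝ) (hl : 0 ≤ lam)
    (V : T d L → ℝ) (hV : ApE lam ε E V) (E' : ℝ)
    (hE' : E + ε + 1024 * d / (L : ℝ) ^ 2 < E') : V ∈ Tr d L lam E' := by
  refine trial hd hL lam ε E 0 hl le_rfl V V hV (fun x => le_rfl) ?_ E' (by linarith)
  simp

/-- **probability of a shift** -/
theorem shift (μ : Measure ℝ) [IsProbabilityMeasure μ] (hμ : μ (Set.Icc (-1) 1)ᶜ = 0)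
    (hd : 1 ≤ d) (hL : 4 ≤ L) (lam ε E : ℝ) (hl : 0 ≤ lam) (G : Set (T d L → ℝ))
    (hG : MeasurableSet G) (hGP : 7 / 8 ≤ (Measure.pi fun _ : T d L => μ).real G)
    (hap : ∀ V ∈ G, ApE lam ε E V) (s : ℝ) (hs0 : 0 < s) (hs1 : s ≤ 1)
    (hs : (64 : ℝ) ^ (d + 1) ≤ s * e0 μ * (L : ℝ) ^ d) (E' : ℝ)
    (hE' : E + ε + 1024 * d / (L : ℝ) ^ 2 - lam * (s * e0 μ / 2) / 4 < E') :
    1 / 2 * Real.exp (-(s ^ 2 * (L : ℝ) ^ d)) ≤
      (Measure.pi fun _ : T d L => μ).real (Tr d L lam E') := by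
  obtain ⟨a, ha⟩ : ∃ a : ℝ≥0∞, a = ENNReal.ofReal (1 - s) := ⟨_, rfl⟩
  obtain ⟨b, hb⟩ : ∃ b : ℝ≥0∞, b = ENNReal.ofReal s := ⟨_, rfl⟩
  have hab : a + b = 1 := by
    rw [ha, hb, ← ENNReal.ofReal_add (by linarith) hs0.le, sub_add_cancel, ENNReal.ofReal_one]
  have hbs : b.toReal = s := by rw [hb, ENNReal.toReal_ofReal hs0.le]
  have hp := cp_prob μ a b hab
  have hLpos : (0 : ℝ) < L := by exact_mod_cast Nat.pos_of_ne_zero (NeZero.ne L)
  have hse : 0 < s * e0 μ := by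
    by_contra hcon
    have h1 : s * e0 μ * (L : ℝ) ^ d ≤ 0 :=
      mul_nonpos_of_nonpos_of_nonneg (not_lt.1 hcon) (by positivity)
    have h2 : (0 : ℝ) < 64 ^ (d + 1) := by positivity
    linarith
  obtain ⟨Θ, hΘ⟩ : ∃ Θ : Measure (T d L → ℝ × ℝ), Θ = Measure.pi fun _ : T d L => cp μ a b :=
    ⟨_, rfl⟩
  have hΘp : IsProbabilityMeasure Θ := by rw [hΘ]; infer_instance
  -- marginals
  have hp1 : IsProbabilityMeasure ((cp μ a b).map Prod.fst) :=
    Measure.isProbabilityMeasure_map measurable_fst.aemeasurable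
  have hp2 : IsProbabilityMeasure ((cp μ a b).map Prod.snd) :=
    Measure.isProbabilityMeasure_map measurable_snd.aemeasurable
  have hX : Θ.map (fun θ x => (θ x).1) = Measure.pi fun _ : T d L => μ := by
    have h1 := Measure.pi_map_pi (μ := fun _ : T d L => cp μ a b)
      (f := fun _ => Prod.fst) (fun _ => measurable_fst.aemeasurable)
    rw [hΘ, h1, cp_fst μ a b hab]
  have hY : Θ.map (fun θ x => (θ x).2) = Measure.pi fun _ : T d L => μ.withDensity (gg μ a b) := by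
    have h1 := Measure.pi_map_pi (μ := fun _ : T d L => cp μ a b)
      (f := fun _ => Prod.snd) (fun _ => measurable_snd.aemeasurable)
    rw [hΘ, h1, cp_snd μ a b]
  have hXm : Measurable fun (θ : T d L → ℝ × ℝ) x => (θ x).1 := by fun_prop
  have hYm : Measurable fun (θ : T d L → ℝ × ℝ) x => (θ x).2 := by fun_prop
  -- the three events
  have hE1 : 7 / 8 ≤ Θ.real {θ | (fun x => (θ x).1) ∈ G} := by
    rw [← hX, map_measureReal_apply hXm hG] at hGP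
    exact hGP
  have hE2 : ∀ᵐ θ ∂Θ, ∀ x, (θ x).2 ≤ (θ x).1 := by
    rw [ae_all_iff]
    intro x
    have hmp := measurePreserving_eval (fun _ : T d L => cp μ a b) x
    rw [← hΘ] at hmp
    exact hmp.quasiMeasurePreserving.ae (cp_le μ a b)
  have hSS := SS_ge (L := L) hL
  have hSpos : 0 < SS L := lt_of_lt_of_le (by positivity) hSS
  have hw0 : 0 < ∑ x, ch d L x ^ 2 := by rw [ch_sq]; positivity
  have hcheb := cheb μ hμ a b hab (fun x : T d L => ch d L x ^ 2) (fun x => sq_nonneg _) hw0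
    (by rw [hbs]; exact hse)
  rw [← hΘ, hbs] at hcheb
  have hsmall : 8 * (∑ x, (ch d L x ^ 2) ^ 2) / (s * e0 μ * (∑ x, ch d L x ^ 2) ^ 2) ≤ 1 / 8 := by
    obtain ⟨W, hW⟩ : ∃ W, W = ∑ x, ch d L x ^ 2 := ⟨_, rfl⟩
    have h1 : ∑ x, (ch d L x ^ 2) ^ 2 ≤ (((L : ℝ) / 2) ^ d) ^ 2 * W := by
      rw [hW, Finset.mul_sum]
      refine Finset.sum_le_sum fun x _ => ?_
      rw [pow_two (ch d L x ^ 2)]
      exact mul_le_mul_of_nonneg_right (pow_le_pow_left₀ (ch_nonneg x) (ch_le x) 2) (sq_nonneg _)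
    rw [← hW] at hw0 ⊢
    have h2 : ((L : ℝ) ^ 3 / 256) ^ d ≤ W := by
      rw [hW, ch_sq]
      exact pow_le_pow_left₀ (by positivity) hSS d
    have h3 : (((L : ℝ) / 2) ^ d) ^ 2 * (64 : ℝ) ≤ s * e0 μ * W := by
      calc (((L : ℝ) / 2) ^ d) ^ 2 * (64 : ℝ) =
            64 ^ (d + 1) * (((L : ℝ) ^ 2 / 4) ^ d / 64 ^ d) := by
            have e5 : (((L : ℝ) / 2) ^ d) ^ 2 = ((L : ℝ) ^ 2 / 4) ^ d := by
              rw [← pow_mul, mul_comm, pow_mul]
              congr 1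
              ring
            rw [e5, pow_succ (64 : ℝ) d]
            field_simp
        _ ≤ s * e0 μ * (L : ℝ) ^ d * (((L : ℝ) ^ 2 / 4) ^ d / 64 ^ d) := by gcongr
        _ = s * e0 μ * ((L : ℝ) ^ 3 / 256) ^ d := by
            rw [← div_pow, mul_assoc, ← mul_pow]
            congr 2
            ring
        _ ≤ s * e0 μ * W := by gcongr
    rw [div_le_div_iff₀ (by positivity) (by norm_num)]
    calc 8 * (∑ x, (ch d L x ^ 2) ^ 2) * 8 ≤ 8 * ((((L : ℝ) / 2) ^ d) ^ 2 * W) * 8 := by gcongr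
      _ = ((((L : ℝ) / 2) ^ d) ^ 2 * 64) * W := by ring
      _ ≤ (s * e0 μ * W) * W := by gcongr
      _ = 1 * (s * e0 μ * W ^ 2) := by ring
  have hE3 := hcheb.trans hsmall
  -- the conclusion under the coupling
  have hYP : 3 / 4 ≤ Θ.real {θ | (fun x => (θ x).2) ∈ Tr d L lam E'} := by
    obtain ⟨B, hB⟩ : ∃ B : Set (T d L → ℝ × ℝ), B = {θ | ∑ x, ch d L x ^ 2 * ((θ x).1 - (θ x).2) <
      s * e0 μ / 2 * ∑ x, ch d L x ^ 2} := ⟨_, rfl⟩
    rw [← hB] at hE3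
    have hsub : {θ : T d L → ℝ × ℝ | (fun x => (θ x).1) ∈ G} ⊆
        ({θ | (fun x => (θ x).2) ∈ Tr d L lam E'} ∪ B) ∪ {θ | ¬ ∀ x, (θ x).2 ≤ (θ x).1} := by
      intro θ hθ
      by_cases h1 : ∀ x, (θ x).2 ≤ (θ x).1
      · left
        by_cases h2 : θ ∈ B
        · exact Or.inr h2
        · left
          rw [hB] at h2
          have h3 : s * e0 μ / 2 * ∑ x, ch d L x ^ 2 ≤
            ∑ x, ch d L x ^ 2 * ((θ x).1 - (θ x).2) := not_lt.1 h2
          exact trial hd hL lam ε E (s * e0 μ / 2) hl (by positivity) (fun x => (θ x).1)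
            (fun x => (θ x).2) (hap _ hθ) h1 h3 E' hE'
      · exact Or.inr h1
    have h0 : Θ.real {θ | ¬ ∀ x, (θ x).2 ≤ (θ x).1} = 0 := by
      rw [measureReal_eq_zero_iff]
      exact ae_iff.1 hE2
    have h1 := measureReal_mono (μ := Θ) hsub
    have h2 := measureReal_union_le (μ := Θ) ({θ | (fun x => (θ x).2) ∈ Tr d L lam E'} ∪ B)
      {θ | ¬ ∀ x, (θ x).2 ≤ (θ x).1}
    have h3 := measureReal_union_le (μ := Θ) {θ | (fun x => (θ x).2) ∈ Tr d L lam E'} B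
    linarith
  -- comparison of the measures
  have hYr : Θ.real {θ | (fun x => (θ x).2) ∈ Tr d L lam E'} =
      (Measure.pi fun _ : T d L => μ.withDensity (gg μ a b)).real (Tr d L lam E') := by
    rw [← hY, map_measureReal_apply hYm (tr_meas lam E')]
    rfl
  rw [hYr] at hYP
  have hcs := cs μ a b hab (Tr d L lam E') (tr_meas lam E')
  have hr := ENNReal.toReal_mono (by
    refine ENNReal.mul_ne_top (ENNReal.pow_ne_top ?_) (measure_ne_top _ _)
    rw [hb]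
    exact ENNReal.add_ne_top.2 ⟨ENNReal.one_ne_top, ENNReal.pow_ne_top ENNReal.ofReal_ne_top⟩) hcs
  rw [ENNReal.toReal_pow, ENNReal.toReal_mul, ENNReal.toReal_pow] at hr
  have hcard : Fintype.card (T d L) = L ^ d := by simp [ZMod.card]
  have h1b : ((1 : ℝ≥0∞) + b ^ 2).toReal = 1 + s ^ 2 := by
    rw [ENNReal.toReal_add ENNReal.one_ne_top (ENNReal.pow_ne_top (by rw [hb]; exact ENNReal.ofReal_ne_top)),
      ENNReal.toReal_pow, hbs]
    norm_num
  rw [hcard, h1b] at hr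
  have hexp : (1 + s ^ 2) ^ (L ^ d) ≤ Real.exp (s ^ 2 * (L : ℝ) ^ d) := by
    have h1 : 1 + s ^ 2 ≤ Real.exp (s ^ 2) := by
      have := Real.add_one_le_exp (s ^ 2)
      linarith
    calc (1 + s ^ 2) ^ (L ^ d) ≤ Real.exp (s ^ 2) ^ (L ^ d) :=
          pow_le_pow_left₀ (by positivity) h1 _
      _ = Real.exp (s ^ 2 * (L : ℝ) ^ d) := by
          rw [← Real.exp_nat_mul]
          congr 1
          push_cast
          ring
  obtain ⟨p, hpp⟩ : ∃ p, p = (Measure.pi fun _ : T d L => μ).real (Tr d L lam E') := ⟨_, rfl⟩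
  have hr2 : (3 / 4 : ℝ) ^ 2 ≤ Real.exp (s ^ 2 * (L : ℝ) ^ d) * p := by
    refine (pow_le_pow_left₀ (by norm_num) hYP 2).trans (hr.trans ?_)
    rw [hpp]
    exact mul_le_mul_of_nonneg_right hexp measureReal_nonneg
  rw [← hpp, Real.exp_neg, mul_comm, ← div_eq_inv_mul, div_le_iff₀ (Real.exp_pos _)]
  nlinarith

end Pool.Agent.K3h4.DS.Ta
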