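import Pool.Agent.K3h4.DS.Fi
import Pool.Agent.K3h4.DS.Ta
import Pool.Agent.K3h4.DS.Lo

/-! Assembly: upper bounds for the density of states from flat tori on all scales. -/

set_option autoImplicit false
set_option linter.unusedSectionVars false
set_option linter.unusedVariables false

open scoped BigOperators ENNReal
open MeasureTheory Filter Topology

namespace Pool.Agent.K3h4.DS.As

open Pool.Agent.H4R2
open Pool.Agent.H4R2.AE (T Hop)
open Pool.Agent.H541R3.AND.Trans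
open Pool.Agent.H541R3.AND.Deloc (q GoodAt)
open Pool.Agent.K3h4.AN.Dl (pol QL ql_symm pol_moment pol_box)
open Pool.Agent.K3h4.DS.Mo
open Pool.Agent.K3h4.DS.Lo (map_VT VT_meas lower)
open Pool.Agent.K3h4.DS.Fl (fil2)

theorem exp4 (y : ℝ) (hy : 0 < y) : Real.exp (-y) ≤ 24 / y ^ 4 := by
  have h := Real.pow_div_factorial_le_exp y hy.le 4
  rw [Real.exp_neg, inv_le_comm₀ (Real.exp_pos _) (by positivity), inv_div]
  have : (Nat.factorial 4 : ℝ) = 24 := by norm_num [Nat.factorial]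
  rwa [this] at h

theorem exp3 (y : ℝ) (hy : 0 < y) : Real.exp (-y) ≤ 6 / y ^ 3 := by
  have h := Real.pow_div_factorial_le_exp y hy.le 3
  rw [Real.exp_neg, inv_le_comm₀ (Real.exp_pos _) (by positivity), inv_div]
  have : (Nat.factorial 3 : ℝ) = 6 := by norm_num [Nat.factorial]
  rwa [this] at h

/-- geometric sum -/
theorem gs (r w c x : ℝ) (hr : 2 ≤ r) (hw : 0 < w) (hwr : w ≤ r ^ 3) (hc : 0 < c) (hx : 1 ≤ x)
    (N : ℕ) : ∑ k ∈ Finset.range N, w ^ (k + 1) * Real.exp (-(c * (r ^ k * x))) ≤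
      (768 * w / c ^ 4) * Real.exp (-(c * x / 2)) := by
  have hterm : ∀ k ∈ Finset.range N, w ^ (k + 1) * Real.exp (-(c * (r ^ k * x))) ≤
      (384 * w / c ^ 4) * Real.exp (-(c * x / 2)) * (1 / 2) ^ k := by
    intro k _
    have hrk : 1 ≤ r ^ k := one_le_pow₀ (by linarith)
    have hrk0 : 0 < r ^ k := by linarith
    obtain ⟨z, hz⟩ : ∃ z, z = c * (r ^ k * x) / 2 := ⟨_, rfl⟩
    have hz0 : 0 < z := by rw [hz]; positivity
    have hz1 : c * r ^ k / 2 ≤ z := by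
      rw [hz]
      have : r ^ k * 1 ≤ r ^ k * x := mul_le_mul_of_nonneg_left hx hrk0.le
      have h2 : c * (r ^ k * 1) ≤ c * (r ^ k * x) := mul_le_mul_of_nonneg_left this hc.le
      linarith
    have hz2 : c * x / 2 ≤ z := by
      rw [hz]
      have : 1 * x ≤ r ^ k * x := mul_le_mul_of_nonneg_right hrk (by linarith)
      have h2 : c * (1 * x) ≤ c * (r ^ k * x) := mul_le_mul_of_nonneg_left this hc.le
      linarith
    have e1 : Real.exp (-(c * (r ^ k * x))) = Real.exp (-z) * Real.exp (-z) := by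
      rw [← Real.exp_add, hz]
      congr 1
      ring
    have h3 : Real.exp (-z) ≤ Real.exp (-(c * x / 2)) := Real.exp_le_exp.2 (neg_le_neg hz2)
    have h4 : Real.exp (-z) ≤ 24 / (c * r ^ k / 2) ^ 4 := by
      refine (exp4 z hz0).trans ?_
      gcongr
    have h5 : w ^ k ≤ (r ^ k) ^ 3 := by
      calc w ^ k ≤ (r ^ 3) ^ k := pow_le_pow_left₀ hw.le hwr k
        _ = (r ^ k) ^ 3 := by rw [← pow_mul, ← pow_mul, mul_comm]
    have h6 : 1 / r ^ k ≤ (1 / 2) ^ k := by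
      rw [one_div, one_div, inv_pow]
      apply inv_anti₀ (by positivity)
      exact pow_le_pow_left₀ (by norm_num) hr k
    rw [e1, pow_succ]
    calc w ^ k * w * (Real.exp (-z) * Real.exp (-z)) ≤
          (r ^ k) ^ 3 * w * (24 / (c * r ^ k / 2) ^ 4 * Real.exp (-(c * x / 2))) := by gcongr
      _ = (384 * w / c ^ 4) * Real.exp (-(c * x / 2)) * (1 / r ^ k) := by
          field_simp
          norm_num
      _ ≤ (384 * w / c ^ 4) * Real.exp (-(c * x / 2)) * (1 / 2) ^ k := by gcongr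
  refine (Finset.sum_le_sum hterm).trans ?_
  rw [← Finset.mul_sum]
  have hgeo : ∑ k ∈ Finset.range N, ((1 : ℝ) / 2) ^ k ≤ 2 := by
    rw [geom_sum_eq (by norm_num)]
    have : (0 : ℝ) ≤ (1 / 2) ^ N := by positivity
    rw [div_le_iff_of_neg (by norm_num)]
    linarith
  calc (384 * w / c ^ 4) * Real.exp (-(c * x / 2)) * ∑ k ∈ Finset.range N, ((1 : ℝ) / 2) ^ k ≤
        (384 * w / c ^ 4) * Real.exp (-(c * x / 2)) * 2 := by gcongr
    _ = _ := by ring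

/-- the filter polynomials exist at flat sites -/
def Filt (d : ℕ) (K b C : ℝ) : Prop :=
  ∀ (h : ℕ) (lam Es : ℝ) (V : Zd d → ℝ) (x0 : Zd d), 0 < h → GoodAt h lam K Es V x0 →
    ∀ κ : ℝ, 4 / (h : ℝ) ^ 2 ≤ κ → κ ≤ 1 → ∃ (c0 : ℝ) (P : Polynomial ℝ), P.natDegree ≤ h ∧
      ∑ x ∈ box h x0, (pol P (QZ c0 b lam V) (Pi.single x0 1) x) ^ 2 ≤ C * κ ^ ((d : ℝ) / 2) ∧
      ∀ E : ℝ, E ≤ Es + κ → 1 / 4 ≤ P.eval (q c0 b E)

theorem mb {d : ℕ} {K b C : ℝ} (hF : Filt d K b C) (h : ℕ) (hh : 0 < h) (lam Es : ℝ)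
    (V : Zd d → ℝ) (hg : GoodAt h lam K Es V 0) (κ : ℝ) (hκ : 4 / (h : ℝ) ^ 2 ≤ κ) (hκ1 : κ ≤ 1)
    (m : Measure ℝ) (hm : Spm lam V m) :
    m.real (Set.Iic (Es + κ)) ≤ 16 * (C * κ ^ ((d : ℝ) / 2)) := by
  have := hm.1
  obtain ⟨c0, P, h1, h2, h3⟩ := hF h lam Es V 0 hh hg κ hκ hκ1
  obtain ⟨j1, j2⟩ := pol_moment c0 b lam V P 0 h h1 m hm.2
  have h4 : ∫ E in Set.Iic (Es + κ), (1 / 16 : ℝ) ∂m ≤
      ∫ E in Set.Iic (Es + κ), P.eval (q c0 b E) ^ 2 ∂m := by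
    refine setIntegral_mono_on (integrable_const _).integrableOn j1.integrableOn
      measurableSet_Iic fun E hE => ?_
    have h5 := h3 E hE
    nlinarith
  rw [setIntegral_const, smul_eq_mul] at h4
  have h5 := h4.trans (setIntegral_le_integral j1 (Eventually.of_forall fun E => sq_nonneg _))
  rw [j2] at h5
  linarith

theorem good_of {d h : ℕ} {lam η K Es : ℝ} {V : Zd d → ℝ} (hη : η ≤ 1)
    (hf : AE.Core.FlatE lam η (K / ((2 * h + 1 : ℕ) : ℝ) ^ 2) Es (VT h V 0)) :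
    GoodAt h lam K Es V 0 := by
  obtain ⟨E0, ψ, h1, h2, h3, -⟩ := hf
  exact ⟨E0, ψ, h1, fun y => ⟨(h2 y).1, (h2 y).2.trans (by linarith)⟩, h3⟩

/-- flat tori on all scales -/
def Flats (d p : ℕ) (μ : Measure ℝ) (lam η Es K : ℝ) : Prop :=
  ∀ (L : ℕ) [NeZero L], K * (lam ^ 2 * (L : ℝ) ^ p) ≤ 1 →
    ∃ G : Set (AE.T d L → ℝ), MeasurableSet G ∧
      1 - K * Real.exp (-(1 / (K * (lam ^ 2 * (L : ℝ) ^ p)))) ≤
        (Measure.pi fun _ : AE.T d L => μ).real G ∧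
      ∀ V ∈ G, AE.Core.FlatE lam η (K / (L : ℝ) ^ 2) Es V

/-- **multi-scale upper bound** -/
theorem multi (d p : ℕ) (hd : 1 ≤ d) (hdp : d ≤ 3 * p) (hd3 : d ≤ 3) (hp : 1 ≤ p) (hp2 : p ≤ 2)
    (K : ℝ) (hK : 1 ≤ K) (b C : ℝ) (hC : 0 < C) (hF : Filt d K b C) (η : ℝ) (hη : η ≤ 1)
    (K1 c1 : ℝ) (hK1 : K ≤ K1) (hc1 : 0 < c1) (hc1' : c1 ≤ 1 / (49 * K)) :
    ∃ K2 : ℝ, 0 < K2 ∧ ∀ (μ : Measure ℝ) [IsProbabilityMeasure μ], μ (Set.Icc (-1) 1)ᶜ = 0 →
    ∀ lam : ℝ, 0 < lam → lam ≤ 1 → ∀ Es : ℝ, Flats d p μ lam η Es K →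
    ∀ ν : Measure ℝ, Dos d μ lam ν → ∀ y : ℝ, 0 < y → y ≤ 1 → 49 * K * lam ^ 2 ≤ y ^ p →
    ∀ (S0 : ℝ) (hS0 : 0 ≤ S0) (bb a : ℝ), bb ≤ Es + y ^ 2 → a < bb →
    ∀ B0 : Set (Zd d → ℝ), MeasurableSet B0 →
      (Measure.infinitePi fun _ : Zd d => μ).real B0 ≤
        K1 * Real.exp (-(c1 * (y ^ p / lam ^ 2))) →
      (∀ ω : Zd d → ℝ, (∀ x, |lam * ω x| ≤ 1) → ω ∉ B0 → ∀ m, Spm lam ω m →
        m.real (Set.Iic bb) ≤ S0) →
      ν.real (Set.Iic a) ≤ S0 + K2 * y ^ d * Real.exp (-(c1 * (y ^ p / lam ^ 2) / 2)) := by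
  have hK0 : 0 < K := by linarith
  have hK10 : 0 < K1 := by linarith
  refine ⟨16 * C * K1 * (768 * 2 ^ d / c1 ^ 4) + K1 * (6 * (8 / c1) ^ 3), by positivity, ?_⟩
  intro μ _ hμ lam hl hl1 Es hflat ν hν y hy hy1 hyK S0 hS0 bb a hbb ha B0 hB0 hPB0 hgood0
  have hl2 : 0 < lam ^ 2 := by positivity
  obtain ⟨x, hx⟩ : ∃ x, x = y ^ p / lam ^ 2 := ⟨_, rfl⟩
  have hx1 : 49 * K ≤ x := by rw [hx, le_div_iff₀ hl2]; exact hyK
  have hx1' : 1 ≤ x := by linarith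
  rw [← hx] at hPB0 ⊢
  -- number of scales
  have hy1' : 1 ≤ 1 / y := by rw [le_div_iff₀ hy]; linarith
  obtain ⟨N, hN1, hN2⟩ := exists_nat_pow_near hy1' (one_lt_two)
  have hN1' : (2 : ℝ) ^ N * y ≤ 1 := by rwa [le_div_iff₀ hy] at hN1
  have hN2' : 1 < (2 : ℝ) ^ (N + 1) * y := by rwa [div_lt_iff₀ hy] at hN2
  -- the scales
  obtain ⟨yk, hyk⟩ : ∃ yk : ℕ → ℝ, yk = fun k => 2 ^ k * y := ⟨_, rfl⟩
  have hyk0 : ∀ k, 0 < yk k := fun k => by rw [hyk]; positivity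
  have hyky : ∀ k, y ≤ yk k := fun k => by
    rw [hyk]
    exact le_mul_of_one_le_left hy.le (one_le_pow₀ (by norm_num))
  have hyk1 : ∀ k, k ≤ N → yk k ≤ 1 := by
    intro k hk
    rw [hyk]
    refine le_trans ?_ hN1'
    exact mul_le_mul_of_nonneg_right (pow_le_pow_right₀ (by norm_num) hk) hy.le
  have hex : ∀ k, ∃ (h : ℕ) (G : Set (AE.T d (2 * h + 1) → ℝ)), k ≤ N → 0 < h ∧
      4 / (h : ℝ) ^ 2 ≤ (yk k) ^ 2 ∧ MeasurableSet G ∧
      (Measure.pi fun _ : AE.T d (2 * h + 1) => μ).real Gᶜ ≤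
        K1 * Real.exp (-(c1 * ((2 ^ p) ^ k * x))) ∧
      ∀ V ∈ G, AE.Core.FlatE lam η (K / ((2 * h + 1 : ℕ) : ℝ) ^ 2) Es V := by
    intro k
    by_cases hk : k ≤ N
    swap
    · exact ⟨0, ∅, fun h => absurd h hk⟩
    obtain ⟨h, hh⟩ : ∃ h : ℕ, h = ⌈2 / yk k⌉₊ := ⟨_, rfl⟩
    have h2y : 2 ≤ 2 / yk k := by
      rw [le_div_iff₀ (hyk0 k)]
      have := hyk1 k hk
      linarith
    have hh1 : 2 / yk k ≤ h := by rw [hh]; exact Nat.le_ceil _
    have hh2 : (h : ℝ) < 2 / yk k + 1 := by rw [hh]; exact Nat.ceil_lt_add_one (by linarith)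
    have hh0 : (0 : ℝ) < h := by linarith
    have hL : ((2 * h + 1 : ℕ) : ℝ) ≤ 7 / yk k := by
      push_cast
      have e : 7 / yk k = 2 * (2 / yk k) + 3 * (1 / yk k) := by ring
      have e2 : 1 ≤ 1 / yk k := by
        rw [le_div_iff₀ (hyk0 k)]
        have := hyk1 k hk
        linarith
      rw [e]
      linarith
    have hL0 : (0 : ℝ) < ((2 * h + 1 : ℕ) : ℝ) := by positivity
    have hpow : lam ^ 2 * ((2 * h + 1 : ℕ) : ℝ) ^ p ≤ 49 / ((2 ^ p) ^ k * x) := by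
      have h7 : (7 : ℝ) ^ p ≤ 49 := by
        calc (7 : ℝ) ^ p ≤ 7 ^ 2 := pow_le_pow_right₀ (by norm_num) hp2
          _ = 49 := by norm_num
      have hykp : (yk k) ^ p = (2 ^ p) ^ k * y ^ p := by
        rw [hyk]
        show (2 ^ k * y) ^ p = (2 ^ p) ^ k * y ^ p
        rw [mul_pow, ← pow_mul, ← pow_mul, mul_comm k p]
      have h8 : ((2 * h + 1 : ℕ) : ℝ) ^ p ≤ 7 ^ p / (yk k) ^ p := by
        rw [← div_pow]
        exact pow_le_pow_left₀ hL0.le hL p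
      calc lam ^ 2 * ((2 * h + 1 : ℕ) : ℝ) ^ p ≤ lam ^ 2 * (7 ^ p / (yk k) ^ p) := by gcongr
        _ ≤ lam ^ 2 * (49 / (yk k) ^ p) := by
            have := pow_pos (hyk0 k) p
            gcongr
        _ = 49 / ((2 ^ p) ^ k * x) := by
            rw [hykp, hx]
            field_simp
    have hpk : (1 : ℝ) ≤ (2 ^ p) ^ k := one_le_pow₀ (one_le_pow₀ (by norm_num))
    have hcond : K * (lam ^ 2 * ((2 * h + 1 : ℕ) : ℝ) ^ p) ≤ 1 := by
      have h9 : 49 / ((2 ^ p) ^ k * x) ≤ 1 / K := by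
        rw [div_le_div_iff₀ (by positivity) hK0]
        have : 1 * x ≤ (2 ^ p) ^ k * x := mul_le_mul_of_nonneg_right hpk (by linarith)
        linarith
      calc K * (lam ^ 2 * ((2 * h + 1 : ℕ) : ℝ) ^ p) ≤ K * (1 / K) := by
            gcongr
            exact hpow.trans h9
        _ = 1 := by field_simp
    obtain ⟨G, hG, hP, hfl⟩ := hflat (2 * h + 1) hcond
    refine ⟨h, G, fun _ => ⟨by exact_mod_cast hh0, ?_, hG, ?_, hfl⟩⟩
    · rw [div_le_iff₀ (by positivity)]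
      have h3 : 2 ≤ yk k * h := by
        rw [div_le_iff₀ (hyk0 k)] at hh1
        linarith
      calc (4 : ℝ) = 2 ^ 2 := by norm_num
        _ ≤ (yk k * h) ^ 2 := pow_le_pow_left₀ (by norm_num) h3 2
        _ = _ := by ring
    · rw [probReal_compl_eq_one_sub hG]
      have h4 : K * Real.exp (-(1 / (K * (lam ^ 2 * ((2 * h + 1 : ℕ) : ℝ) ^ p)))) ≤
          K1 * Real.exp (-(c1 * ((2 ^ p) ^ k * x))) := by
        refine mul_le_mul hK1 (Real.exp_le_exp.2 (neg_le_neg ?_)) (Real.exp_pos _).le hK10.le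
        have h5 : c1 * ((2 ^ p) ^ k * x) ≤ 1 / (49 * K) * ((2 ^ p) ^ k * x) := by gcongr
        refine h5.trans ?_
        have h6 : 0 < lam ^ 2 * ((2 * h + 1 : ℕ) : ℝ) ^ p := by positivity
        rw [le_div_iff₀ (by positivity)]
        calc 1 / (49 * K) * ((2 ^ p) ^ k * x) * (K * (lam ^ 2 * ((2 * h + 1 : ℕ) : ℝ) ^ p)) ≤
              1 / (49 * K) * ((2 ^ p) ^ k * x) * (K * (49 / ((2 ^ p) ^ k * x))) := by gcongr
          _ = 1 := by field_simp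
      linarith
  choose hk Gk hGk using hex
  obtain ⟨B, hB⟩ : ∃ B : ℕ → Set (Zd d → ℝ), B = fun k => if k = 0 then B0 else
    if k ≤ N then {ω | VT (hk k) ω 0 ∉ Gk k} else ∅ := ⟨_, rfl⟩
  have hBm : ∀ k, MeasurableSet (B k) := by
    intro k
    rw [hB]
    by_cases h0 : k = 0
    · simp only [h0, if_true]; exact hB0
    · by_cases h1 : k ≤ N
      · simp only [h0, h1, if_true, if_false]
        exact (VT_meas (hk k) 0) (hGk k h1).2.2.1.compl
      · simp only [h0, h1, if_false]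
        exact MeasurableSet.empty
  have hBP : ∀ k, k ≤ N → (Measure.infinitePi fun _ : Zd d => μ).real (B k) ≤
      K1 * Real.exp (-(c1 * ((2 ^ p) ^ k * x))) := by
    intro k hkN
    rw [hB]
    by_cases h0 : k = 0
    · subst h0
      simp only [if_true, pow_zero, one_mul]
      exact hPB0
    · simp only [h0, hkN, if_true, if_false]
      obtain ⟨-, -, hm, hP, -⟩ := hGk k hkN
      refine le_trans (le_of_eq ?_) hP
      rw [← map_VT μ (hk k) 0, map_measureReal_apply (VT_meas (hk k) 0) hm.compl]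
      rfl
  obtain ⟨s, hs⟩ : ∃ s : ℕ → ℝ, s = fun k => if k = 0 then S0 else 16 * (C * (yk k) ^ d) := ⟨_, rfl⟩
  have hs0 : ∀ k, 0 ≤ s k := by
    intro k
    rw [hs]
    have := hyk0 k
    by_cases h0 : k = 0
    · simp only [h0, if_true]; exact hS0
    · simp only [h0, if_false]; positivity
  have hrp : ∀ z : ℝ, 0 < z → (z ^ 2) ^ ((d : ℝ) / 2) = z ^ d := by
    intro z hz
    rw [← Real.rpow_natCast z 2, ← Real.rpow_mul hz.le, ← Real.rpow_natCast z d]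
    congr 1
    push_cast
    ring
  have hmain := upper hμ hl.le hl1 hν a bb ha N s hs0 B hBm (by
    intro k hkN ω hbd hω m hm
    rw [hB] at hω
    rw [hs]
    by_cases h0 : k = 0
    · subst h0
      simp only [if_true] at hω ⊢
      exact hgood0 ω hbd hω m hm
    · simp only [h0, hkN, if_true, if_false] at hω ⊢
      have hω' : VT (hk k) ω 0 ∈ Gk k := by
        by_contra hc
        exact hω hc
      obtain ⟨g1, g2, g3, g4, g5⟩ := hGk k hkN
      have hgd := good_of hη (g5 _ hω')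
      have hykk : (yk k) ^ 2 ≤ 1 := pow_le_one₀ (hyk0 k).le (hyk1 k hkN)
      have h7 := mb hF (hk k) g1 lam Es ω hgd ((yk k) ^ 2) g2 hykk m hm
      rw [hrp _ (hyk0 k)] at h7
      have := hm.1
      refine le_trans (measureReal_mono (Set.Iic_subset_Iic.2 ?_)) h7
      have h8 : y ^ 2 ≤ (yk k) ^ 2 := pow_le_pow_left₀ hy.le (hyky k) 2
      linarith)
  refine hmain.trans ?_
  have hs00 : s 0 = S0 := by rw [hs]; simp
  rw [hs00]
  have hsum : ∑ k ∈ Finset.range N, s (k + 1) * (Measure.infinitePi fun _ : Zd d => μ).real (B k) ≤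
      16 * C * K1 * (768 * 2 ^ d / c1 ^ 4) * y ^ d * Real.exp (-(c1 * x / 2)) := by
    have h1 : ∀ k ∈ Finset.range N, s (k + 1) *
        (Measure.infinitePi fun _ : Zd d => μ).real (B k) ≤
        16 * C * K1 * y ^ d * ((2 ^ d) ^ (k + 1) * Real.exp (-(c1 * ((2 ^ p) ^ k * x)))) := by
      intro k hkN
      have hkN' : k ≤ N := (Finset.mem_range.1 hkN).le
      have h2 : s (k + 1) = 16 * (C * ((2 ^ d) ^ (k + 1) * y ^ d)) := by
        rw [hs, hyk]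
        simp only [Nat.succ_ne_zero, if_false]
        rw [mul_pow, ← pow_mul, ← pow_mul, mul_comm (k + 1) d]
      calc s (k + 1) * (Measure.infinitePi fun _ : Zd d => μ).real (B k) ≤
            s (k + 1) * (K1 * Real.exp (-(c1 * ((2 ^ p) ^ k * x)))) :=
            mul_le_mul_of_nonneg_left (hBP k hkN') (hs0 _)
        _ = _ := by rw [h2]; ring
    refine (Finset.sum_le_sum h1).trans ?_
    rw [← Finset.mul_sum]
    have hr2 : (2 : ℝ) ≤ 2 ^ p := by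
      calc (2 : ℝ) = 2 ^ 1 := by norm_num
        _ ≤ 2 ^ p := pow_le_pow_right₀ (by norm_num) hp
    have hwr : (2 : ℝ) ^ d ≤ (2 ^ p) ^ 3 := by
      rw [← pow_mul]
      exact pow_le_pow_right₀ (by norm_num) (by omega)
    have h3 := gs (2 ^ p) (2 ^ d) c1 x hr2 (by positivity) hwr hc1 hx1' N
    calc 16 * C * K1 * y ^ d * ∑ k ∈ Finset.range N,
          (2 ^ d) ^ (k + 1) * Real.exp (-(c1 * ((2 ^ p) ^ k * x))) ≤
          16 * C * K1 * y ^ d * ((768 * 2 ^ d / c1 ^ 4) * Real.exp (-(c1 * x / 2))) := by gcongr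
      _ = _ := by ring
  have hlast : (Measure.infinitePi fun _ : Zd d => μ).real (B N) ≤
      K1 * (6 * (8 / c1) ^ 3) * y ^ d * Real.exp (-(c1 * x / 2)) := by
    refine (hBP N le_rfl).trans ?_
    obtain ⟨z, hz⟩ : ∃ z, z = c1 * ((2 ^ p) ^ N * x) / 2 := ⟨_, rfl⟩
    have e1 : Real.exp (-(c1 * ((2 ^ p) ^ N * x))) = Real.exp (-z) * Real.exp (-z) := by
      rw [← Real.exp_add, hz]
      congr 1
      ring
    have hpN : (1 : ℝ) ≤ (2 ^ p) ^ N := one_le_pow₀ (one_le_pow₀ (by norm_num))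
    have hz2 : c1 * x / 2 ≤ z := by
      rw [hz]
      have : 1 * x ≤ (2 ^ p) ^ N * x := mul_le_mul_of_nonneg_right hpN (by linarith)
      have h2 : c1 * (1 * x) ≤ c1 * ((2 ^ p) ^ N * x) := mul_le_mul_of_nonneg_left this hc1.le
      linarith
    have hhalf : (1 : ℝ) / 4 ≤ (2 ^ p) ^ N * y ^ p := by
      have h1 : (1 : ℝ) / 2 ≤ 2 ^ N * y := by
        rw [pow_succ] at hN2'
        linarith
      have h2 : ((1 : ℝ) / 2) ^ p ≤ (2 ^ N * y) ^ p := pow_le_pow_left₀ (by norm_num) h1 p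
      have h3 : ((1 : ℝ) / 4) ≤ (1 / 2) ^ p := by
        calc ((1 : ℝ) / 4) = (1 / 2) ^ 2 := by norm_num
          _ ≤ (1 / 2) ^ p := pow_le_pow_of_le_one (by norm_num) (by norm_num) hp2
      calc (1 : ℝ) / 4 ≤ (2 ^ N * y) ^ p := h3.trans h2
        _ = (2 ^ p) ^ N * y ^ p := by rw [mul_pow, ← pow_mul, ← pow_mul, mul_comm N p]
    have hz3 : c1 / (8 * lam ^ 2) ≤ z := by
      rw [hz, hx, div_le_div_iff₀ (by positivity) (by norm_num)]
      have h1 : c1 * ((2 ^ p) ^ N * (y ^ p / lam ^ 2)) * (8 * lam ^ 2) =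
          c1 * (8 * ((2 ^ p) ^ N * y ^ p)) := by
        field_simp
      rw [h1]
      have : c1 * (8 * (1 / 4)) ≤ c1 * (8 * ((2 ^ p) ^ N * y ^ p)) := by gcongr
      linarith
    have hz0 : 0 < c1 / (8 * lam ^ 2) := by positivity
    have h3 : Real.exp (-z) ≤ Real.exp (-(c1 * x / 2)) := Real.exp_le_exp.2 (neg_le_neg hz2)
    have h4 : Real.exp (-z) ≤ 6 * (8 / c1) ^ 3 * y ^ d := by
      have h5 : Real.exp (-z) ≤ Real.exp (-(c1 / (8 * lam ^ 2))) :=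
        Real.exp_le_exp.2 (neg_le_neg hz3)
      refine h5.trans ((exp3 _ hz0).trans ?_)
      have h6 : lam ^ 2 ≤ y := by
        have h7 : y ^ p ≤ y := by
          calc y ^ p ≤ y ^ 1 := pow_le_pow_of_le_one hy.le hy1 hp
            _ = y := pow_one y
        have h8 : lam ^ 2 ≤ 49 * K * lam ^ 2 := le_mul_of_one_le_left hl2.le (by linarith)
        linarith
      have h7 : (lam ^ 2) ^ 3 ≤ y ^ d := by
        calc (lam ^ 2) ^ 3 ≤ y ^ 3 := pow_le_pow_left₀ hl2.le h6 3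
          _ ≤ y ^ d := pow_le_pow_of_le_one hy.le hy1 hd3
      calc 6 / (c1 / (8 * lam ^ 2)) ^ 3 = 6 * (8 / c1) ^ 3 * (lam ^ 2) ^ 3 := by
            field_simp
        _ ≤ 6 * (8 / c1) ^ 3 * y ^ d := by gcongr
    rw [e1]
    calc K1 * (Real.exp (-z) * Real.exp (-z)) ≤
          K1 * ((6 * (8 / c1) ^ 3 * y ^ d) * Real.exp (-(c1 * x / 2))) := by gcongr
      _ = _ := by ring
  have e : S0 + (16 * C * K1 * (768 * 2 ^ d / c1 ^ 4) + K1 * (6 * (8 / c1) ^ 3)) * y ^ d *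
      Real.exp (-(c1 * x / 2)) = S0 +
      16 * C * K1 * (768 * 2 ^ d / c1 ^ 4) * y ^ d * Real.exp (-(c1 * x / 2)) +
      K1 * (6 * (8 / c1) ^ 3) * y ^ d * Real.exp (-(c1 * x / 2)) := by ring
  rw [e]
  linarith

end Pool.Agent.K3h4.DS.As
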