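import Pool.Agent.K3h4.DS.As

/-! Upper and lower bounds for the density of states near the effective edge. -/

set_option autoImplicit false
set_option linter.unusedSectionVars false
set_option linter.unusedVariables false

open scoped BigOperators ENNReal
open MeasureTheory Filter Topology

namespace Pool.Agent.K3h4.DS.At

open Pool.Agent.H4R2
open Pool.Agent.H4R2.AE (T Hop)
open Pool.Agent.H541R3.AND.Trans
open Pool.Agent.H541R3.AND.Deloc (q GoodAt)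
open Pool.Agent.K3h4.AN.Dl (pol QL ql_symm pol_moment pol_box)
open Pool.Agent.K3h4.DS.Mo
open Pool.Agent.K3h4.DS.Lo (map_VT VT_meas lower)
open Pool.Agent.K3h4.DS.Fl (fil2)
open Pool.Agent.K3h4.DS.As
open Pool.Agent.K3h4.DS.Ta (Tr tr_meas plain shift)
open Pool.Agent.K3h4.DS.Tb (e0)

theorem scale (d p : ℕ) (hp2 : p ≤ 2) (K : ℝ) (hK : 1 ≤ K) (η : ℝ)
    (μ : Measure ℝ) [IsProbabilityMeasure μ] (lam : ℝ) (hl : 0 < lam) (Es : ℝ)
    (hflat : Flats d p μ lam η Es K) (y : ℝ) (hy : 0 < y) (hy1 : y ≤ 1)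
    (hyK : 49 * K * lam ^ 2 ≤ y ^ p) :
    ∃ (h : ℕ) (G : Set (AE.T d (2 * h + 1) → ℝ)), 0 < h ∧ (h : ℝ) ≤ 3 / y ∧
      4 / (h : ℝ) ^ 2 ≤ y ^ 2 ∧ MeasurableSet G ∧
      (Measure.pi fun _ : AE.T d (2 * h + 1) => μ).real Gᶜ ≤
        K * Real.exp (-(1 / (49 * K) * (y ^ p / lam ^ 2))) ∧
      ∀ V ∈ G, AE.Core.FlatE lam η (K / ((2 * h + 1 : ℕ) : ℝ) ^ 2) Es V := by
  have hK0 : 0 < K := by linarith
  have hl2 : 0 < lam ^ 2 := by positivity
  obtain ⟨x, hx⟩ : ∃ x, x = y ^ p / lam ^ 2 := ⟨_, rfl⟩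
  have hx1 : 49 * K ≤ x := by rw [hx, le_div_iff₀ hl2]; exact hyK
  rw [← hx]
  obtain ⟨h, hh⟩ : ∃ h : ℕ, h = ⌈2 / y⌉₊ := ⟨_, rfl⟩
  have h2y : 2 ≤ 2 / y := by rw [le_div_iff₀ hy]; linarith
  have hh1 : 2 / y ≤ h := by rw [hh]; exact Nat.le_ceil _
  have hh2 : (h : ℝ) < 2 / y + 1 := by rw [hh]; exact Nat.ceil_lt_add_one (by linarith)
  have hh0 : (0 : ℝ) < h := by linarith
  have e2 : 1 ≤ 1 / y := by rw [le_div_iff₀ hy]; linarith
  have hL : ((2 * h + 1 : ℕ) : ℝ) ≤ 7 / y := by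
    push_cast
    have e : 7 / y = 2 * (2 / y) + 3 * (1 / y) := by ring
    rw [e]
    linarith
  have hL0 : (0 : ℝ) < ((2 * h + 1 : ℕ) : ℝ) := by positivity
  have hpow : lam ^ 2 * ((2 * h + 1 : ℕ) : ℝ) ^ p ≤ 49 / x := by
    have h7 : (7 : ℝ) ^ p ≤ 49 := by
      calc (7 : ℝ) ^ p ≤ 7 ^ 2 := pow_le_pow_right₀ (by norm_num) hp2
        _ = 49 := by norm_num
    have h8 : ((2 * h + 1 : ℕ) : ℝ) ^ p ≤ 7 ^ p / y ^ p := by
      rw [← div_pow]
      exact pow_le_pow_left₀ hL0.le hL p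
    calc lam ^ 2 * ((2 * h + 1 : ℕ) : ℝ) ^ p ≤ lam ^ 2 * (7 ^ p / y ^ p) := by gcongr
      _ ≤ lam ^ 2 * (49 / y ^ p) := by
          have := pow_pos hy p
          gcongr
      _ = 49 / x := by
          rw [hx]
          field_simp
  have hcond : K * (lam ^ 2 * ((2 * h + 1 : ℕ) : ℝ) ^ p) ≤ 1 := by
    have h9 : 49 / x ≤ 1 / K := by
      rw [div_le_div_iff₀ (by linarith) hK0]
      linarith
    calc K * (lam ^ 2 * ((2 * h + 1 : ℕ) : ℝ) ^ p) ≤ K * (1 / K) := by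
          gcongr
          exact hpow.trans h9
      _ = 1 := by field_simp
  obtain ⟨G, hG, hP, hfl⟩ := hflat (2 * h + 1) hcond
  refine ⟨h, G, by exact_mod_cast hh0, ?_, ?_, hG, ?_, hfl⟩
  · have e : 3 / y = 2 / y + 1 / y := by ring
    rw [e]; linarith
  · rw [div_le_iff₀ (by positivity)]
    have h3 : 2 ≤ y * h := by
      rw [div_le_iff₀ hy] at hh1
      linarith
    calc (4 : ℝ) = 2 ^ 2 := by norm_num
      _ ≤ (y * h) ^ 2 := pow_le_pow_left₀ (by norm_num) h3 2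
      _ = _ := by ring
  · rw [probReal_compl_eq_one_sub hG]
    have h4 : K * Real.exp (-(1 / (K * (lam ^ 2 * ((2 * h + 1 : ℕ) : ℝ) ^ p)))) ≤
        K * Real.exp (-(1 / (49 * K) * x)) := by
      refine mul_le_mul_of_nonneg_left (Real.exp_le_exp.2 (neg_le_neg ?_)) hK0.le
      have h6 : 0 < lam ^ 2 * ((2 * h + 1 : ℕ) : ℝ) ^ p := by positivity
      rw [le_div_iff₀ (by positivity)]
      calc 1 / (49 * K) * x * (K * (lam ^ 2 * ((2 * h + 1 : ℕ) : ℝ) ^ p)) ≤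
            1 / (49 * K) * x * (K * (49 / x)) := by
            have : 0 < x := by linarith
            gcongr
        _ = 1 := by
            have : 0 < x := by linarith
            field_simp
    linarith

theorem bad_eq {d : ℕ} (μ : Measure ℝ) [IsProbabilityMeasure μ] (h : ℕ)
    (G : Set (AE.T d (2 * h + 1) → ℝ)) (hG : MeasurableSet G) :
    (Measure.infinitePi fun _ : Zd d => μ).real {ω | VT h ω 0 ∉ G} =
      (Measure.pi fun _ : AE.T d (2 * h + 1) => μ).real Gᶜ := by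
  rw [← map_VT μ h 0, map_measureReal_apply (VT_meas h 0) hG.compl]
  rfl

theorem rp (d : ℕ) (z : ℝ) (hz : 0 < z) : (z ^ 2) ^ ((d : ℝ) / 2) = z ^ d := by
  rw [← Real.rpow_natCast z 2, ← Real.rpow_mul hz.le, ← Real.rpow_natCast z d]
  congr 1
  push_cast
  ring

/-- above the edge -/
theorem upA (d p : ℕ) (hd : 1 ≤ d) (hdp : d ≤ 3 * p) (hd3 : d ≤ 3) (hp : 1 ≤ p) (hp2 : p ≤ 2)
    (K : ℝ) (hK : 1 ≤ K) (b C : ℝ) (hC : 0 < C) (hF : Filt d K b C) (η : ℝ) (hη : η ≤ 1) :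
    ∃ K3 : ℝ, 0 < K3 ∧ ∀ (μ : Measure ℝ) [IsProbabilityMeasure μ], μ (Set.Icc (-1) 1)ᶜ = 0 →
    ∀ lam : ℝ, 0 < lam → lam ≤ 1 → ∀ Es : ℝ, Flats d p μ lam η Es K →
    ∀ ν : Measure ℝ, Dos d μ lam ν → ∀ y : ℝ, 0 < y → y ≤ 1 → 49 * K * lam ^ 2 ≤ y ^ p →
      ν.real (Set.Iic (Es + y ^ 2)) ≤ K3 * y ^ d := by
  have hK0 : 0 < K := by linarith
  obtain ⟨K2, hK2, hm⟩ := multi d p hd hdp hd3 hp hp2 K hK b C hC hF η hη K (1 / (49 * K)) le_rfl
    (by positivity) le_rfl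
  refine ⟨(16 * C + K2) * 2 ^ d + 2 ^ d, by positivity, ?_⟩
  intro μ _ hμ lam hl hl1 Es hflat ν hν y hy hy1 hyK
  have := hν.1
  rcases le_or_gt y (1 / 2) with h2 | h2
  · have hy' : 0 < 2 * y := by linarith
    have hy1' : 2 * y ≤ 1 := by linarith
    have hyK' : 49 * K * lam ^ 2 ≤ (2 * y) ^ p :=
      hyK.trans (pow_le_pow_left₀ hy.le (by linarith) p)
    obtain ⟨h, G, h1, h1', h3, hG, hP, hfl⟩ := scale d p hp2 K hK η μ lam hl Es hflat (2 * y) hy'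
      hy1' hyK'
    have hb := hm μ hμ lam hl hl1 Es hflat ν hν (2 * y) hy' hy1' hyK' (16 * (C * (2 * y) ^ d))
      (by positivity) (Es + (2 * y) ^ 2) (Es + y ^ 2) le_rfl (by nlinarith)
      {ω | VT h ω 0 ∉ G} ((VT_meas h 0) hG.compl) (by rw [bad_eq μ h G hG]; exact hP) (by
        intro ω _ hω m hmm
        have hω' : VT h ω 0 ∈ G := by
          by_contra hc
          exact hω hc
        have h7 := mb hF h h1 lam Es ω (good_of hη (hfl _ hω')) ((2 * y) ^ 2) h3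
          (pow_le_one₀ hy'.le hy1') m hmm
        rwa [rp d _ hy'] at h7)
    refine hb.trans ?_
    have hexp : Real.exp (-(1 / (49 * K) * ((2 * y) ^ p / lam ^ 2) / 2)) ≤ 1 := by
      rw [Real.exp_le_one_iff]
      have : 0 ≤ 1 / (49 * K) * ((2 * y) ^ p / lam ^ 2) / 2 := by positivity
      linarith
    calc 16 * (C * (2 * y) ^ d) + K2 * (2 * y) ^ d *
          Real.exp (-(1 / (49 * K) * ((2 * y) ^ p / lam ^ 2) / 2)) ≤
          16 * (C * (2 * y) ^ d) + K2 * (2 * y) ^ d * 1 := by gcongr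
      _ = ((16 * C + K2) * 2 ^ d) * y ^ d := by rw [mul_pow]; ring
      _ ≤ ((16 * C + K2) * 2 ^ d + 2 ^ d) * y ^ d := by
          gcongr
          have : (0 : ℝ) < 2 ^ d := by positivity
          linarith
  · have h3 : ν.real (Set.Iic (Es + y ^ 2)) ≤ 1 := by
      have := measureReal_mono (μ := ν) (Set.subset_univ (Set.Iic (Es + y ^ 2)))
      rwa [dos_mass hν] at this
    have h4 : 1 ≤ 2 ^ d * y ^ d := by
      rw [← mul_pow]
      exact one_le_pow₀ (by linarith)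
    refine h3.trans (h4.trans ?_)
    have h5 : (0 : ℝ) ≤ (16 * C + K2) * 2 ^ d * y ^ d := by positivity
    linarith

/-- lower bound of the spectrum of large tori -/
def Lows (d p : ℕ) (μ : Measure ℝ) (lam Es K : ℝ) : Prop :=
  ∀ y : ℝ, 0 < y → y ≤ 1 → K * lam ^ 2 ≤ y ^ p → ∀ (L : ℕ) [NeZero L], K ≤ y * L →
    LO.TorusBound d L μ lam (Es - y ^ 2)
      (K * (y * L) ^ d * Real.exp (-(y ^ p / (K * lam ^ 2))))

theorem xd (d : ℕ) (hd3 : d ≤ 3) (c x : ℝ) (hc : 0 < c) (hx : 1 ≤ x) :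
    x ^ d * Real.exp (-(c * x)) ≤ 6 * (2 / c) ^ 3 * Real.exp (-(c / 2 * x)) := by
  have e1 : Real.exp (-(c * x)) = Real.exp (-(c / 2 * x)) * Real.exp (-(c / 2 * x)) := by
    rw [← Real.exp_add]
    congr 1
    ring
  have hx0 : 0 < x := by linarith
  have h1 := exp3 (c / 2 * x) (by positivity)
  have h2 : x ^ d ≤ x ^ 3 := pow_le_pow_right₀ hx hd3
  rw [e1]
  calc x ^ d * (Real.exp (-(c / 2 * x)) * Real.exp (-(c / 2 * x))) ≤
        x ^ 3 * (6 / (c / 2 * x) ^ 3 * Real.exp (-(c / 2 * x))) := by gcongr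
    _ = _ := by field_simp

/-- below the edge -/
theorem upB (d p : ℕ) (hd : 1 ≤ d) (hdp : d ≤ 3 * p) (hd3 : d ≤ 3) (hp : 1 ≤ p) (hp2 : p ≤ 2)
    (K : ℝ) (hK : 1 ≤ K) (b C : ℝ) (hb : b ≠ 0) (hC : 0 < C) (hF : Filt d K b C) (η : ℝ)
    (hη : η ≤ 1) :
    ∃ K3 : ℝ, 1 ≤ K3 ∧ ∀ (μ : Measure ℝ) [IsProbabilityMeasure μ], μ (Set.Icc (-1) 1)ᶜ = 0 →
    ∀ lam : ℝ, 0 < lam → lam ≤ 1 / 2 → ∀ Es : ℝ, |Es| ≤ lam → Flats d p μ lam η Es K →
    Lows d p μ lam Es K →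
    ∀ ν : Measure ℝ, Dos d μ lam ν → ∀ y : ℝ, 0 < y → y ≤ 1 → 49 * K * lam ^ 2 ≤ y ^ p →
      ν.real (Set.Iic (Es - y ^ 2)) ≤ K3 * y ^ d * Real.exp (-(y ^ p / (K3 * lam ^ 2))) := by
  have hK0 : 0 < K := by linarith
  obtain ⟨c1, hc1⟩ : ∃ z : ℝ, z = 1 / (49 * K) := ⟨_, rfl⟩
  have hc10 : 0 < c1 := by rw [hc1]; positivity
  -- probability of the bad event at the first scale
  obtain ⟨cL, hcL⟩ : ∃ z : ℝ, z = 1 / (4 * K) := ⟨_, rfl⟩
  have hcL0 : 0 < cL := by rw [hcL]; positivity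
  obtain ⟨A1, hA1⟩ : ∃ z : ℝ, z = K * 6 ^ d * (6 * (2 / cL) ^ 3) := ⟨_, rfl⟩
  have hA10 : 0 < A1 := by rw [hA1]; positivity
  obtain ⟨K1, hK1⟩ : ∃ z : ℝ, z = K + A1 := ⟨_, rfl⟩
  have hK1K : K ≤ K1 := by rw [hK1]; linarith
  obtain ⟨c2, hc2⟩ : ∃ z : ℝ, z = min c1 (cL / 2) := ⟨_, rfl⟩
  have hc20 : 0 < c2 := by rw [hc2]; positivity
  have hc21 : c2 ≤ c1 := by rw [hc2]; exact min_le_left _ _
  have hc2L : c2 ≤ cL / 2 := by rw [hc2]; exact min_le_right _ _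
  obtain ⟨K2, hK2, hm⟩ := multi d p hd hdp hd3 hp hp2 K hK b C hC hF η hη K1 c2 hK1K hc20
    (by rw [← hc1]; exact hc21)
  obtain ⟨K3, hK3⟩ : ∃ z : ℝ, z = 64 * C + K2 + 2 / c2 + 3 := ⟨_, rfl⟩
  have hK31 : 3 ≤ K3 := by
    rw [hK3]
    have : 0 < 64 * C + K2 + 2 / c2 := by positivity
    linarith
  refine ⟨K3, by linarith, ?_⟩
  intro μ _ hμ lam hl hl2' Es hEs hflat hlow ν hν y hy hy1 hyK
  have hl1 : lam ≤ 1 := by linarith
  have hl2 : 0 < lam ^ 2 := by positivity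
  have := hν.1
  obtain ⟨x, hx⟩ : ∃ x, x = y ^ p / lam ^ 2 := ⟨_, rfl⟩
  have hx1 : 49 * K ≤ x := by rw [hx, le_div_iff₀ hl2]; exact hyK
  have hx1' : 1 ≤ x := by linarith
  have hx0 : 0 < x := by linarith
  obtain ⟨h, G, h1, h1', h3, hG, hP, hfl⟩ := scale d p hp2 K hK η μ lam hl Es hflat y hy hy1 hyK
  -- the large torus
  obtain ⟨n, hn⟩ : ∃ n : ℕ, n = ⌈x / y⌉₊ := ⟨_, rfl⟩
  have hxy : 1 ≤ x / y := by rw [le_div_iff₀ hy]; linarith
  have hn1 : x / y ≤ n := by rw [hn]; exact Nat.le_ceil _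
  have hn2 : (n : ℝ) < x / y + 1 := by rw [hn]; exact Nat.ceil_lt_add_one (by linarith)
  have hny : x ≤ n * y := by rwa [div_le_iff₀ hy] at hn1
  obtain ⟨H, hH⟩ : ∃ H : ℕ, H = h + n := ⟨_, rfl⟩
  have hHy : (y / 2) * ((2 * H + 1 : ℕ) : ℝ) ≤ 6 * x := by
    rw [hH]
    push_cast
    have e1 : (h : ℝ) * y ≤ 3 := by rwa [le_div_iff₀ hy] at h1'
    have e2 : (n : ℝ) * y ≤ x + y := by
      have h9 : (n : ℝ) * y ≤ (x / y + 1) * y := by gcongr
      have h10 : (x / y + 1) * y = x + y := by field_simp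
      linarith
    have e3 : y / 2 * (2 * ((h : ℝ) + n) + 1) = h * y + n * y + y / 2 := by ring
    rw [e3]
    linarith
  have hHy0 : K ≤ (y / 2) * ((2 * H + 1 : ℕ) : ℝ) := by
    rw [hH]
    push_cast
    have e3 : y / 2 * (2 * ((h : ℝ) + n) + 1) = h * y + n * y + y / 2 := by ring
    have e4 : 0 ≤ (h : ℝ) * y := by positivity
    rw [e3]
    linarith
  have hy2p : y ^ p / 4 ≤ (y / 2) ^ p := by
    rw [div_pow]
    have h9 : (2 : ℝ) ^ p ≤ 4 := by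
      calc (2 : ℝ) ^ p ≤ 2 ^ 2 := pow_le_pow_right₀ (by norm_num) hp2
        _ = 4 := by norm_num
    have : 0 < y ^ p := by positivity
    gcongr
  have hyKL : K * lam ^ 2 ≤ (y / 2) ^ p := by
    refine le_trans ?_ hy2p
    have : 0 < K * lam ^ 2 := by positivity
    linarith
  obtain ⟨G', hG', hP', hfb⟩ := hlow (y / 2) (by linarith) (by linarith) hyKL (2 * H + 1) hHy0
  have hPL : K * ((y / 2) * ((2 * H + 1 : ℕ) : ℝ)) ^ d *
      Real.exp (-((y / 2) ^ p / (K * lam ^ 2))) ≤ A1 * Real.exp (-(cL / 2 * x)) := by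
    have e1 : cL * x ≤ (y / 2) ^ p / (K * lam ^ 2) := by
      rw [hcL, hx, le_div_iff₀ (by positivity)]
      calc 1 / (4 * K) * (y ^ p / lam ^ 2) * (K * lam ^ 2) = y ^ p / 4 := by field_simp
        _ ≤ _ := hy2p
    calc K * ((y / 2) * ((2 * H + 1 : ℕ) : ℝ)) ^ d * Real.exp (-((y / 2) ^ p / (K * lam ^ 2))) ≤
          K * (6 * x) ^ d * Real.exp (-(cL * x)) := by gcongr
      _ = K * 6 ^ d * (x ^ d * Real.exp (-(cL * x))) := by rw [mul_pow]; ring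
      _ ≤ K * 6 ^ d * (6 * (2 / cL) ^ 3 * Real.exp (-(cL / 2 * x))) :=
          mul_le_mul_of_nonneg_left (xd d hd3 cL x hcL0 hx1') (by positivity)
      _ = _ := by rw [hA1]; ring
  obtain ⟨B0, hB0⟩ : ∃ B0 : Set (Zd d → ℝ), B0 = {ω | VT h ω 0 ∉ G} ∪ {ω | VT H ω 0 ∉ G'} :=
    ⟨_, rfl⟩
  have hB0m : MeasurableSet B0 := by
    rw [hB0]
    exact ((VT_meas h 0) hG.compl).union ((VT_meas H 0) hG'.compl)
  have hB0P : (Measure.infinitePi fun _ : Zd d => μ).real B0 ≤ K1 * Real.exp (-(c2 * x)) := by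
    rw [hB0]
    refine (measureReal_union_le _ _).trans ?_
    rw [bad_eq μ h G hG, bad_eq μ H G' hG']
    have q1 : (Measure.pi fun _ : AE.T d (2 * h + 1) => μ).real Gᶜ ≤ K * Real.exp (-(c2 * x)) := by
      rw [← hc1, ← hx] at hP
      refine hP.trans ?_
      gcongr
    have q2 : (Measure.pi fun _ : AE.T d (2 * H + 1) => μ).real G'ᶜ ≤
        A1 * Real.exp (-(c2 * x)) := by
      rw [probReal_compl_eq_one_sub hG']
      have q3 : A1 * Real.exp (-(cL / 2 * x)) ≤ A1 * Real.exp (-(c2 * x)) := by gcongr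
      linarith
    rw [hK1, add_mul]
    exact add_le_add q1 q2
  have hEs1 := abs_le.1 hEs
  have hb2 := hm μ hμ lam hl hl1 Es hflat ν hν y hy hy1 hyK
    (64 * C * y ^ d * Real.exp (-(x / 3))) (by positivity) (Es - y ^ 2 / 2) (Es - y ^ 2)
    (by nlinarith [sq_nonneg y]) (by nlinarith [sq_pos_of_pos hy]) B0 hB0m
    (by rw [← hx]; exact hB0P) (by
      intro ω hbd hω m hmm
      rw [hB0] at hω
      have hω1 : VT h ω 0 ∈ G := by
        by_contra hc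
        exact hω (Or.inl hc)
      have hω2 : VT H ω 0 ∈ G' := by
        by_contra hc
        exact hω (Or.inr hc)
      obtain ⟨c0, P, p1, p2, p3⟩ := hF h lam Es ω 0 h1 (good_of hη (hfl _ hω1)) (y ^ 2) h3
        (pow_le_one₀ hy.le hy1)
      rw [rp d y hy] at p2
      have hy41 : y ^ 2 ≤ 1 := pow_le_one₀ hy.le hy1
      have hy40 : 0 < y ^ 2 := by positivity
      have ha1 : |Es - (y / 2) ^ 2| ≤ 1 := by
        rw [abs_le]
        constructor <;> nlinarith [hEs1.1, hEs1.2]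
      have hfil := fil2 hd lam ω hbd c0 b hb H h n P p1 (by omega) (C * y ^ d) p2
        (Es - (y / 2) ^ 2) (y ^ 2 / 4) ha1 (by positivity) (by linarith)
        (fun f => hfb _ hω2 f) (1 / 16) (by norm_num) (fun E hE => by
          have h9 := p3 E (by nlinarith)
          nlinarith) m hmm
      have e9 : Es - (y / 2) ^ 2 - y ^ 2 / 4 = Es - y ^ 2 / 2 := by ring
      rw [e9] at hfil
      -- the exponent
      have hW : 4 * (d : ℝ) + 1 - (Es - (y / 2) ^ 2) ≤ 14 := by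
        have hd3' : (d : ℝ) ≤ 3 := by exact_mod_cast hd3
        nlinarith [hEs1.1]
      have hd1' : (1 : ℝ) ≤ d := by exact_mod_cast hd
      have hW0 : 0 < 4 * (d : ℝ) + 1 - (Es - (y / 2) ^ 2) := by nlinarith [(abs_le.1 ha1).2]
      have hs6 : y / 6 ≤ Real.sqrt (2 * (y ^ 2 / 4) / (4 * d + 1 - (Es - (y / 2) ^ 2))) := by
        apply Real.le_sqrt_of_sq_le
        rw [le_div_iff₀ hW0]
        nlinarith
      have hexp : Real.exp (-(2 * (n * Real.sqrt (2 * (y ^ 2 / 4) /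
          (4 * d + 1 - (Es - (y / 2) ^ 2)))))) ≤ Real.exp (-(x / 3)) := by
        apply Real.exp_le_exp.2
        apply neg_le_neg
        have h9 : (n : ℝ) * (y / 6) ≤ n * Real.sqrt (2 * (y ^ 2 / 4) /
          (4 * d + 1 - (Es - (y / 2) ^ 2))) := mul_le_mul_of_nonneg_left hs6 (Nat.cast_nonneg n)
        linarith
      have hfin : m.real (Set.Iic (Es - y ^ 2 / 2)) * (1 / 16) ≤
          4 * (C * y ^ d) * Real.exp (-(x / 3)) := by
        refine hfil.trans ?_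
        exact mul_le_mul_of_nonneg_left hexp (by positivity)
      linarith)
  refine hb2.trans ?_
  rw [← hx]
  have e0 : y ^ p / (K3 * lam ^ 2) = x / K3 := by rw [hx]; field_simp
  rw [e0]
  have q1 : Real.exp (-(x / 3)) ≤ Real.exp (-(x / K3)) := by
    apply Real.exp_le_exp.2
    apply neg_le_neg
    gcongr
  have q2 : Real.exp (-(c2 * x / 2)) ≤ Real.exp (-(x / K3)) := by
    apply Real.exp_le_exp.2
    apply neg_le_neg
    rw [div_le_div_iff₀ (by linarith) (by norm_num)]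
    have q3 : 2 ≤ c2 * K3 := by
      rw [hK3]
      have : c2 * (2 / c2) = 2 := by field_simp
      have q4 : 0 < c2 * (64 * C + K2 + 3) := by positivity
      have q5 : c2 * (64 * C + K2 + 2 / c2 + 3) = c2 * (64 * C + K2 + 3) + c2 * (2 / c2) := by ring
      linarith
    calc x * 2 ≤ x * (c2 * K3) := by gcongr
      _ = c2 * x * K3 := by ring
  calc 64 * C * y ^ d * Real.exp (-(x / 3)) + K2 * y ^ d * Real.exp (-(c2 * x / 2)) ≤
        64 * C * y ^ d * Real.exp (-(x / K3)) + K2 * y ^ d * Real.exp (-(x / K3)) := by gcongr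
    _ = (64 * C + K2) * y ^ d * Real.exp (-(x / K3)) := by ring
    _ ≤ K3 * y ^ d * Real.exp (-(x / K3)) := by
        gcongr
        rw [hK3]
        have : 0 < 2 / c2 := by positivity
        linarith

end Pool.Agent.K3h4.DS.At
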