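import Pool.Agent.K3h4.DS.As

/-! Lower bounds for the density of states near the effective edge. -/

set_option autoImplicit false
set_option linter.unusedSectionVars false
set_option linter.unusedVariables false

open scoped BigOperators ENNReal
open MeasureTheory Filter Topology

namespace Pool.Agent.K3h4.DS.Au

open Pool.Agent.H4R2
open Pool.Agent.H4R2.AE (T Hop)
open Pool.Agent.H541R3.AND.Trans
open Pool.Agent.K3h4.DS.Mo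
open Pool.Agent.K3h4.DS.Lo (map_VT VT_meas lower)
open Pool.Agent.K3h4.DS.As (Flats)
open Pool.Agent.K3h4.DS.Ta (Tr tr_meas plain shift)
open Pool.Agent.K3h4.DS.Tb (e0)

/-- a flat torus of odd side of order `1 / y`, with probability close to one -/
theorem flat_odd (d p : ℕ) (hd : 1 ≤ d) (hp2 : p ≤ 2) (K : ℝ) (hK : 1 ≤ K) :
    ∃ K4 : ℝ, 1 ≤ K4 ∧ ∀ (η : ℝ) (μ : Measure ℝ) [IsProbabilityMeasure μ] (lam : ℝ), 0 < lam →
      ∀ Es : ℝ, Flats d p μ lam η Es K → ∀ y : ℝ, 0 < y → y ≤ 1 → K4 * lam ^ 2 ≤ y ^ p →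
      ∃ (m : ℕ) (G : Set (AE.T d (2 * m + 1) → ℝ)), 4 ≤ 2 * m + 1 ∧
        1 ≤ y * ((2 * m + 1 : ℕ) : ℝ) ∧
        y * ((2 * m + 1 : ℕ) : ℝ) ≤ K4 ∧
        (K + 1024 * d) / ((2 * m + 1 : ℕ) : ℝ) ^ 2 ≤ y ^ 2 / 4 ∧
        MeasurableSet G ∧ 7 / 8 ≤ (Measure.pi fun _ : AE.T d (2 * m + 1) => μ).real G ∧
        ∀ V ∈ G, AE.Core.FlatE lam η (K / ((2 * m + 1 : ℕ) : ℝ) ^ 2) Es V := by
  have hK0 : 0 < K := by linarith
  obtain ⟨s, hs⟩ : ∃ z : ℝ, z = K + 1024 * d + 1 := ⟨_, rfl⟩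
  have hd0 : (0 : ℝ) ≤ d := Nat.cast_nonneg d
  have hs1 : 2 ≤ s := by rw [hs]; linarith
  have hs0 : 0 < s := by linarith
  have hlog : 0 ≤ Real.log (8 * K) := Real.log_nonneg (by linarith)
  obtain ⟨K4, hK4⟩ : ∃ z : ℝ, z = K * (5 * s) ^ 2 * (1 + Real.log (8 * K)) + 5 * s := ⟨_, rfl⟩
  have hK41 : 5 * s ≤ K4 := by
    rw [hK4]
    have : 0 ≤ K * (5 * s) ^ 2 * (1 + Real.log (8 * K)) := by positivity
    linarith
  have hK42 : K * (5 * s) ^ 2 * (1 + Real.log (8 * K)) ≤ K4 := by rw [hK4]; linarith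
  refine ⟨K4, by linarith, ?_⟩
  intro η μ _ lam hl Es hflat y hy hy1 hyK
  have hl2 : 0 < lam ^ 2 := by positivity
  obtain ⟨m, hm⟩ : ∃ m : ℕ, m = ⌈s / y⌉₊ := ⟨_, rfl⟩
  have hsy : 2 ≤ s / y := by rw [le_div_iff₀ hy]; nlinarith
  have hm1 : s / y ≤ m := by rw [hm]; exact Nat.le_ceil _
  have hm2 : (m : ℝ) < s / y + 1 := by rw [hm]; exact Nat.ceil_lt_add_one (by linarith)
  have hmy : s ≤ m * y := by rwa [div_le_iff₀ hy] at hm1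
  have hm3 : (2 : ℝ) ≤ m := by linarith
  have hm3' : 2 ≤ m := by exact_mod_cast hm3
  have hn0 : (0 : ℝ) < ((2 * m + 1 : ℕ) : ℝ) := by positivity
  have hny : 2 * s ≤ y * ((2 * m + 1 : ℕ) : ℝ) := by push_cast; linarith
  have hny2 : y * ((2 * m + 1 : ℕ) : ℝ) ≤ 5 * s := by
    push_cast
    have h1 : (m : ℝ) * y ≤ s + y := by
      have h9 : (m : ℝ) * y ≤ (s / y + 1) * y := by gcongr
      have h10 : (s / y + 1) * y = s + y := by field_simp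
      linarith
    linarith
  have hpow : lam ^ 2 * ((2 * m + 1 : ℕ) : ℝ) ^ p ≤ (5 * s) ^ 2 * (lam ^ 2 / y ^ p) := by
    have h7 : (5 * s) ^ p ≤ (5 * s) ^ 2 := pow_le_pow_right₀ (by linarith) hp2
    have h8 : ((2 * m + 1 : ℕ) : ℝ) ^ p ≤ (5 * s) ^ 2 / y ^ p := by
      rw [le_div_iff₀ (by positivity), ← mul_pow, mul_comm]
      exact (pow_le_pow_left₀ (by positivity) hny2 p).trans h7
    calc lam ^ 2 * ((2 * m + 1 : ℕ) : ℝ) ^ p ≤ lam ^ 2 * ((5 * s) ^ 2 / y ^ p) := by gcongr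
      _ = _ := by ring
  have hratio : lam ^ 2 / y ^ p ≤ 1 / K4 := by
    rw [div_le_div_iff₀ (by positivity) (by linarith)]
    linarith
  have hq : lam ^ 2 * ((2 * m + 1 : ℕ) : ℝ) ^ p ≤ (5 * s) ^ 2 * (1 / K4) :=
    hpow.trans (mul_le_mul_of_nonneg_left hratio (by positivity))
  have hkey : K * (lam ^ 2 * ((2 * m + 1 : ℕ) : ℝ) ^ p) * (1 + Real.log (8 * K)) ≤ 1 := by
    calc K * (lam ^ 2 * ((2 * m + 1 : ℕ) : ℝ) ^ p) * (1 + Real.log (8 * K)) ≤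
          K * ((5 * s) ^ 2 * (1 / K4)) * (1 + Real.log (8 * K)) :=
          mul_le_mul_of_nonneg_right (mul_le_mul_of_nonneg_left hq hK0.le) (by linarith)
      _ = K * (5 * s) ^ 2 * (1 + Real.log (8 * K)) / K4 := by ring
      _ ≤ 1 := by rw [div_le_one (by linarith)]; exact hK42
  have hpos : 0 < K * (lam ^ 2 * ((2 * m + 1 : ℕ) : ℝ) ^ p) := by positivity
  have hcond : K * (lam ^ 2 * ((2 * m + 1 : ℕ) : ℝ) ^ p) ≤ 1 := by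
    have : 0 ≤ K * (lam ^ 2 * ((2 * m + 1 : ℕ) : ℝ) ^ p) * Real.log (8 * K) :=
      mul_nonneg hpos.le hlog
    linarith
  have hlog2 : Real.log (8 * K) ≤ 1 / (K * (lam ^ 2 * ((2 * m + 1 : ℕ) : ℝ) ^ p)) := by
    rw [le_div_iff₀ hpos]
    linarith
  obtain ⟨G, hG, hP, hfl⟩ := hflat (2 * m + 1) hcond
  refine ⟨m, G, by omega, by linarith, hny2.trans hK41, ?_, hG, ?_, hfl⟩
  · rw [div_le_iff₀ (by positivity)]
    have h1 : (2 * s) ^ 2 ≤ (y * ((2 * m + 1 : ℕ) : ℝ)) ^ 2 := pow_le_pow_left₀ (by linarith) hny 2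
    have h2 : K + 1024 * d ≤ s ^ 2 := by
      have : s * 1 ≤ s * s := by gcongr; linarith
      rw [hs] at this ⊢
      nlinarith
    calc K + 1024 * d ≤ (2 * s) ^ 2 / 4 := by linarith
      _ ≤ (y * ((2 * m + 1 : ℕ) : ℝ)) ^ 2 / 4 := by gcongr
      _ = _ := by ring
  · have h1 : K * Real.exp (-(1 / (K * (lam ^ 2 * ((2 * m + 1 : ℕ) : ℝ) ^ p)))) ≤ 1 / 8 := by
      have h2 : Real.exp (-(1 / (K * (lam ^ 2 * ((2 * m + 1 : ℕ) : ℝ) ^ p)))) ≤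
          Real.exp (-Real.log (8 * K)) := Real.exp_le_exp.2 (neg_le_neg hlog2)
      rw [Real.exp_neg (Real.log _), Real.exp_log (by positivity)] at h2
      calc K * Real.exp (-(1 / (K * (lam ^ 2 * ((2 * m + 1 : ℕ) : ℝ) ^ p)))) ≤ K * (8 * K)⁻¹ := by
            gcongr
        _ = 1 / 8 := by field_simp
    linarith

/-- lower bound above the edge -/
theorem lowA (d p : ℕ) (hd : 1 ≤ d) (hp2 : p ≤ 2) (K : ℝ) (hK : 1 ≤ K) (η : ℝ) (hη : η ≤ 1) :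
    ∃ K5 : ℝ, 1 ≤ K5 ∧ ∀ (μ : Measure ℝ) [IsProbabilityMeasure μ], μ (Set.Icc (-1) 1)ᶜ = 0 →
    ∀ lam : ℝ, 0 < lam → lam ≤ 1 → ∀ Es : ℝ, Flats d p μ lam η Es K →
    ∀ ν : Measure ℝ, Dos d μ lam ν → ∀ y : ℝ, 0 < y → y ≤ 1 → K5 * lam ^ 2 ≤ y ^ p →
      y ^ d / K5 ≤ ν.real (Set.Iic (Es + y ^ 2)) := by
  obtain ⟨K4, hK4, H⟩ := flat_odd d p hd hp2 K hK
  refine ⟨2 * K4 ^ d + K4, by nlinarith [pow_pos (show 0 < K4 by linarith) d], ?_⟩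
  intro μ _ hμ lam hl hl1 Es hflat ν hν y hy hy1 hyK
  have hK4d : 0 < K4 ^ d := by positivity
  have hl2 : 0 < lam ^ 2 := by positivity
  have hyK' : K4 * lam ^ 2 ≤ y ^ p := by
    refine le_trans ?_ hyK
    gcongr
    linarith
  obtain ⟨m, G, h1, h2, h3, h4, hG, hP, hfl⟩ := H η μ lam hl Es hflat y hy hy1 hyK'
  have hn0 : (0 : ℝ) < ((2 * m + 1 : ℕ) : ℝ) := by positivity
  have hdpos : (0 : ℝ) ≤ d := Nat.cast_nonneg d
  have hlow := lower hμ hl.le hl1 hν m (Tr d (2 * m + 1) lam (Es + y ^ 2 / 2))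
    (tr_meas _ _) (Es + y ^ 2 / 2) (Es + y ^ 2) (by nlinarith [sq_pos_of_pos hy])
    (fun V hV => hV)
  refine le_trans ?_ hlow
  have hsub : G ⊆ Tr d (2 * m + 1) lam (Es + y ^ 2 / 2) := by
    intro V hV
    refine plain hd h1 lam (K / ((2 * m + 1 : ℕ) : ℝ) ^ 2) Es hl.le V
      (Pool.Agent.Y663.Mc.of_flat lam η _ Es hη V (hfl V hV)) _ ?_
    have e : K / ((2 * m + 1 : ℕ) : ℝ) ^ 2 + 1024 * (d : ℝ) / ((2 * m + 1 : ℕ) : ℝ) ^ 2 =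
        (K + 1024 * d) / ((2 * m + 1 : ℕ) : ℝ) ^ 2 := by rw [add_div]
    have := sq_pos_of_pos hy
    linarith
  have hPT : 7 / 8 ≤ (Measure.pi fun _ : AE.T d (2 * m + 1) => μ).real
      (Tr d (2 * m + 1) lam (Es + y ^ 2 / 2)) := hP.trans (measureReal_mono hsub)
  rw [div_le_div_iff₀ (by linarith) (by positivity)]
  calc y ^ d * ((2 * m + 1 : ℕ) : ℝ) ^ d = (y * ((2 * m + 1 : ℕ) : ℝ)) ^ d := by rw [mul_pow]
    _ ≤ K4 ^ d := pow_le_pow_left₀ (by positivity) h3 d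
    _ ≤ 7 / 8 * (2 * K4 ^ d + K4) := by linarith
    _ ≤ _ := by gcongr

/-- lower bound below the edge -/
theorem lowB (d p : ℕ) (hd : 2 ≤ d) (hdp : d + p = 4) (hp2 : p ≤ 2) (K : ℝ) (hK : 1 ≤ K) (η : ℝ)
    (hη : η ≤ 1) :
    ∃ K5 : ℝ, 1 ≤ K5 ∧ ∀ (μ : Measure ℝ) [IsProbabilityMeasure μ], μ (Set.Icc (-1) 1)ᶜ = 0 →
    1 / K ≤ e0 μ →
    ∀ lam : ℝ, 0 < lam → lam ≤ 1 → ∀ Es : ℝ, Flats d p μ lam η Es K →
    ∀ ν : Measure ℝ, Dos d μ lam ν → ∀ y : ℝ, 0 < y → y ≤ 1 → K5 * lam ^ 2 ≤ y ^ p →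
      K5 * y ^ 2 ≤ lam → K5 * lam ≤ 1 →
      y ^ d * Real.exp (-(K5 * (y ^ p / lam ^ 2))) / K5 ≤ ν.real (Set.Iic (Es - y ^ 2)) := by
  obtain ⟨K4, hK4, H⟩ := flat_odd d p (by omega) hp2 K hK
  have hK0 : 0 < K := by linarith
  have hK4d : 0 < K4 ^ d := by positivity
  obtain ⟨k3, hk3⟩ : ∃ z : ℝ, z = 32 * K := ⟨_, rfl⟩
  have hk30 : 0 < k3 := by rw [hk3]; positivity
  obtain ⟨K5, hK5⟩ : ∃ z : ℝ, z = 2 * K4 ^ d + K4 + k3 + k3 ^ 2 * K4 ^ d + 64 ^ (d + 1) := ⟨_, rfl⟩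
  have h64 : (0 : ℝ) < 64 ^ (d + 1) := by positivity
  have hk3K : 0 < k3 ^ 2 * K4 ^ d := by positivity
  have b1 : 2 * K4 ^ d ≤ K5 := by rw [hK5]; linarith
  have b2 : K4 ≤ K5 := by rw [hK5]; linarith
  have b3 : k3 ≤ K5 := by rw [hK5]; linarith
  have b4 : k3 ^ 2 * K4 ^ d ≤ K5 := by rw [hK5]; linarith
  have b5 : (64 : ℝ) ^ (d + 1) ≤ K5 := by rw [hK5]; linarith
  have hK51 : 1 ≤ K5 := by linarith
  have hK50 : 0 < K5 := by linarith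
  refine ⟨K5, hK51, ?_⟩
  intro μ _ hμ he0 lam hl hl1 Es hflat ν hν y hy hy1 hyK hyl hlK
  have hl2 : 0 < lam ^ 2 := by positivity
  have hyK' : K4 * lam ^ 2 ≤ y ^ p := by
    refine le_trans ?_ hyK
    gcongr
  obtain ⟨m, G, h1, h2, h3, h4, hG, hP, hfl⟩ := H η μ lam hl Es hflat y hy hy1 hyK'
  have hn0 : (0 : ℝ) < ((2 * m + 1 : ℕ) : ℝ) := by positivity
  have hy2 : 0 < y ^ 2 := by positivity
  obtain ⟨s, hs⟩ : ∃ z : ℝ, z = k3 * y ^ 2 / lam := ⟨_, rfl⟩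
  have hs0 : 0 < s := by rw [hs]; positivity
  have hs1 : s ≤ 1 := by
    rw [hs, div_le_one hl]
    refine le_trans ?_ hyl
    gcongr
  have he00 : 0 < e0 μ := lt_of_lt_of_le (by positivity) he0
  have hse : 32 * y ^ 2 / lam ≤ s * e0 μ := by
    calc 32 * y ^ 2 / lam = s * (1 / K) := by rw [hs, hk3]; field_simp
      _ ≤ s * e0 μ := by gcongr
  have hlow := lower hμ hl.le hl1 hν m (Tr d (2 * m + 1) lam (Es - 2 * y ^ 2))
    (tr_meas _ _) (Es - 2 * y ^ 2) (Es - y ^ 2) (by linarith) (fun V hV => hV)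
  refine le_trans ?_ hlow
  have hsh := shift (d := d) (L := 2 * m + 1) μ hμ (by omega) h1 lam
    (K / ((2 * m + 1 : ℕ) : ℝ) ^ 2) Es hl.le G hG hP
    (fun V hV => Pool.Agent.Y663.Mc.of_flat lam η _ Es hη V (hfl V hV)) s hs0 hs1 (by
      have h5 : (1 : ℝ) ≤ y ^ 2 * ((2 * m + 1 : ℕ) : ℝ) ^ d := by
        have h6 : (1 : ℝ) ≤ (y * ((2 * m + 1 : ℕ) : ℝ)) ^ d := one_le_pow₀ h2
        rw [mul_pow] at h6
        have h7 : y ^ d ≤ y ^ 2 := pow_le_pow_of_le_one hy.le hy1 hd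
        calc (1 : ℝ) ≤ y ^ d * ((2 * m + 1 : ℕ) : ℝ) ^ d := h6
          _ ≤ _ := by gcongr
      calc (64 : ℝ) ^ (d + 1) ≤ K5 := b5
        _ ≤ 1 / lam := by rw [le_div_iff₀ hl]; exact hlK
        _ ≤ 1 / lam * (32 * (y ^ 2 * ((2 * m + 1 : ℕ) : ℝ) ^ d)) := by
            apply le_mul_of_one_le_right (by positivity)
            linarith
        _ = 32 * y ^ 2 / lam * ((2 * m + 1 : ℕ) : ℝ) ^ d := by ring
        _ ≤ s * e0 μ * ((2 * m + 1 : ℕ) : ℝ) ^ d := by gcongr) (Es - 2 * y ^ 2) (by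
      have e : K / ((2 * m + 1 : ℕ) : ℝ) ^ 2 + 1024 * (d : ℝ) / ((2 * m + 1 : ℕ) : ℝ) ^ 2 =
        (K + 1024 * d) / ((2 * m + 1 : ℕ) : ℝ) ^ 2 := by rw [add_div]
      have h5 : 4 * y ^ 2 ≤ lam * (s * e0 μ / 2) / 4 := by
        calc 4 * y ^ 2 = lam * (32 * y ^ 2 / lam / 2) / 4 := by field_simp; ring
          _ ≤ _ := by gcongr
      linarith)
  have hexp : s ^ 2 * ((2 * m + 1 : ℕ) : ℝ) ^ d ≤ K5 * (y ^ p / lam ^ 2) := by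
    have h5 : (y * ((2 * m + 1 : ℕ) : ℝ)) ^ d ≤ K4 ^ d := pow_le_pow_left₀ (by positivity) h3 d
    have h6 : s ^ 2 * ((2 * m + 1 : ℕ) : ℝ) ^ d =
        k3 ^ 2 * (y * ((2 * m + 1 : ℕ) : ℝ)) ^ d * (y ^ p / lam ^ 2) := by
      have e4 : y ^ 4 = y ^ d * y ^ p := by rw [← pow_add, hdp]
      rw [hs, mul_pow, div_pow, mul_pow]
      have e5 : (y ^ 2) ^ 2 = y ^ d * y ^ p := by rw [← e4]; ring
      rw [e5]
      field_simp
    rw [h6]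
    calc k3 ^ 2 * (y * ((2 * m + 1 : ℕ) : ℝ)) ^ d * (y ^ p / lam ^ 2) ≤
          k3 ^ 2 * K4 ^ d * (y ^ p / lam ^ 2) := by gcongr
      _ ≤ _ := by gcongr
  have hP2 : 1 / 2 * Real.exp (-(K5 * (y ^ p / lam ^ 2))) ≤
      (Measure.pi fun _ : AE.T d (2 * m + 1) => μ).real (Tr d (2 * m + 1) lam (Es - 2 * y ^ 2)) := by
    refine le_trans ?_ hsh
    gcongr
  rw [div_le_div_iff₀ hK50 (by positivity)]
  calc y ^ d * Real.exp (-(K5 * (y ^ p / lam ^ 2))) * ((2 * m + 1 : ℕ) : ℝ) ^ d =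
        (y * ((2 * m + 1 : ℕ) : ℝ)) ^ d * Real.exp (-(K5 * (y ^ p / lam ^ 2))) := by
        rw [mul_pow]; ring
    _ ≤ K4 ^ d * Real.exp (-(K5 * (y ^ p / lam ^ 2))) := by gcongr
    _ ≤ (1 / 2 * Real.exp (-(K5 * (y ^ p / lam ^ 2)))) * K5 := by
        have := Real.exp_pos (-(K5 * (y ^ p / lam ^ 2)))
        nlinarith
    _ ≤ _ := by gcongr

end Pool.Agent.K3h4.DS.Au
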