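import Pool.Agent.K3h4.DS.At
import Pool.Agent.K3h4.DS.Au

/-! Two-sided bounds for the density of states, with the critical window. -/

set_option autoImplicit false
set_option linter.unusedSectionVars false
set_option linter.unusedVariables false

open scoped BigOperators ENNReal
open MeasureTheory Filter Topology

namespace Pool.Agent.K3h4.DS.Av

open Pool.Agent.H4R2
open Pool.Agent.H541R3.AND.Trans
open Pool.Agent.K3h4.DS.Mo
open Pool.Agent.K3h4.DS.As (Flats Filt)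
open Pool.Agent.K3h4.DS.At (Lows upA upB xd)
open Pool.Agent.K3h4.DS.Au (lowA lowB)
open Pool.Agent.K3h4.DS.Tb (e0)

theorem win (d p : ℕ) (hd : 2 ≤ d) (hdp : d + p = 4) (hp : 1 ≤ p) (hp2 : p ≤ 2)
    (K : ℝ) (hK : 1 ≤ K) (b C : ℝ) (hb : b ≠ 0) (hC : 0 < C) (hF : Filt d K b C) (η : ℝ)
    (hη : η ≤ 1) :
    ∃ A : ℝ, 1 ≤ A ∧ ∀ (μ : Measure ℝ) [IsProbabilityMeasure μ], μ (Set.Icc (-1) 1)ᶜ = 0 →
    1 / K ≤ e0 μ →
    ∀ lam : ℝ, 0 < lam → A * lam ≤ 1 → ∀ Es : ℝ, |Es| ≤ lam → Flats d p μ lam η Es K →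
    Lows d p μ lam Es K → ∀ ν : Measure ℝ, Dos d μ lam ν →
    ∀ w : ℝ, 0 < w → w ≤ lam → w ^ p = lam ^ 2 →
      (∀ y : ℝ, 0 ≤ y → y ≤ 1 → (y + w) ^ d / A ≤ ν.real (Set.Iic (Es + y ^ 2)) ∧
        ν.real (Set.Iic (Es + y ^ 2)) ≤ A * (y + w) ^ d) ∧
      (∀ y : ℝ, 0 ≤ y → y ≤ 1 →
        ν.real (Set.Iic (Es - y ^ 2)) ≤ A * w ^ d * Real.exp (-(y ^ p / (A * lam ^ 2)))) ∧
      ∀ y : ℝ, 0 ≤ y → A * y ^ 2 ≤ lam →
        w ^ d * Real.exp (-(A * (y ^ p / lam ^ 2))) / A ≤ ν.real (Set.Iic (Es - y ^ 2)) := by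
  have hd3 : d ≤ 3 := by omega
  obtain ⟨a1, ha1, H1⟩ := upA d p (by omega) (by omega) hd3 hp hp2 K hK b C hC hF η hη
  obtain ⟨a2, ha2, H2⟩ := upB d p (by omega) (by omega) hd3 hp hp2 K hK b C hb hC hF η hη
  obtain ⟨a3, ha3, H3⟩ := lowA d p (by omega) hp2 K hK η hη
  obtain ⟨a4, ha4, H4⟩ := lowB d p hd hdp hp2 K hK η hη
  obtain ⟨k, hk⟩ : ∃ z : ℝ, z = 49 * K + a3 + a4 := ⟨_, rfl⟩
  have hk1 : 1 ≤ k := by rw [hk]; linarith
  have hk0 : 0 < k := by linarith
  have hk49 : 49 * K ≤ k := by rw [hk]; linarith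
  have hka3 : a3 ≤ k := by rw [hk]; linarith
  have hka4 : a4 ≤ k := by rw [hk]; linarith
  have hkd : 1 ≤ k ^ d := one_le_pow₀ hk1
  have hkp : 1 ≤ k ^ p := one_le_pow₀ hk1
  obtain ⟨A, hA⟩ : ∃ z : ℝ, z = a1 * k ^ d * 3 + a2 * (6 * (2 * a2) ^ 3) + 2 * a2 + k ^ p +
    a3 * 2 ^ d + a4 * Real.exp (a4 * k ^ p) * (k + 1) ^ d + a4 * k ^ 2 + k := ⟨_, rfl⟩
  have t1 : 0 ≤ a1 * k ^ d * 3 := by positivity
  have t2 : 0 ≤ a2 * (6 * (2 * a2) ^ 3) := by positivity
  have t3 : 0 ≤ 2 * a2 := by linarith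
  have t4 : 0 ≤ k ^ p := by linarith
  have t5 : 0 ≤ a3 * 2 ^ d := by positivity
  have t6 : 0 ≤ a4 * Real.exp (a4 * k ^ p) * (k + 1) ^ d := by positivity
  have t7 : 0 ≤ a4 * k ^ 2 := by positivity
  have u1 : a1 * k ^ d * 3 ≤ A := by rw [hA]; linarith
  have u2 : a2 * (6 * (2 * a2) ^ 3) ≤ A := by rw [hA]; linarith
  have u3 : 2 * a2 ≤ A := by rw [hA]; linarith
  have u4 : k ^ p ≤ A := by rw [hA]; linarith
  have u5 : a3 * 2 ^ d ≤ A := by rw [hA]; linarith
  have u6 : a4 * Real.exp (a4 * k ^ p) * (k + 1) ^ d ≤ A := by rw [hA]; linarith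
  have u7 : a4 * k ^ 2 ≤ A := by rw [hA]; linarith
  have u8 : k ≤ A := by rw [hA]; linarith
  have hA1 : 1 ≤ A := by linarith
  have hA0 : 0 < A := by linarith
  have u9 : a4 ≤ A := by linarith
  refine ⟨A, hA1, ?_⟩
  intro μ _ hμ he0 lam hl hAl Es hEs hflat hlow ν hν w hw hwl hwp
  have := hν.1
  have hl2 : 0 < lam ^ 2 := by positivity
  have hlA : lam ≤ 1 / A := by rw [le_div_iff₀ hA0]; linarith
  have hAa2 : 2 ≤ A := by linarith
  have hl12 : lam ≤ 1 / 2 := hlA.trans (by gcongr)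
  have hl1 : lam ≤ 1 := by linarith
  -- the threshold
  obtain ⟨y0, hy0⟩ : ∃ z : ℝ, z = k * w := ⟨_, rfl⟩
  have hy00 : 0 < y0 := by rw [hy0]; positivity
  have hy01 : y0 ≤ 1 := by
    rw [hy0]
    calc k * w ≤ A * lam := by gcongr
      _ ≤ 1 := hAl
  have hy0p : y0 ^ p = k ^ p * lam ^ 2 := by rw [hy0, mul_pow, hwp]
  have hkk : k ≤ k ^ p := by
    calc k = k ^ 1 := (pow_one k).symm
      _ ≤ k ^ p := pow_le_pow_right₀ hk1 hp
  have hge : ∀ y, y0 ≤ y → k * lam ^ 2 ≤ y ^ p := by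
    intro y hy
    calc k * lam ^ 2 ≤ k ^ p * lam ^ 2 := by gcongr
      _ = y0 ^ p := hy0p.symm
      _ ≤ y ^ p := pow_le_pow_left₀ hy00.le hy p
  have hge49 : ∀ y, y0 ≤ y → 49 * K * lam ^ 2 ≤ y ^ p := fun y hy =>
    le_trans (by gcongr) (hge y hy)
  have hge3 : ∀ y, y0 ≤ y → a3 * lam ^ 2 ≤ y ^ p := fun y hy =>
    le_trans (by gcongr) (hge y hy)
  have hge4 : ∀ y, y0 ≤ y → a4 * lam ^ 2 ≤ y ^ p := fun y hy =>
    le_trans (by gcongr) (hge y hy)
  have ha4l : a4 * lam ≤ 1 := le_trans (by gcongr) hAl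
  -- the values at the threshold
  have v1 : ν.real (Set.Iic (Es + y0 ^ 2)) ≤ a1 * k ^ d * w ^ d := by
    have h := H1 μ hμ lam hl hl1 Es hflat ν hν y0 hy00 hy01 (hge49 y0 le_rfl)
    rw [hy0, mul_pow k w d] at h
    rw [hy0]
    linarith
  have v2 : w ^ d * Real.exp (-(a4 * k ^ p)) / a4 ≤ ν.real (Set.Iic (Es - y0 ^ 2)) := by
    have h := H4 μ hμ he0 lam hl hl1 Es hflat ν hν y0 hy00 hy01 (hge4 y0 le_rfl) (by
      rw [hy0]
      calc a4 * (k * w) ^ 2 = a4 * k ^ 2 * w ^ 2 := by ring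
        _ ≤ a4 * k ^ 2 * lam ^ 2 := by gcongr
        _ ≤ A * lam ^ 2 := by gcongr
        _ = (A * lam) * lam := by ring
        _ ≤ 1 * lam := by gcongr
        _ = lam := one_mul _) ha4l
    have e : y0 ^ p / lam ^ 2 = k ^ p := by rw [hy0p]; field_simp
    rw [e] at h
    refine le_trans ?_ h
    have h5 : w ^ d ≤ y0 ^ d := by
      apply pow_le_pow_left₀ hw.le
      rw [hy0]
      exact le_mul_of_one_le_left hw.le hk1
    gcongr
  refine ⟨fun y hy hy1 => ⟨?_, ?_⟩, fun y hy hy1 => ?_, fun y hy hyl => ?_⟩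
  · -- lower bound above the edge
    rcases le_or_gt y0 y with h | h
    · have hy' : 0 < y := lt_of_lt_of_le hy00 h
      have h5 := H3 μ hμ lam hl hl1 Es hflat ν hν y hy' hy1 (hge3 y h)
      refine le_trans ?_ h5
      have h6 : (y + w) ^ d ≤ 2 ^ d * y ^ d := by
        rw [← mul_pow]
        apply pow_le_pow_left₀ (by linarith)
        have : w ≤ y0 := by
          rw [hy0]
          exact le_mul_of_one_le_left hw.le hk1
        linarith
      rw [div_le_div_iff₀ hA0 (by linarith)]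
      calc (y + w) ^ d * a3 ≤ (2 ^ d * y ^ d) * a3 := by gcongr
        _ = y ^ d * (a3 * 2 ^ d) := by ring
        _ ≤ y ^ d * A := by gcongr
    · have h5 : ν.real (Set.Iic (Es - y0 ^ 2)) ≤ ν.real (Set.Iic (Es + y ^ 2)) := by
        refine measureReal_mono (Set.Iic_subset_Iic.2 ?_)
        have := sq_nonneg y0
        have := sq_nonneg y
        linarith
      refine le_trans ?_ (v2.trans h5)
      have h6 : (y + w) ^ d ≤ (k + 1) ^ d * w ^ d := by
        rw [← mul_pow]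
        apply pow_le_pow_left₀ (by linarith)
        rw [hy0] at h
        linarith
      rw [div_le_div_iff₀ hA0 (by linarith), Real.exp_neg]
      have hE : 0 < Real.exp (a4 * k ^ p) := Real.exp_pos _
      calc (y + w) ^ d * a4 ≤ ((k + 1) ^ d * w ^ d) * a4 := by gcongr
        _ = w ^ d * (Real.exp (a4 * k ^ p))⁻¹ * (a4 * Real.exp (a4 * k ^ p) * (k + 1) ^ d) := by
            field_simp
        _ ≤ w ^ d * (Real.exp (a4 * k ^ p))⁻¹ * A := by gcongr
  · -- upper bound above the edge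
    rcases le_or_gt y0 y with h | h
    · have hy' : 0 < y := lt_of_lt_of_le hy00 h
      have h5 := H1 μ hμ lam hl hl1 Es hflat ν hν y hy' hy1 (hge49 y h)
      refine h5.trans ?_
      have h6 : y ^ d ≤ (y + w) ^ d := pow_le_pow_left₀ hy (by linarith) d
      have h7 : a1 ≤ A := by
        have : a1 * 1 ≤ a1 * k ^ d := by gcongr
        linarith
      gcongr
    · have h5 : ν.real (Set.Iic (Es + y ^ 2)) ≤ ν.real (Set.Iic (Es + y0 ^ 2)) := by
        refine measureReal_mono (Set.Iic_subset_Iic.2 ?_)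
        have : y ^ 2 ≤ y0 ^ 2 := pow_le_pow_left₀ hy h.le 2
        linarith
      refine h5.trans (v1.trans ?_)
      have h6 : w ^ d ≤ (y + w) ^ d := pow_le_pow_left₀ hw.le (by linarith) d
      have h7 : a1 * k ^ d ≤ A := by linarith
      gcongr
  · -- upper bound below the edge
    have e1 : y ^ p / (A * lam ^ 2) = (y ^ p / lam ^ 2) / A := by field_simp
    rw [e1]
    rcases le_or_gt y0 y with h | h
    · have hy' : 0 < y := lt_of_lt_of_le hy00 h
      have h5 := H2 μ hμ lam hl hl12 Es hEs hflat hlow ν hν y hy' hy1 (hge49 y h)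
      refine h5.trans ?_
      obtain ⟨x, hx⟩ : ∃ x, x = y ^ p / lam ^ 2 := ⟨_, rfl⟩
      have e2 : y ^ p / (a2 * lam ^ 2) = 1 / a2 * x := by rw [hx]; field_simp
      rw [e2, ← hx]
      -- `y ^ d ≤ w ^ d * x ^ 3`
      have hwy : w ≤ y := by
        refine le_trans ?_ h
        rw [hy0]
        exact le_mul_of_one_le_left hw.le hk1
      have hr1 : 1 ≤ y / w := by rwa [le_div_iff₀ hw, one_mul]
      have hxr : x = (y / w) ^ p := by rw [hx, div_pow, hwp]
      have hx1 : 1 ≤ x := by rw [hxr]; exact one_le_pow₀ hr1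
      have h6 : y ^ d ≤ w ^ d * x ^ 3 := by
        have h7 : (y / w) ^ d ≤ x ^ 3 := by
          rw [hxr, ← pow_mul]
          exact pow_le_pow_right₀ hr1 (by omega)
        calc y ^ d = w ^ d * (y / w) ^ d := by rw [div_pow]; field_simp
          _ ≤ _ := by gcongr
      have h8 := xd 3 le_rfl (1 / a2) x (by positivity) hx1
      have e3 : 2 / (1 / a2) = 2 * a2 := by field_simp
      rw [e3] at h8
      have h9 : Real.exp (-(1 / a2 / 2 * x)) ≤ Real.exp (-(x / A)) := by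
        apply Real.exp_le_exp.2
        apply neg_le_neg
        have e4 : 1 / a2 / 2 * x = x / (2 * a2) := by field_simp
        rw [e4]
        gcongr
      calc a2 * y ^ d * Real.exp (-(1 / a2 * x)) ≤
            a2 * (w ^ d * x ^ 3) * Real.exp (-(1 / a2 * x)) := by gcongr
        _ = a2 * w ^ d * (x ^ 3 * Real.exp (-(1 / a2 * x))) := by ring
        _ ≤ a2 * w ^ d * (6 * (2 * a2) ^ 3 * Real.exp (-(1 / a2 / 2 * x))) := by gcongr
        _ ≤ a2 * w ^ d * (6 * (2 * a2) ^ 3 * Real.exp (-(x / A))) := by gcongr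
        _ = (a2 * (6 * (2 * a2) ^ 3)) * w ^ d * Real.exp (-(x / A)) := by ring
        _ ≤ A * w ^ d * Real.exp (-(x / A)) := by gcongr
    · have h5 : ν.real (Set.Iic (Es - y ^ 2)) ≤ ν.real (Set.Iic (Es + y0 ^ 2)) := by
        refine measureReal_mono (Set.Iic_subset_Iic.2 ?_)
        have := sq_nonneg y0
        have := sq_nonneg y
        linarith
      refine h5.trans (v1.trans ?_)
      have h6 : y ^ p / lam ^ 2 / A ≤ 1 := by
        rw [div_le_one hA0]
        refine le_trans ?_ u4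
        rw [div_le_iff₀ hl2, ← hy0p]
        exact pow_le_pow_left₀ hy h.le p
      have h7 : (1 : ℝ) ≤ 3 * Real.exp (-(y ^ p / lam ^ 2 / A)) := by
        have h8 : Real.exp (-1) ≤ Real.exp (-(y ^ p / lam ^ 2 / A)) :=
          Real.exp_le_exp.2 (neg_le_neg h6)
        have h9 : (1 : ℝ) / 3 ≤ Real.exp (-1) := by
          rw [Real.exp_neg, one_div]
          apply inv_anti₀ (Real.exp_pos _)
          have := Real.exp_one_lt_d9
          linarith
        linarith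
      calc a1 * k ^ d * w ^ d ≤ a1 * k ^ d * w ^ d * (3 * Real.exp (-(y ^ p / lam ^ 2 / A))) :=
            le_mul_of_one_le_right (by positivity) h7
        _ = (a1 * k ^ d * 3) * w ^ d * Real.exp (-(y ^ p / lam ^ 2 / A)) := by ring
        _ ≤ _ := by gcongr
  · -- lower bound below the edge
    rcases le_or_gt y0 y with h | h
    · have hy' : 0 < y := lt_of_lt_of_le hy00 h
      have hyl' : a4 * y ^ 2 ≤ lam := le_trans (by gcongr) hyl
      have hy1 : y ≤ 1 := by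
        have h5 : y ^ 2 ≤ A * y ^ 2 := le_mul_of_one_le_left (sq_nonneg _) hA1
        nlinarith
      have h5 := H4 μ hμ he0 lam hl hl1 Es hflat ν hν y hy' hy1 (hge4 y h) hyl' ha4l
      refine le_trans ?_ h5
      have hwy : w ≤ y := by
        refine le_trans ?_ h
        rw [hy0]
        exact le_mul_of_one_le_left hw.le hk1
      have h6 : w ^ d ≤ y ^ d := pow_le_pow_left₀ hw.le hwy d
      have h7 : Real.exp (-(A * (y ^ p / lam ^ 2))) ≤ Real.exp (-(a4 * (y ^ p / lam ^ 2))) := by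
        apply Real.exp_le_exp.2
        apply neg_le_neg
        gcongr
      have h8 : 0 < a4 := by linarith
      gcongr
    · have h5 : ν.real (Set.Iic (Es - y0 ^ 2)) ≤ ν.real (Set.Iic (Es - y ^ 2)) := by
        refine measureReal_mono (Set.Iic_subset_Iic.2 ?_)
        have : y ^ 2 ≤ y0 ^ 2 := pow_le_pow_left₀ hy h.le 2
        linarith
      refine le_trans ?_ (v2.trans h5)
      have h6 : Real.exp (-(A * (y ^ p / lam ^ 2))) ≤ 1 := by
        rw [Real.exp_le_one_iff]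
        have : 0 ≤ A * (y ^ p / lam ^ 2) := by positivity
        linarith
      rw [div_le_div_iff₀ hA0 (by linarith), Real.exp_neg (a4 * k ^ p)]
      have hE : 0 < Real.exp (a4 * k ^ p) := Real.exp_pos _
      have hk1d : 1 ≤ (k + 1) ^ d := one_le_pow₀ (by linarith)
      calc w ^ d * Real.exp (-(A * (y ^ p / lam ^ 2))) * a4 ≤ w ^ d * 1 * a4 := by gcongr
        _ = w ^ d * (Real.exp (a4 * k ^ p))⁻¹ * (a4 * Real.exp (a4 * k ^ p) * 1) := by
            field_simp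
        _ ≤ w ^ d * (Real.exp (a4 * k ^ p))⁻¹ * (a4 * Real.exp (a4 * k ^ p) * (k + 1) ^ d) := by
            gcongr
        _ ≤ w ^ d * (Real.exp (a4 * k ^ p))⁻¹ * A := by gcongr

end Pool.Agent.K3h4.DS.Av
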