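import Pool.Agent.K3h4.DS.D3
import Pool.Agent.K3h4.AN.F2

/-! Dimension two: lower bound of the spectrum on large tori; the density of states. -/

set_option autoImplicit false
set_option linter.unusedSectionVars false
set_option linter.unusedVariables false

open scoped BigOperators ENNReal
open MeasureTheory Filter Topology

namespace Pool.Agent.K3h4.DS.D2

open Pool.Agent.H4R2
open Pool.Agent.H4R2.AE (T LapW Hop)
open Pool.Agent.K3h4.AN.Pe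
open Pool.Agent.K3h4.AN.Pf
open Pool.Agent.K3h4.AN.Tp
open Pool.Agent.K3h4.AN.Ch
open Pool.Agent.Y663
open Pool.Agent.K3h4.AN.F3 (good)
open Pool.Agent.K3h4.AN.F2 (rh2 nn2)
open Pool.Agent.H4R2.LO (Zd)
open Pool.Agent.K3h4.DS.Mo
open Pool.Agent.K3h4.DS.Ex
open Pool.Agent.K3h4.DS.As (Flats Filt)
open Pool.Agent.K3h4.DS.At (Lows)
open Pool.Agent.K3h4.DS.Tb (e0 e0_ge)
open Pool.Agent.K3h4.DS.D3 (flats_mono lows_mono)

theorem low2 (K : ℝ) (hK : 1 ≤ K) (η : ℝ) (hη' : η ≤ 1) : ∃ K' : ℝ, 1 ≤ K' ∧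
    ∀ (μ : Measure ℝ) [IsProbabilityMeasure μ], μ (Set.Icc (-1) 1)ᶜ = 0 →
    ∀ lam : ℝ, 0 < lam → ∀ Es : ℝ, Flats 2 2 μ lam η Es K → Lows 2 2 μ lam Es K' := by
  obtain ⟨A, hAdef⟩ : ∃ z : ℝ, z = 2 ^ 13 := ⟨_, rfl⟩
  have hA : 1 ≤ A := by rw [hAdef]; norm_num
  have HA : ∀ (L : ℕ) [NeZero L],
      RH 2 L (1 / (4 * (L : ℝ) ^ 2)) (2 ^ 14) (2 ^ 14) (fun κ => A / κ) :=
    fun L _ => rh2 A hAdef L
  have hA0 : 0 < A := by linarith
  have hP16 : (2 : ℝ) ^ 14 * Real.exp (-(3 * 16)) ≤ 1 / 64 := by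
    have h1 : Real.exp (-(3 * 16)) = (Real.exp (-1)) ^ 48 := by
      rw [← Real.exp_nat_mul]; norm_num
    have h2 : Real.exp (-1) ≤ 2 / 5 := by
      rw [Real.exp_neg, inv_le_comm₀ (Real.exp_pos _) (by norm_num)]
      have := Real.exp_one_gt_d9
      norm_num
      linarith
    rw [h1]
    have h3 : Real.exp (-1) ^ 48 ≤ (2 / 5) ^ 48 := pow_le_pow_left₀ (Real.exp_pos _).le h2 48
    calc (2 : ℝ) ^ 14 * Real.exp (-1) ^ 48 ≤ 2 ^ 14 * (2 / 5) ^ 48 := by gcongr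
      _ ≤ 1 / 64 := by norm_num
  obtain ⟨c1, hc1⟩ : ∃ z : ℝ, z = 1 / (24576 * A) := ⟨_, rfl⟩
  have hc10 : 0 < c1 := by rw [hc1]; positivity
  obtain ⟨s, hs⟩ : ∃ z : ℝ, z = 4 * (K + 2048) := ⟨_, rfl⟩
  have hs1 : 1 ≤ s := by rw [hs]; linarith
  have hs0 : 0 < s := by linarith
  have hK0 : 0 < K := by linarith
  have hlog4 : 0 ≤ Real.log (4 * K) := Real.log_nonneg (by linarith)
  obtain ⟨S, hS⟩ : ∃ z : ℝ, z = 16 / c1 + 4 * s ^ 2 * K * (1 + Real.log (4 * K)) := ⟨_, rfl⟩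
  have hS1 : 16 / c1 ≤ S := by
    have : 0 ≤ 4 * s ^ 2 * K * (1 + Real.log (4 * K)) := by positivity
    linarith
  have hS2 : 4 * s ^ 2 * K * (1 + Real.log (4 * K)) ≤ S := by
    have : 0 < 16 / c1 := by positivity
    linarith
  have hS0 : 0 < S := lt_of_lt_of_le (by positivity) hS1
  obtain ⟨K', hK'⟩ : ∃ z : ℝ, z = S + 1 / c1 + 256 * (2 ^ 16 * A) + 2 * s + 1 := ⟨_, rfl⟩
  have hc1p : 0 < 1 / c1 := by positivity
  have hK'1 : 1 ≤ K' := by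
    have : 0 < S + 1 / c1 + 256 * (2 ^ 16 * A) + 2 * s := by positivity
    linarith
  have hK'0 : 0 < K' := by linarith
  have hK'S : S ≤ K' := by
    have : 0 < 1 / c1 + 256 * (2 ^ 16 * A) + 2 * s + 1 := by positivity
    linarith
  have hK'c : 1 / c1 ≤ K' := by
    have : 0 < S + 256 * (2 ^ 16 * A) + 2 * s + 1 := by positivity
    linarith
  have hK'A : 256 * (2 ^ 16 * A) ≤ K' := by
    have : 0 < S + 1 / c1 + 2 * s + 1 := by positivity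
    linarith
  have hK's : 2 * s ≤ K' := by
    have : 0 < S + 1 / c1 + 256 * (2 ^ 16 * A) + 1 := by positivity
    linarith
  refine ⟨K', hK'1, ?_⟩
  intro μ _ hμ lam hlam Es hflat y hy hy1 hyK L _ hL
  have hL0 : (0 : ℝ) < L := AE.Core.L_pos (L := L)
  have hy2 : 0 < y ^ 2 := by positivity
  have hl2 : 0 < lam ^ 2 := by positivity
  have hSκ : S * lam ^ 2 ≤ y ^ 2 := le_trans (by gcongr) hyK
  have hSκ' : S ≤ y ^ 2 / lam ^ 2 := by rw [le_div_iff₀ hl2]; exact hSκ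
  obtain ⟨t, ht⟩ : ∃ z : ℝ, z = y ^ 2 / lam ^ 2 := ⟨_, rfl⟩
  rw [← ht] at hSκ'
  have hyy : yy (fun κ => A / κ) lam (y ^ 2) (1 / 8) = c1 * t := by
    unfold yy
    beta_reduce
    rw [hc1, ht]
    field_simp
    norm_num
  have het : y ^ 2 / (K' * lam ^ 2) = t / K' := by
    rw [ht, div_div, mul_comm]
  rw [het]
  have ht0 : 0 < t := lt_of_lt_of_le hS0 hSκ'
  have hexp : Real.exp (-(c1 * t)) ≤ Real.exp (-(t / K')) := by
    refine Real.exp_le_exp.2 (neg_le_neg ?_)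
    rw [div_le_iff₀ hK'0]
    have h1 : 1 ≤ c1 * K' := by
      rw [div_le_iff₀ hc10] at hK'c
      linarith
    calc t = t * 1 := (mul_one t).symm
      _ ≤ t * (c1 * K') := by gcongr
      _ = _ := by ring
  obtain ⟨p, hp⟩ : ∃ z : ℝ, z = 2 ^ 16 * A * (y * L) ^ 2 * Real.exp (-(c1 * t)) := ⟨_, rfl⟩
  have hp0 : 0 < p := by rw [hp]; positivity
  have hpK : 256 * p ≤ K' * (y * L) ^ 2 * Real.exp (-(t / K')) := by
    rw [hp]
    calc 256 * (2 ^ 16 * A * (y * L) ^ 2 * Real.exp (-(c1 * t))) =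
          (256 * (2 ^ 16 * A)) * (y * L) ^ 2 * Real.exp (-(c1 * t)) := by ring
      _ ≤ K' * (y * L) ^ 2 * Real.exp (-(t / K')) := by gcongr
  have hnn : nn 2 L (fun κ => A / κ) (2 ^ 14) (y ^ 2) * Real.exp (-(c1 * t)) = p := by
    rw [nn2 L A (y ^ 2) hy2, hp]
    ring
  rcases le_or_gt p (1 / 256) with hcase | hcase
  · have hκL : 1 / (4 * (L : ℝ) ^ 2) ≤ y ^ 2 := by
      rw [div_le_iff₀ (by positivity)]
      have h2 : 1 ^ 2 ≤ (y * L) ^ 2 := pow_le_pow_left₀ (by norm_num) (hK'1.trans hL) 2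
      rw [mul_pow] at h2
      linarith
    obtain ⟨E0, hE0, G0, hG0, hP0, hw0⟩ := good (HA L) μ hμ lam hlam 16 (by norm_num) hP16
      (y ^ 2) (1 / 8) hκL (by norm_num) le_rfl (by
        rw [hyy]
        have h1 : 16 ≤ c1 * S := by
          rw [div_le_iff₀ hc10] at hS1
          linarith
        refine h1.trans ?_
        gcongr) (by rw [hyy, hnn]; linarith)
    rw [hyy, hnn] at hP0
    have hap0 : ∀ V ∈ G0, Mc.ApE lam (y ^ 2 * (1 / 8)) E0 V := by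
      intro V hV
      obtain ⟨w, hw1, hw2⟩ := hw0 V hV
      exact Mc.of_sol lam (y ^ 2) (1 / 8) E0 hy2.le (by norm_num) V w hw1 hw2
    -- the flat torus
    obtain ⟨L1, hL1⟩ : ∃ n : ℕ, n = ⌈s / y⌉₊ := ⟨_, rfl⟩
    have hX0 : 0 < s / y := by positivity
    have hX1 : 1 ≤ s / y := by rw [le_div_iff₀ hy]; linarith
    have hL1ge : s / y ≤ L1 := by rw [hL1]; exact Nat.le_ceil _
    have hL1lt : (L1 : ℝ) < s / y + 1 := by rw [hL1]; exact Nat.ceil_lt_add_one hX0.le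
    have hL1le : (L1 : ℝ) ≤ 2 * s / y := by
      have : 2 * s / y = s / y + s / y := by ring
      linarith
    have hL10 : (0 : ℝ) < L1 := by linarith
    have : NeZero L1 := ⟨by
      intro h
      rw [h] at hL10
      simp at hL10⟩
    have hL1L : L1 ≤ L := by
      have h1 : (L1 : ℝ) ≤ L := by
        refine hL1le.trans ?_
        rw [div_le_iff₀ hy]
        linarith
      exact_mod_cast h1
    have hlL1 : lam ^ 2 * (L1 : ℝ) ^ 2 ≤ 4 * s ^ 2 / t := by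
      calc lam ^ 2 * (L1 : ℝ) ^ 2 ≤ lam ^ 2 * (2 * s / y) ^ 2 := by gcongr
        _ = 4 * s ^ 2 / t := by rw [ht]; field_simp; norm_num
    have hlL10 : 0 < lam ^ 2 * (L1 : ℝ) ^ 2 := by positivity
    have hkey : K * (lam ^ 2 * (L1 : ℝ) ^ 2) * (1 + Real.log (4 * K)) ≤ 1 := by
      have h1 : K * (lam ^ 2 * (L1 : ℝ) ^ 2) * (1 + Real.log (4 * K)) ≤
          K * (4 * s ^ 2 / t) * (1 + Real.log (4 * K)) := by gcongr
      have h2 : K * (4 * s ^ 2 / t) * (1 + Real.log (4 * K)) =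
          4 * s ^ 2 * K * (1 + Real.log (4 * K)) / t := by ring
      rw [h2] at h1
      refine h1.trans ?_
      rw [div_le_one ht0]
      linarith
    have hk1 : K * (lam ^ 2 * (L1 : ℝ) ^ 2) ≤ 1 := by
      have h1 : K * (lam ^ 2 * (L1 : ℝ) ^ 2) * 1 ≤
          K * (lam ^ 2 * (L1 : ℝ) ^ 2) * (1 + Real.log (4 * K)) := by
        gcongr
        linarith
      linarith
    have hk2 : Real.log (4 * K) ≤ 1 / (K * (lam ^ 2 * (L1 : ℝ) ^ 2)) := by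
      rw [le_div_iff₀ (by positivity)]
      have h1 : 0 ≤ K * (lam ^ 2 * (L1 : ℝ) ^ 2) := by positivity
      linarith
    obtain ⟨G1, hG1, hP1, hf1⟩ := hflat L1 hk1
    have hP1' : 1 / 2 < (Measure.pi fun _ : AE.T 2 L1 => μ).real G1 := by
      have h1 : K * Real.exp (-(1 / (K * (lam ^ 2 * (L1 : ℝ) ^ 2)))) ≤ 1 / 4 := by
        have h2 : Real.exp (-(1 / (K * (lam ^ 2 * (L1 : ℝ) ^ 2)))) ≤
            Real.exp (-Real.log (4 * K)) := Real.exp_le_exp.2 (neg_le_neg hk2)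
        rw [Real.exp_neg (Real.log _), Real.exp_log (by positivity)] at h2
        calc K * Real.exp (-(1 / (K * (lam ^ 2 * (L1 : ℝ) ^ 2)))) ≤ K * (4 * K)⁻¹ := by gcongr
          _ = 1 / 4 := by field_simp
      linarith
    have hel := Mc.el 2 (by norm_num) μ lam L1 L hL1L Es E0 (K / (L1 : ℝ) ^ 2)
      (y ^ 2 * (1 / 8)) G1 G0 hG1 hP1' (by
        have : 1 - 2 * p ≤ (Measure.pi fun _ : AE.T 2 L => μ).real G0 := hP0
        linarith) (fun V hV => Mc.of_flat lam η _ Es hη' V (hf1 V hV)) hap0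
    have hL12 : (K + 2048) / (L1 : ℝ) ^ 2 ≤ y ^ 2 / 4 := by
      rw [div_le_iff₀ (by positivity)]
      have h1 : s ≤ y ^ 2 * (L1 : ℝ) ^ 2 := by
        have h2 : s ≤ y * L1 := by
          rw [div_le_iff₀ hy] at hL1ge
          linarith
        have h3 : s ^ 2 ≤ (y * L1) ^ 2 := pow_le_pow_left₀ hs0.le h2 2
        rw [mul_pow] at h3
        have h4 : s * 1 ≤ s * s := by gcongr
        linarith [pow_two s]
      rw [hs] at h1
      linarith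
    have he : K / (L1 : ℝ) ^ 2 + 1024 * ((2 : ℕ) : ℝ) / (L1 : ℝ) ^ 2 =
        (K + 2048) / (L1 : ℝ) ^ 2 := by
      push_cast; ring
    have hEE : |Es - E0| ≤ y ^ 2 / 4 + y ^ 2 / 8 := by linarith
    obtain ⟨G, hG, hGP, hGV⟩ := Mc.torusBound μ lam (y ^ 2 * (1 / 8)) E0 (2 * p) G0 hG0 hP0
      hap0
    refine ⟨G, hG, by linarith, fun V hV f => ?_⟩
    refine le_trans (mul_le_mul_of_nonneg_right ?_ (Finset.sum_nonneg fun x _ => sq_nonneg _))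
      (hGV V hV f)
    have := (abs_le.1 hEE).2
    linarith
  · refine ⟨∅, MeasurableSet.empty, ?_, fun V hV => absurd hV (Set.notMem_empty V)⟩
    simp only [measureReal_empty]
    linarith

/-- one side, dimension two -/
theorem side2 (M : ℝ) (hM : 0 < M) :
    ∃ A : ℝ, 1 ≤ A ∧ ∀ (μ : Measure ℝ) [IsProbabilityMeasure μ], μ (Set.Icc (-1) 1)ᶜ = 0 →
    μ ≤ ENNReal.ofReal M • (volume : Measure ℝ) →
    ∀ lam : ℝ, 0 < lam → A * lam ≤ 1 → ∃ Es : ℝ, |Es| ≤ lam ∧ Flats 2 2 μ lam 1 Es A ∧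
    ∀ ν : Measure ℝ, Dos 2 μ lam ν →
      (∀ y : ℝ, 0 ≤ y → y ≤ 1 → (y + lam) ^ 2 / A ≤ ν.real (Set.Iic (Es + y ^ 2)) ∧
        ν.real (Set.Iic (Es + y ^ 2)) ≤ A * (y + lam) ^ 2) ∧
      (∀ y : ℝ, 0 ≤ y → y ≤ 1 →
        ν.real (Set.Iic (Es - y ^ 2)) ≤ A * lam ^ 2 * Real.exp (-(y ^ 2 / (A * lam ^ 2)))) ∧
      ∀ y : ℝ, 0 ≤ y → A * y ^ 2 ≤ lam →
        lam ^ 2 * Real.exp (-(A * (y ^ 2 / lam ^ 2))) / A ≤ ν.real (Set.Iic (Es - y ^ 2)) := by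
  obtain ⟨K0, hK0, H0⟩ := AN.F2.fin2 (M + 4 * M ^ 2) (by positivity) 1 one_pos le_rfl
  obtain ⟨K2, hK2⟩ : ∃ z : ℝ, z = K0 ^ 2 := ⟨_, rfl⟩
  have hK00 : 0 < K0 := by linarith
  have hK20 : 0 < K2 := by rw [hK2]; positivity
  have hK02 : K0 ≤ K2 := by
    rw [hK2, sq]
    exact le_mul_of_one_le_left hK00.le hK0
  obtain ⟨K1, hK1, H1⟩ := low2 K2 (by linarith) 1 le_rfl
  obtain ⟨K, hK⟩ : ∃ z : ℝ, z = K2 + K1 + 16 * M := ⟨_, rfl⟩
  have hK10 : 0 < K1 := by linarith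
  have hK' : 1 ≤ K := by rw [hK]; linarith
  have hKK0 : K2 ≤ K := by rw [hK]; linarith
  have hKK1 : K1 ≤ K := by rw [hK]; linarith
  have hKM : 16 * M ≤ K := by rw [hK]; linarith
  obtain ⟨b, C, hb, hC, hF⟩ := Fi.filt2 K (by linarith)
  obtain ⟨A0, hA0, HA⟩ := Av.win 2 2 (by norm_num) (by norm_num) (by norm_num) le_rfl K hK' b C
    hb.ne' hC hF 1 le_rfl
  obtain ⟨A, hA⟩ : ∃ z : ℝ, z = A0 + K := ⟨_, rfl⟩
  have hAA0 : A0 ≤ A := by rw [hA]; linarith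
  have hAK : K ≤ A := by rw [hA]; linarith
  have hA1 : 1 ≤ A := by linarith
  have hA00 : 0 < A0 := by linarith
  refine ⟨A, hA1, ?_⟩
  intro μ _ hμ hD lam hl hlA
  obtain ⟨Es, hEs, G1, -⟩ := H0 μ hμ (LO.Lw.reg_bdd μ M hM hμ hD) lam hl
    (le_trans (by have := (hK02.trans hKK0).trans hAK; gcongr) hlA)
  have hfl0 : Flats 2 2 μ lam 1 Es K2 := by
    intro L _ hL
    have hL0 : (0 : ℝ) < L := AE.Core.L_pos (L := L)
    have e1 : K2 * (lam ^ 2 * (L : ℝ) ^ 2) = (K0 * (lam * L)) ^ 2 := by rw [hK2]; ring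
    have h1 : K0 * (lam * L) ≤ 1 := by
      rw [e1] at hL
      have h2 : 0 ≤ K0 * (lam * L) := by positivity
      nlinarith
    obtain ⟨G, g1, g2, g3⟩ := G1 L h1
    have e2 : (lam * (L : ℝ)) ^ 2 = lam ^ 2 * (L : ℝ) ^ 2 := by ring
    rw [e2] at g2
    have h4 := D3.exp_mono K0 K2 (lam ^ 2 * (L : ℝ) ^ 2) hK00 hK02 (by positivity)
    refine ⟨G, g1, by linarith, fun V hV => ?_⟩
    obtain ⟨E0, ψ, j1, j2⟩ := g3 V hV
    refine ⟨E0, ψ, j1.trans ?_, j2⟩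
    exact div_le_div_of_nonneg_right hK02 (by positivity)
  have hlow1 := H1 μ hμ lam hl Es hfl0
  have hfl := flats_mono hl hK20 hKK0 hfl0
  have hlow := lows_mono hl hK10 hKK1 hlow1
  refine ⟨Es, hEs, flats_mono hl (by linarith) hAK hfl, ?_⟩
  intro ν hν
  have he0 : 1 / K ≤ e0 μ := by
    refine le_trans ?_ (e0_ge μ hμ M hM hD)
    exact one_div_le_one_div_of_le (by positivity) hKM
  obtain ⟨R1, R2, R3⟩ := HA μ hμ he0 lam hl (le_trans (by gcongr) hlA) Es hEs hfl hlow ν hν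
    lam hl le_rfl rfl
  refine ⟨fun y hy hy1 => ⟨?_, ?_⟩, fun y hy hy1 => ?_, fun y hy hyl => ?_⟩
  · refine le_trans ?_ (R1 y hy hy1).1
    gcongr
  · refine (R1 y hy hy1).2.trans ?_
    gcongr
  · refine (R2 y hy hy1).trans ?_
    gcongr
  · refine le_trans ?_ (R3 y hy (le_trans (by gcongr) hyl))
    gcongr

end Pool.Agent.K3h4.DS.D2
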