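import Pool.Agent.K3h4.DS.Fl
import Pool.Agent.K3h4.AN.G2

/-! The filter polynomial at a flat site. -/

set_option autoImplicit false

open scoped BigOperators
open MeasureTheory

namespace Pool.Agent.K3h4.DS.Fi

open Pool.Agent.H4R2.AE (T Hop)
open Pool.Agent.H541R3.AND.Trans
open Pool.Agent.H541R3.AND.Heat (QT)
open Pool.Agent.H541R3.AND.Deloc (q GoodAt)
open Pool.Agent.K3h4.AN.Dl (pol QL ql_symm ql_bounds filter cheb pol_moment pol_box)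

theorem filt (d : ℕ) (hd : 1 ≤ d) (hd4 : d < 4) (K : ℝ) (hK : 0 ≤ K) (b D : ℝ)
    (hb : 2 * (4 * (d : ℝ) + 1) ≤ b) (hb2 : 2 * (K + 2) ≤ b) (hD : 0 < D)
    (HT : ∀ (L : ℕ) [NeZero L] (lam E0 : ℝ) (V ψ : T d L → ℝ), (∀ x, 1 ≤ ψ x) → (∀ x, ψ x ≤ 2) →
      (∀ x, Hop lam V ψ x = E0 * ψ x) → ∀ (z : T d L) (n : ℕ),
        (∑ x, ((QT (E0 - 1 / (L : ℝ) ^ 2) b lam V)^[n] (Pi.single z 1) x) ^ 2) *
          (n : ℝ) ^ ((d : ℝ) / 2) ≤ D) :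
    ∃ C : ℝ, 0 < C ∧
    ∀ (h : ℕ) (lam Es : ℝ) (V : Zd d → ℝ) (x0 : Zd d), 0 < h → GoodAt h lam K Es V x0 →
      ∀ κ : ℝ, 4 / (h : ℝ) ^ 2 ≤ κ → κ ≤ 1 → ∃ (c0 : ℝ) (P : Polynomial ℝ), P.natDegree ≤ h ∧
        ∑ x ∈ box h x0, (pol P (QZ c0 b lam V) (Pi.single x0 1) x) ^ 2 ≤ C * κ ^ ((d : ℝ) / 2) ∧
        ∀ E : ℝ, E ≤ Es + κ → 1 / 4 ≤ P.eval (q c0 b E) := by
  have hd0 : (0 : ℝ) ≤ d := Nat.cast_nonneg d
  have hd4' : (d : ℝ) < 4 := by exact_mod_cast hd4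
  have hb0 : 0 < b := by linarith
  obtain ⟨B, hB⟩ : ∃ B : ℝ, B = 4 * (1 + 4 * D) / (1 - (d : ℝ) / 4) ^ 2 := ⟨_, rfl⟩
  have h14 : 0 < 1 - (d : ℝ) / 4 := by linarith
  have hB0 : 0 < B := by rw [hB]; positivity
  refine ⟨B * 4 ^ ((d : ℝ) / 2), by positivity, ?_⟩
  intro h lam Es V x0 hpos hgood κ hκh hκ1
  obtain ⟨E0, ψ, hE0, hψ, heig⟩ := hgood
  have hh0 : (0 : ℝ) < h := by exact_mod_cast hpos
  have hκ0 : 0 < κ := lt_of_lt_of_le (by positivity) hκh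
  obtain ⟨L, hL⟩ : ∃ L : ℕ, L = 2 * h + 1 := ⟨_, rfl⟩
  have hLh : ((2 * h + 1 : ℕ) : ℝ) = 2 * h + 1 := by push_cast; ring
  -- the number of steps
  have hs0 : 0 < Real.sqrt κ := Real.sqrt_pos.2 hκ0
  have hs1 : Real.sqrt κ ≤ 1 := Real.sqrt_le_one.2 hκ1
  have hss : Real.sqrt κ ^ 2 = κ := Real.sq_sqrt hκ0.le
  obtain ⟨r, hr⟩ : ∃ r : ℕ, r = ⌊1 / Real.sqrt κ⌋₊ := ⟨_, rfl⟩
  have hinv : 1 ≤ 1 / Real.sqrt κ := by rw [le_div_iff₀ hs0]; linarith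
  have hr1 : 1 ≤ r := by rw [hr]; exact Nat.floor_pos.2 hinv
  have hr1' : (1 : ℝ) ≤ r := by exact_mod_cast hr1
  have hrle : (r : ℝ) ≤ 1 / Real.sqrt κ := by rw [hr]; exact Nat.floor_le (by positivity)
  have hrlt : 1 / Real.sqrt κ < r + 1 := by rw [hr]; exact Nat.lt_floor_add_one _
  have hrge : 1 / Real.sqrt κ ≤ 2 * r := by linarith
  have hrs : (r : ℝ) * Real.sqrt κ ≤ 1 := by
    rw [le_div_iff₀ hs0] at hrle; exact hrle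
  have hrk : (r : ℝ) ^ 2 * κ ≤ 1 := by
    have : ((r : ℝ) * Real.sqrt κ) ^ 2 ≤ 1 := by
      have h0 : 0 ≤ (r : ℝ) * Real.sqrt κ := by positivity
      nlinarith
    rw [mul_pow, hss] at this
    exact this
  have hrh : 2 * (r - 1) ≤ h := by
    have h1 : (2 : ℝ) / h ≤ Real.sqrt κ := by
      apply Real.le_sqrt_of_sq_le
      refine le_trans (le_of_eq ?_) hκh
      field_simp
      norm_num
    have h2 : 2 * (r : ℝ) ≤ h := by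
      rw [div_le_iff₀ hh0] at h1
      have h3 : 2 * (r : ℝ) ≤ (Real.sqrt κ * h) * r :=
        mul_le_mul_of_nonneg_right h1 (by linarith)
      nlinarith
    have h3 : 2 * r ≤ h := by exact_mod_cast h2
    omega
  obtain ⟨P, hP1, hP2, hP3⟩ := cheb r hr1
  have hPh : P.natDegree ≤ h := hP1.trans hrh
  obtain ⟨c0, hc0⟩ : ∃ c0 : ℝ, c0 = E0 - 1 / ((2 * h + 1 : ℕ) : ℝ) ^ 2 := ⟨_, rfl⟩
  have hLκ : 1 / ((2 * h + 1 : ℕ) : ℝ) ^ 2 ≤ κ := by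
    refine le_trans ?_ hκh
    rw [hLh, div_le_div_iff₀ (by positivity) (by positivity)]
    nlinarith
  -- the torus estimate
  have hfil := filter (QL c0 b lam (VT h V x0)) (ql_symm c0 b lam (VT h V x0))
    (fun f => by
      rw [hc0]
      exact (ql_bounds b hb lam E0 (VT h V x0) ψ (fun x => (hψ x).1) (fun x => (hψ x).2) heig f).1)
    (fun f => by
      rw [hc0]
      exact (ql_bounds b hb lam E0 (VT h V x0) ψ (fun x => (hψ x).1) (fun x => (hψ x).2) heig f).2)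
    (Pi.single 0 1) ((d : ℝ) / 4) D (by positivity) (by linarith) hD.le
    (by
      rw [Finset.sum_eq_single 0]
      · simp
      · intro y _ hy
        rw [Pi.single_eq_of_ne hy]; simp
      · intro hn; exact absurd (Finset.mem_univ _) hn)
    (fun n => by
      have := HT (2 * h + 1) lam E0 (VT h V x0) ψ (fun x => (hψ x).1) (fun x => (hψ x).2) heig 0 n
      rw [← hc0] at this
      rw [show 2 * ((d : ℝ) / 4) = (d : ℝ) / 2 by ring]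
      exact this) (r ^ 2) (Nat.one_le_pow _ _ hr1) P hP2
  rw [show 2 * ((d : ℝ) / 4) = (d : ℝ) / 2 by ring, ← hB] at hfil
  obtain ⟨hp1, hp2⟩ := pol_box h c0 b lam V x0 P hPh
  have hfil' : (∑ x ∈ box h x0, (pol P (QZ c0 b lam V) (Pi.single x0 1) x) ^ 2) *
      (((r ^ 2 : ℕ) : ℝ)) ^ ((d : ℝ) / 2) ≤ B := by
    rw [hp2]; exact hfil
  obtain ⟨f, hf⟩ : ∃ f : Zd d → ℝ, f = pol P (QZ c0 b lam V) (Pi.single x0 1) := ⟨_, rfl⟩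
  rw [← hf] at hfil' hp1
  have hS0 : 0 ≤ ∑ x ∈ box h x0, f x ^ 2 := Finset.sum_nonneg fun x _ => sq_nonneg _
  have hS1 : ∑ x ∈ box h x0, f x ^ 2 ≤ B * 4 ^ ((d : ℝ) / 2) * κ ^ ((d : ℝ) / 2) := by
    have h1 : 1 ≤ (((r ^ 2 : ℕ) : ℝ)) ^ ((d : ℝ) / 2) * (4 ^ ((d : ℝ) / 2) * κ ^ ((d : ℝ) / 2)) := by
      rw [← Real.mul_rpow (by norm_num) hκ0.le, ← Real.mul_rpow (by positivity) (by positivity)]
      apply Real.one_le_rpow _ (by positivity)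
      rw [div_le_iff₀ hs0] at hrge
      push_cast
      have h2 : 1 ≤ (2 * (r : ℝ) * Real.sqrt κ) ^ 2 := by nlinarith
      rw [mul_pow, mul_pow, hss] at h2
      linarith
    calc ∑ x ∈ box h x0, f x ^ 2 ≤ (∑ x ∈ box h x0, f x ^ 2) *
          ((((r ^ 2 : ℕ) : ℝ)) ^ ((d : ℝ) / 2) * (4 ^ ((d : ℝ) / 2) * κ ^ ((d : ℝ) / 2))) :=
          le_mul_of_one_le_right hS0 h1
      _ = ((∑ x ∈ box h x0, f x ^ 2) * (((r ^ 2 : ℕ) : ℝ)) ^ ((d : ℝ) / 2)) *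
          (4 ^ ((d : ℝ) / 2) * κ ^ ((d : ℝ) / 2)) := by ring
      _ ≤ B * (4 ^ ((d : ℝ) / 2) * κ ^ ((d : ℝ) / 2)) :=
          mul_le_mul_of_nonneg_right hfil' (by positivity)
      _ = _ := by ring
  have hq : ∀ E : ℝ, E ≤ Es + κ → 1 / 4 ≤ P.eval (q c0 b E) := by
    intro E hE
    apply hP3
    have h1 : K / ((2 * h + 1 : ℕ) : ℝ) ^ 2 ≤ K * κ := by
      rw [div_eq_mul_one_div]
      exact mul_le_mul_of_nonneg_left hLκ hK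
    have h2 : E - c0 ≤ (K + 2) * κ := by
      rw [hc0]
      have := (abs_le.1 hE0).1
      linarith
    unfold q
    have h3 : 1 / b * (E - c0) ≤ 1 / b * ((K + 2) * κ) :=
      mul_le_mul_of_nonneg_left h2 (by positivity)
    have h4 : 1 / b * ((K + 2) * κ) ≤ 1 / (2 * (r : ℝ) ^ 2) := by
      rw [← mul_div_right_comm, one_mul, div_le_div_iff₀ hb0 (by positivity)]
      have h5 : (K + 2) * κ * (2 * (r : ℝ) ^ 2) = 2 * (K + 2) * ((r : ℝ) ^ 2 * κ) := by ring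
      rw [h5, one_mul]
      have h6 : 2 * (K + 2) * ((r : ℝ) ^ 2 * κ) ≤ 2 * (K + 2) * 1 :=
        mul_le_mul_of_nonneg_left hrk (by linarith)
      linarith
    linarith
  refine ⟨c0, P, hPh, ?_, hq⟩
  rw [hf] at hS1
  exact hS1


/-- dimension three -/
theorem filt3 (K : ℝ) (hK : 0 ≤ K) : ∃ b C : ℝ, 0 < b ∧ 0 < C ∧
    ∀ (h : ℕ) (lam Es : ℝ) (V : Zd 3 → ℝ) (x0 : Zd 3), 0 < h → GoodAt h lam K Es V x0 →
      ∀ κ : ℝ, 4 / (h : ℝ) ^ 2 ≤ κ → κ ≤ 1 → ∃ (c0 : ℝ) (P : Polynomial ℝ), P.natDegree ≤ h ∧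
        ∑ x ∈ box h x0, (pol P (QZ c0 b lam V) (Pi.single x0 1) x) ^ 2 ≤
          C * κ ^ (((3 : ℕ) : ℝ) / 2) ∧
        ∀ E : ℝ, E ≤ Es + κ → 1 / 4 ≤ P.eval (q c0 b E) := by
  have hb : 2 * (4 * (((3 : ℕ) : ℝ)) + 1) ≤ 2 * (4 * (((3 : ℕ) : ℝ)) + 1) + 2 * (K + 2) := by
    linarith
  obtain ⟨D, hD, HT⟩ := Pool.Agent.H541R3.AND.Heat.torus 3 le_rfl _ hb
  obtain ⟨C, hC, H⟩ := filt 3 (by norm_num) (by norm_num) K hK _ D hb (by push_cast; linarith) hD HT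
  exact ⟨_, C, by push_cast; linarith, hC, H⟩

/-- dimension two -/
theorem filt2 (K : ℝ) (hK : 0 ≤ K) : ∃ b C : ℝ, 0 < b ∧ 0 < C ∧
    ∀ (h : ℕ) (lam Es : ℝ) (V : Zd 2 → ℝ) (x0 : Zd 2), 0 < h → GoodAt h lam K Es V x0 →
      ∀ κ : ℝ, 4 / (h : ℝ) ^ 2 ≤ κ → κ ≤ 1 → ∃ (c0 : ℝ) (P : Polynomial ℝ), P.natDegree ≤ h ∧
        ∑ x ∈ box h x0, (pol P (QZ c0 b lam V) (Pi.single x0 1) x) ^ 2 ≤
          C * κ ^ (((2 : ℕ) : ℝ) / 2) ∧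
        ∀ E : ℝ, E ≤ Es + κ → 1 / 4 ≤ P.eval (q c0 b E) := by
  have hb : 2 * (4 * (((2 : ℕ) : ℝ)) + 1) ≤ 2 * (4 * (((2 : ℕ) : ℝ)) + 1) + 2 * (K + 2) := by
    linarith
  obtain ⟨D, hD, HT⟩ := Pool.Agent.K3h4.AN.G2.torus 2 le_rfl 36 (by norm_num)
    (fun L _ u g hu => Pool.Agent.K3h4.AN.G2.nashQ L u g hu) _ hb
  obtain ⟨C, hC, H⟩ := filt 2 (by norm_num) (by norm_num) K hK _ D hb (by push_cast; linarith) hD HT
  exact ⟨_, C, by push_cast; linarith, hC, H⟩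

end Pool.Agent.K3h4.DS.Fi
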