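import Pool.Agent.K3h4.DS.Av
import Pool.Agent.K3h4.DS.Fi
import Pool.Agent.K3h4.AN.F3
import Pool.Agent.K3h4.AN.F3b
import Pool.Agent.K3h4.AN.Sp

/-! Reflection of the density of states; the bounds in dimension three. -/

set_option autoImplicit false
set_option linter.unusedSectionVars false
set_option linter.unusedVariables false

open scoped BigOperators ENNReal
open MeasureTheory Filter Topology

namespace Pool.Agent.K3h4.DS.D3

open Pool.Agent.H4R2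
open Pool.Agent.H541R3.AND.Trans
open Pool.Agent.K3h4.DS.Mo
open Pool.Agent.K3h4.DS.Ex
open Pool.Agent.K3h4.DS.As (Flats Filt)
open Pool.Agent.K3h4.DS.At (Lows)
open Pool.Agent.K3h4.DS.Tb (e0 e0_ge)

theorem exp_mono (K K' x : ℝ) (hK : 0 < K) (hKK : K ≤ K') (hx : 0 < x) :
    K * Real.exp (-(1 / (K * x))) ≤ K' * Real.exp (-(1 / (K' * x))) := by
  have h1 : Real.exp (-(1 / (K * x))) ≤ Real.exp (-(1 / (K' * x))) := by
    refine Real.exp_le_exp.2 (neg_le_neg ?_)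
    apply one_div_le_one_div_of_le (by positivity)
    gcongr
  exact mul_le_mul hKK h1 (Real.exp_pos _).le (by linarith)

theorem flats_mono {d p : ℕ} {μ : Measure ℝ} {lam η Es K K' : ℝ} (hl : 0 < lam) (hK : 0 < K)
    (hKK : K ≤ K') (h : Flats d p μ lam η Es K) : Flats d p μ lam η Es K' := by
  intro L _ hL
  have hL0 : (0 : ℝ) < L := AE.Core.L_pos (L := L)
  have hx : 0 < lam ^ 2 * (L : ℝ) ^ p := by positivity
  obtain ⟨G, h1, h2, h3⟩ := h L (le_trans (by gcongr) hL)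
  have h4 := exp_mono K K' (lam ^ 2 * (L : ℝ) ^ p) hK hKK hx
  refine ⟨G, h1, by linarith, fun V hV => ?_⟩
  obtain ⟨E0, ψ, j1, j2⟩ := h3 V hV
  refine ⟨E0, ψ, j1.trans ?_, j2⟩
  exact div_le_div_of_nonneg_right hKK (by positivity)

theorem lows_mono {d p : ℕ} {μ : Measure ℝ} {lam Es K K' : ℝ} (hl : 0 < lam) (hK : 0 < K)
    (hKK : K ≤ K') (h : Lows d p μ lam Es K) : Lows d p μ lam Es K' := by
  intro y hy hy1 hyK L _ hL
  have hL0 : (0 : ℝ) < L := AE.Core.L_pos (L := L)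
  obtain ⟨G, h1, h2, h3⟩ := h y hy hy1 (le_trans (by gcongr) hyK) L (hKK.trans hL)
  refine ⟨G, h1, le_trans ?_ h2, h3⟩
  have h4 : Real.exp (-(y ^ p / (K * lam ^ 2))) ≤ Real.exp (-(y ^ p / (K' * lam ^ 2))) := by
    refine Real.exp_le_exp.2 (neg_le_neg ?_)
    gcongr
  have hK'0 : 0 < K' := by linarith
  have h5 : K * (y * L) ^ d * Real.exp (-(y ^ p / (K * lam ^ 2))) ≤
      K' * (y * L) ^ d * Real.exp (-(y ^ p / (K' * lam ^ 2))) := by gcongr
  linarith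

theorem law_neg (d : ℕ) (μ : Measure ℝ) [IsProbabilityMeasure μ] :
    (Measure.infinitePi fun _ : Fin d → ℤ => μ).map (fun ω x => -ω x) =
      Measure.infinitePi fun _ : Fin d → ℤ => μ.map fun t => -t :=
  Measure.infinitePi_map_pi (μ := fun _ : Fin d → ℤ => μ)
    (f := fun _ (s : ℝ) => -s) (fun _ => measurable_neg)

theorem dens_neg (μ : Measure ℝ) (M : ℝ) (hM : μ ≤ ENNReal.ofReal M • (volume : Measure ℝ)) :
    μ.map (fun t => -t) ≤ ENNReal.ofReal M • (volume : Measure ℝ) := by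
  refine (Measure.map_mono hM measurable_neg).trans ?_
  rw [Measure.map_smul]
  have : (volume : Measure ℝ).map (fun t => -t) = volume := Measure.map_neg_eq_self volume
  rw [this]

theorem supp_neg (μ : Measure ℝ) (h : μ (Set.Icc (-1) 1)ᶜ = 0) :
    (μ.map fun t => -t) (Set.Icc (-1) 1)ᶜ = 0 := by
  rw [Measure.map_apply measurable_neg measurableSet_Icc.compl]
  have : (fun t : ℝ => -t) ⁻¹' (Set.Icc (-1 : ℝ) 1)ᶜ = (Set.Icc (-1) 1)ᶜ := by
    ext t
    simp only [Set.mem_preimage, Set.mem_compl_iff, Set.mem_Icc]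
    constructor
    · intro h1 h2
      exact h1 ⟨by linarith [h2.2], by linarith [h2.1]⟩
    · intro h1 h2
      exact h1 ⟨by linarith [h2.2], by linarith [h2.1]⟩
  rw [this, h]

/-- the reflected density of states -/
theorem dos_flip {d : ℕ} {μ : Measure ℝ} [IsProbabilityMeasure μ] {lam : ℝ} {ν : Measure ℝ}
    (hμ : μ (Set.Icc (-1) 1)ᶜ = 0) (hl : 0 ≤ lam) (hl1 : lam ≤ 1) (hν : Dos d μ lam ν) :
    Dos d (μ.map fun t => -t) lam (ν.map fun E : ℝ => 4 * (d : ℝ) - E) := by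
  have := hν.1
  have hpr : IsProbabilityMeasure (μ.map fun t : ℝ => -t) :=
    Measure.isProbabilityMeasure_map measurable_neg.aemeasurable
  refine ⟨Measure.isFiniteMeasure_map ν _, fun n => ?_⟩
  obtain ⟨Q, hQ⟩ : ∃ Q : Polynomial ℝ, Q = (Polynomial.C (4 * (d : ℝ)) - Polynomial.X) ^ n :=
    ⟨_, rfl⟩
  have hQe : ∀ E : ℝ, Q.eval E = (4 * (d : ℝ) - E) ^ n := fun E => by rw [hQ]; simp
  obtain ⟨h1, h2, h3⟩ := dos_poly hμ hl hl1 hν Q
  simp only [hQe] at h1 h3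
  have hmeas : Measurable fun E : ℝ => 4 * (d : ℝ) - E := by fun_prop
  have hpow : AEStronglyMeasurable (fun E : ℝ => E ^ n) (ν.map fun E : ℝ => 4 * (d : ℝ) - E) := by
    apply Measurable.aestronglyMeasurable
    fun_prop
  refine ⟨?_, ?_⟩
  · rw [integrable_map_measure hpow hmeas.aemeasurable]
    exact h1
  · rw [integral_map hmeas.aemeasurable hpow, h3]
    have hneg : Measurable (fun (ω : (Fin d → ℤ) → ℝ) x => -ω x) := by fun_prop
    rw [← law_neg d μ, integral_map hneg.aemeasurable (mo_meas lam n).aestronglyMeasurable]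
    refine integral_congr_ae ?_
    filter_upwards [ae_bd μ hμ lam hl hl1] with ω hω
    obtain ⟨m, j1, j2, j3⟩ := ex_spec lam ω hω
    have j4 : Spm lam ω m := ⟨inferInstance, j3⟩
    have h5 := (spm_poly j4 Q).2
    rw [← h5]
    have h6 := (AN.Sp.spec_flip lam ω 0 m (fun j => by
      refine ⟨(j3 j).1, (j3 j).2⟩) n).2
    have hpow' : AEStronglyMeasurable (fun E : ℝ => E ^ n)
        (m.map fun E : ℝ => 4 * (d : ℝ) - E) := by
      apply Measurable.aestronglyMeasurable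
      fun_prop
    rw [integral_map hmeas.aemeasurable hpow'] at h6
    simp only [hQe]
    rw [h6]
    rfl

/-- one side, dimension three -/
theorem side3 (M : ℝ) (hM : 0 < M) :
    ∃ A : ℝ, 1 ≤ A ∧ ∀ (μ : Measure ℝ) [IsProbabilityMeasure μ], μ (Set.Icc (-1) 1)ᶜ = 0 →
    μ ≤ ENNReal.ofReal M • (volume : Measure ℝ) →
    ∀ lam : ℝ, 0 < lam → A * lam ≤ 1 → ∃ Es : ℝ, |Es| ≤ lam ∧ Flats 3 1 μ lam 1 Es A ∧
    ∀ ν : Measure ℝ, Dos 3 μ lam ν →
      (∀ y : ℝ, 0 ≤ y → y ≤ 1 → (y + lam ^ 2) ^ 3 / A ≤ ν.real (Set.Iic (Es + y ^ 2)) ∧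
        ν.real (Set.Iic (Es + y ^ 2)) ≤ A * (y + lam ^ 2) ^ 3) ∧
      (∀ y : ℝ, 0 ≤ y → y ≤ 1 →
        ν.real (Set.Iic (Es - y ^ 2)) ≤ A * lam ^ 6 * Real.exp (-(y / (A * lam ^ 2)))) ∧
      ∀ y : ℝ, 0 ≤ y → A * y ^ 2 ≤ lam →
        lam ^ 6 * Real.exp (-(A * (y / lam ^ 2))) / A ≤ ν.real (Set.Iic (Es - y ^ 2)) := by
  obtain ⟨K0, hK0, H0⟩ := AN.F3.fin3 (M + 4 * M ^ 2) (by positivity) 1 one_pos le_rfl
  obtain ⟨K1, hK1, H1⟩ := AN.F3.low3 K0 hK0 1 le_rfl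
  obtain ⟨K, hK⟩ : ∃ z : ℝ, z = K0 + K1 + 16 * M := ⟨_, rfl⟩
  have hK00 : 0 < K0 := by linarith
  have hK10 : 0 < K1 := by linarith
  have hK' : 1 ≤ K := by rw [hK]; linarith
  have hKK0 : K0 ≤ K := by rw [hK]; linarith
  have hKK1 : K1 ≤ K := by rw [hK]; linarith
  have hKM : 16 * M ≤ K := by rw [hK]; linarith
  obtain ⟨b, C, hb, hC, hF⟩ := Fi.filt3 K (by linarith)
  obtain ⟨A0, hA0, HA⟩ := Av.win 3 1 (by norm_num) (by norm_num) le_rfl (by norm_num) K hK' b C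
    hb.ne' hC hF 1 le_rfl
  obtain ⟨A, hA⟩ : ∃ z : ℝ, z = A0 + K := ⟨_, rfl⟩
  have hAA0 : A0 ≤ A := by rw [hA]; linarith
  have hAK : K ≤ A := by rw [hA]; linarith
  have hA1 : 1 ≤ A := by linarith
  have hA00 : 0 < A0 := by linarith
  refine ⟨A, hA1, ?_⟩
  intro μ _ hμ hD lam hl hlA
  obtain ⟨Es, hEs, G1, -⟩ := H0 μ hμ (LO.Lw.reg_bdd μ M hM hμ hD) lam hl
    (le_trans (by have := hKK0.trans hAK; gcongr) hlA)
  have hfl0 : Flats 3 1 μ lam 1 Es K0 := by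
    intro L _ hL
    simp only [pow_one] at hL ⊢
    exact G1 L hL
  have hlow1 : Lows 3 1 μ lam Es K1 := by
    intro y hy hy1 hyK L _ hL
    rw [pow_one] at hyK ⊢
    have hsq : Real.sqrt (y ^ 2) = y := Real.sqrt_sq hy.le
    have h2 := H1 μ hμ lam hl Es G1 (y ^ 2) (by
      have h3 : K1 * lam ^ 4 ≤ (K1 * lam ^ 2) ^ 2 := by
        have h4 : K1 * lam ^ 4 ≤ K1 * (K1 * lam ^ 4) := by
          have : 0 ≤ K1 * lam ^ 4 := by positivity
          exact le_mul_of_one_le_left this hK1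
        calc K1 * lam ^ 4 ≤ K1 * (K1 * lam ^ 4) := h4
          _ = _ := by ring
      exact h3.trans (pow_le_pow_left₀ (by positivity) hyK 2)) (pow_le_one₀ hy.le hy1) L
      (by rw [hsq]; exact hL)
    rw [hsq] at h2
    exact h2
  have hfl := flats_mono hl hK00 hKK0 hfl0
  have hlow := lows_mono hl hK10 hKK1 hlow1
  refine ⟨Es, hEs, flats_mono hl (by linarith) hAK hfl, ?_⟩
  intro ν hν
  have he0 : 1 / K ≤ e0 μ := by
    refine le_trans ?_ (e0_ge μ hμ M hM hD)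
    exact one_div_le_one_div_of_le (by positivity) hKM
  have hl1 : lam ≤ 1 := by
    have : 1 * lam ≤ A * lam := by gcongr
    linarith
  have hw : lam ^ 2 ≤ lam := by
    rw [sq]
    exact mul_le_of_le_one_right hl.le hl1
  obtain ⟨R1, R2, R3⟩ := HA μ hμ he0 lam hl (le_trans (by gcongr) hlA) Es hEs hfl hlow ν hν
    (lam ^ 2) (by positivity) hw (pow_one _)
  have hl6 : (lam ^ 2) ^ 3 = lam ^ 6 := by ring
  refine ⟨fun y hy hy1 => ⟨?_, ?_⟩, fun y hy hy1 => ?_, fun y hy hyl => ?_⟩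
  · refine le_trans ?_ (R1 y hy hy1).1
    gcongr
  · refine (R1 y hy hy1).2.trans ?_
    gcongr
  · have h1 := R2 y hy hy1
    rw [pow_one, hl6] at h1
    refine h1.trans ?_
    gcongr
  · have h1 := R3 y hy (le_trans (by gcongr) hyl)
    rw [pow_one, hl6] at h1
    refine le_trans ?_ h1
    gcongr

end Pool.Agent.K3h4.DS.D3
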