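import Pool.Agent.K3h4.DS.Fd

/-! Moments of the spectral measure at the origin; existence of the spectral measure and of the
density of states measure. -/

set_option autoImplicit false

open scoped BigOperators ENNReal
open MeasureTheory Filter Topology

namespace Pool.Agent.K3h4.DS.Ex

open Pool.Agent.H4R2.AE (T Hop)
open Pool.Agent.H541R3.AND.Trans
open Pool.Agent.H541R3.AND.Heat (QT)
open Pool.Agent.K3h4.AN.Dl (pol QL ql_symm)

/-- moments of the spectral measure of the origin -/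
noncomputable def mo {d : ℕ} (lam : ℝ) (V : Zd d → ℝ) (n : ℕ) : ℝ :=
  (HZ lam V)^[n] (Pi.single 0 1) 0

theorem hz_sup {d : ℕ} (lam : ℝ) (V : Zd d → ℝ) (hV : ∀ x, |lam * V x| ≤ 1) (f : Zd d → ℝ) (M : ℝ)
    (hf : ∀ x, |f x| ≤ M) (x : Zd d) : |HZ lam V f x| ≤ (4 * d + 1) * M := by
  have hM : 0 ≤ M := (abs_nonneg _).trans (hf x)
  unfold HZ
  have h1 : |∑ i : Fin d, (2 * f x - f (x + Pi.single i 1) - f (x - Pi.single i 1))| ≤
      ∑ _i : Fin d, 4 * M := by
    refine (Finset.abs_sum_le_sum_abs _ _).trans (Finset.sum_le_sum fun i _ => ?_)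
    have a1 := abs_le.1 (hf x)
    have a2 := abs_le.1 (hf (x + Pi.single i 1))
    have a3 := abs_le.1 (hf (x - Pi.single i 1))
    rw [abs_le]
    constructor <;> linarith [a1.1, a1.2, a2.1, a2.2, a3.1, a3.2]
  have h2 : |lam * V x * f x| ≤ 1 * M := by
    rw [abs_mul]
    exact mul_le_mul (hV x) (hf x) (abs_nonneg _) zero_le_one
  have h3 : ∑ _i : Fin d, 4 * M = 4 * d * M := by
    rw [Finset.sum_const, Finset.card_univ, Fintype.card_fin, nsmul_eq_mul]; ring
  have := abs_add_le (∑ i : Fin d, (2 * f x - f (x + Pi.single i 1) - f (x - Pi.single i 1)))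
    (lam * V x * f x)
  linarith

theorem hop_sup {d L : ℕ} (lam : ℝ) (V : T d L → ℝ) (hV : ∀ x, |lam * V x| ≤ 1) (f : T d L → ℝ)
    (M : ℝ) (hf : ∀ x, |f x| ≤ M) (x : T d L) : |Hop lam V f x| ≤ (4 * d + 1) * M := by
  have hM : 0 ≤ M := (abs_nonneg _).trans (hf x)
  unfold Hop
  have h1 : |∑ i : Fin d, (2 * f x - f (x + Pi.single i 1) - f (x - Pi.single i 1))| ≤
      ∑ _i : Fin d, 4 * M := by
    refine (Finset.abs_sum_le_sum_abs _ _).trans (Finset.sum_le_sum fun i _ => ?_)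
    have a1 := abs_le.1 (hf x)
    have a2 := abs_le.1 (hf (x + Pi.single i 1))
    have a3 := abs_le.1 (hf (x - Pi.single i 1))
    rw [abs_le]
    constructor <;> linarith [a1.1, a1.2, a2.1, a2.2, a3.1, a3.2]
  have h2 : |lam * V x * f x| ≤ 1 * M := by
    rw [abs_mul]
    exact mul_le_mul (hV x) (hf x) (abs_nonneg _) zero_le_one
  have h3 : ∑ _i : Fin d, 4 * M = 4 * d * M := by
    rw [Finset.sum_const, Finset.card_univ, Fintype.card_fin, nsmul_eq_mul]; ring
  have := abs_add_le (∑ i : Fin d, (2 * f x - f (x + Pi.single i 1) - f (x - Pi.single i 1)))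
    (lam * V x * f x)
  linarith

theorem it_bd {d : ℕ} (lam : ℝ) (V : Zd d → ℝ) (hV : ∀ x, |lam * V x| ≤ 1) (n : ℕ) (x : Zd d) :
    |(HZ lam V)^[n] (Pi.single 0 1) x| ≤ (4 * d + 1) ^ n := by
  induction n generalizing x with
  | zero =>
    simp only [Function.iterate_zero, id, pow_zero]
    by_cases hx : x = 0
    · subst hx; simp
    · rw [Pi.single_eq_of_ne hx]; simp
  | succ n ih =>
    rw [Function.iterate_succ_apply']
    refine (hz_sup lam V hV _ _ ih x).trans (le_of_eq ?_)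
    rw [pow_succ]; ring

theorem mo_bd {d : ℕ} (lam : ℝ) (V : Zd d → ℝ) (hV : ∀ x, |lam * V x| ≤ 1) (n : ℕ) :
    |mo lam V n| ≤ (4 * d + 1) ^ n := it_bd lam V hV n 0

theorem it_meas {d : ℕ} (lam : ℝ) (n : ℕ) (x : Zd d) :
    Measurable fun ω : Zd d → ℝ => (HZ lam ω)^[n] (Pi.single 0 1) x := by
  induction n generalizing x with
  | zero => exact measurable_const
  | succ n ih =>
    have e : (fun ω : Zd d → ℝ => (HZ lam ω)^[n + 1] (Pi.single 0 1) x) = fun ω =>
        ∑ i : Fin d, (2 * (HZ lam ω)^[n] (Pi.single 0 1) x -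
          (HZ lam ω)^[n] (Pi.single 0 1) (x + Pi.single i 1) -
          (HZ lam ω)^[n] (Pi.single 0 1) (x - Pi.single i 1)) +
          lam * ω x * (HZ lam ω)^[n] (Pi.single 0 1) x := by
      funext ω
      rw [Function.iterate_succ_apply']
      rfl
    rw [e]
    refine Measurable.add (Finset.measurable_sum _ fun i _ => ?_) ?_
    · exact (((ih x).const_mul 2).sub (ih _)).sub (ih _)
    · exact ((measurable_pi_apply x).const_mul lam).mul (ih x)

theorem mo_meas {d : ℕ} (lam : ℝ) (n : ℕ) : Measurable fun ω : Zd d → ℝ => mo lam ω n :=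
  it_meas lam n 0

theorem qz_eq {d : ℕ} (lam : ℝ) (V : Zd d → ℝ) : QZ 1 (-1) lam V = HZ lam V := by
  funext f x
  unfold QZ
  ring

theorem ql_eq {d L : ℕ} (lam : ℝ) (V f : T d L → ℝ) : QL 1 (-1) lam V f = Hop lam V f := by
  funext x
  show QT 1 (-1) lam V f x = Hop lam V f x
  unfold Pool.Agent.H541R3.AND.Heat.QT
  ring

theorem ql_it {d L : ℕ} (lam : ℝ) (V f : T d L → ℝ) (n : ℕ) :
    (QL 1 (-1) lam V)^[n] f = (QT 1 (-1) lam V)^[n] f := rfl

theorem mo_torus {d : ℕ} (lam : ℝ) (V : Zd d → ℝ) (n h : ℕ) (hn : n ≤ h) :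
    mo lam V n = (QL 1 (-1) lam (VT h V 0))^[n] (Pi.single 0 1) 0 := by
  have h1 := (matching h 1 (-1) lam V 0 n hn).1 0 (fun i => by simp)
  rw [qz_eq] at h1
  rw [ql_it]
  have e : pr (2 * h + 1) (0 : Zd d) = 0 := by funext i; simp [pr]
  rw [e, add_zero] at h1
  exact h1

theorem ql_sup {d L : ℕ} (lam : ℝ) (V : T d L → ℝ) (hV : ∀ x, |lam * V x| ≤ 1) (f : T d L → ℝ)
    (M : ℝ) (hf : ∀ x, |f x| ≤ M) (x : T d L) : |QL 1 (-1) lam V f x| ≤ (4 * d + 1) * M := by
  rw [ql_eq]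
  exact hop_sup lam V hV f M hf x

/-! ### Compactness -/

/-- the interval -/
abbrev X (R : ℝ) : Type := Set.Icc (-R) R

/-- powers as continuous functions -/
noncomputable def pw (R : ℝ) (n : ℕ) : BoundedContinuousFunction (X R) ℝ :=
  BoundedContinuousFunction.mkOfCompact ⟨fun x => (x : ℝ) ^ n, by fun_prop⟩

theorem pw_apply (R : ℝ) (n : ℕ) (x : X R) : pw R n x = (x : ℝ) ^ n := rfl

theorem cpt (R : ℝ) (P : ℕ → ProbabilityMeasure (X R)) (c : ℕ → ℝ)
    (h : ∀ n, ∀ᶠ k in atTop, ∫ x, pw R n x ∂(P k : Measure (X R)) = c n) :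
    ∃ Q : ProbabilityMeasure (X R), ∀ n, ∫ x, pw R n x ∂(Q : Measure (X R)) = c n := by
  obtain ⟨U, hU⟩ : ∃ U : Ultrafilter ℕ, (U : Filter ℕ) ≤ atTop :=
    ⟨Ultrafilter.of atTop, Ultrafilter.of_le atTop⟩
  obtain ⟨Q, hQ⟩ : ∃ Q : ProbabilityMeasure (X R),
      ((U.map P : Ultrafilter (ProbabilityMeasure (X R))) : Filter _) ≤ 𝓝 Q :=
    ⟨(U.map P).lim, Ultrafilter.le_nhds_lim _⟩
  refine ⟨Q, fun n => ?_⟩
  have h1 : Tendsto P U (𝓝 Q) := hQ
  have h2 := (ProbabilityMeasure.tendsto_iff_forall_integral_tendsto.1 h1) (pw R n)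
  have h3 : Tendsto (fun k => ∫ x, pw R n x ∂(P k : Measure (X R))) U (𝓝 (c n)) := by
    refine tendsto_const_nhds.congr' ?_
    filter_upwards [hU (h n)] with k hk
    exact hk.symm
  exact tendsto_nhds_unique h2 h3

/-- finite combinations of point masses -/
theorem pts (R : ℝ) (n : ℕ) (t w : Fin n → ℝ) (ht : ∀ i, |t i| ≤ R) (hw : ∀ i, 0 ≤ w i)
    (h1 : ∑ i, w i = 1) : ∃ P : ProbabilityMeasure (X R), ∀ j : ℕ,
      ∫ x, pw R j x ∂(P : Measure (X R)) = ∑ i, w i * t i ^ j := by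
  obtain ⟨s, hs⟩ : ∃ s : Fin n → X R, ∀ i, (s i : ℝ) = t i :=
    ⟨fun i => ⟨t i, abs_le.1 (ht i)⟩, fun i => rfl⟩
  obtain ⟨m, hm⟩ : ∃ m : Measure (X R), m = ∑ i, ENNReal.ofReal (w i) • Measure.dirac (s i) :=
    ⟨_, rfl⟩
  have hp : IsProbabilityMeasure m := by
    constructor
    rw [hm, Measure.finsetSum_apply]
    simp only [Measure.smul_apply, measure_univ, smul_eq_mul, mul_one]
    rw [← ENNReal.ofReal_sum_of_nonneg fun i _ => hw i, h1, ENNReal.ofReal_one]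
  refine ⟨⟨m, hp⟩, fun j => ?_⟩
  show ∫ x, pw R j x ∂m = _
  rw [hm, integral_finsetSum_measure]
  · refine Finset.sum_congr rfl fun i _ => ?_
    rw [integral_smul_measure, integral_dirac, ENNReal.toReal_ofReal (hw i), pw_apply, hs,
      smul_eq_mul]
  · intro i _
    exact ((pw R j).integrable _).smul_measure ENNReal.ofReal_ne_top

/-- the spectral measure of the origin exists -/
theorem exX {d : ℕ} (lam : ℝ) (V : Zd d → ℝ) (hV : ∀ x, |lam * V x| ≤ 1) :
    ∃ Q : ProbabilityMeasure (X (4 * d + 1)), ∀ n, ∫ x, pw _ n x ∂(Q : Measure (X (4 * d + 1))) =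
      mo lam V n := by
  have h1 : ∀ h : ℕ, ∃ P : ProbabilityMeasure (X (4 * d + 1)), ∀ n : ℕ, n ≤ h →
      ∫ x, pw _ n x ∂(P : Measure (X (4 * d + 1))) = mo lam V n := by
    intro h
    obtain ⟨n, t, w, ht, hw, hw1, hj⟩ := Fd.mz (QL 1 (-1) lam (VT h V 0))
      (ql_symm 1 (-1) lam (VT h V 0)) (4 * d + 1)
      (fun f M hf x => ql_sup lam (VT h V 0) (fun y => hV _) f M hf x) 0
    obtain ⟨P, hP⟩ := pts (4 * d + 1) n t w ht hw hw1
    refine ⟨P, fun j hjh => ?_⟩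
    rw [hP, mo_torus lam V j h hjh, hj]
  choose P hP using h1
  exact cpt _ P (mo lam V) fun n => by
    filter_upwards [eventually_ge_atTop n] with k hk
    exact hP k n hk

/-- moments of averages -/
theorem avX {Ω : Type*} [MeasurableSpace Ω] (μ : Measure Ω) [IsProbabilityMeasure μ] (R : ℝ)
    (F : Ω → ℕ → ℝ) (hm : ∀ n, Measurable fun ω => F ω n)
    (hF : ∀ᵐ ω ∂μ, ∃ Q : ProbabilityMeasure (X R), ∀ n, ∫ x, pw _ n x ∂(Q : Measure (X R)) = F ω n) :
    ∃ Q : ProbabilityMeasure (X R), ∀ n, ∫ x, pw _ n x ∂(Q : Measure (X R)) = ∫ ω, F ω n ∂μ := by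
  have hbd : ∀ n, ∃ C : ℝ, ∀ᵐ ω ∂μ, ‖F ω n‖ ≤ C := by
    intro n
    refine ⟨‖pw R n‖, ?_⟩
    filter_upwards [hF] with ω hω
    obtain ⟨Q, hQ⟩ := hω
    rw [← hQ n]
    refine (norm_integral_le_of_norm_le_const (C := ‖pw R n‖)
      (Eventually.of_forall fun x => (pw R n).norm_coe_le_norm x)).trans ?_
    simp
  have hint : ∀ n, Integrable (fun ω => F ω n) μ := by
    intro n
    obtain ⟨C, hC⟩ := hbd n
    exact Integrable.of_bound (hm n).aestronglyMeasurable C hC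
  have h1 : ∀ N : ℕ, ∃ Q : ProbabilityMeasure (X R), ∀ n : ℕ, n < N →
      ∫ x, pw _ n x ∂(Q : Measure (X R)) = ∫ ω, F ω n ∂μ := by
    intro N
    obtain ⟨Φ, hΦ⟩ : ∃ Φ : ProbabilityMeasure (X R) → (Fin N → ℝ),
        Φ = fun (Q : ProbabilityMeasure (X R)) (i : Fin N) =>
          ∫ x, pw R (i : ℕ) x ∂(Q : Measure (X R)) := ⟨_, rfl⟩
    have hcont : Continuous Φ := by
      rw [hΦ]
      exact continuous_pi fun i => ProbabilityMeasure.continuous_integral_boundedContinuousFunction _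
    have hcomp : IsCompact (Set.range Φ) := isCompact_range hcont
    have hconv : Convex ℝ (Set.range Φ) := by
      rintro _ ⟨P, rfl⟩ _ ⟨Q, rfl⟩ a b ha hb hab
      obtain ⟨m, hmm⟩ : ∃ m : Measure (X R), m = ENNReal.ofReal a • (P : Measure (X R)) +
        ENNReal.ofReal b • (Q : Measure (X R)) := ⟨_, rfl⟩
      have hp : IsProbabilityMeasure m := by
        constructor
        rw [hmm]
        simp only [Measure.add_apply, Measure.smul_apply, measure_univ, smul_eq_mul, mul_one]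
        rw [← ENNReal.ofReal_add ha hb, hab, ENNReal.ofReal_one]
      refine ⟨⟨m, hp⟩, ?_⟩
      rw [hΦ]
      funext i
      show ∫ x, pw R i x ∂m = a * ∫ x, pw R i x ∂(P : Measure (X R)) +
        b * ∫ x, pw R i x ∂(Q : Measure (X R))
      rw [hmm, integral_add_measure, integral_smul_measure, integral_smul_measure,
        ENNReal.toReal_ofReal ha, ENNReal.toReal_ofReal hb, smul_eq_mul, smul_eq_mul]
      · exact ((pw R i).integrable _).smul_measure ENNReal.ofReal_ne_top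
      · exact ((pw R i).integrable _).smul_measure ENNReal.ofReal_ne_top
    have hI : Integrable (fun ω => fun i : Fin N => F ω i) μ :=
      Integrable.of_eval fun i => hint i
    have := hconv.integral_mem (μ := μ) (f := fun ω => fun i : Fin N => F ω i) hcomp.isClosed
      (by
        filter_upwards [hF] with ω hω
        obtain ⟨Q, hQ⟩ := hω
        refine ⟨Q, ?_⟩
        rw [hΦ]
        funext i
        exact hQ i) hI
    obtain ⟨Q, hQ⟩ := this
    refine ⟨Q, fun n hn => ?_⟩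
    have h2 := congrFun hQ ⟨n, hn⟩
    rw [eval_integral fun i : Fin N => hint i] at h2
    rw [hΦ] at h2
    exact h2
  choose P hP using h1
  exact cpt _ P _ fun n => by
    filter_upwards [eventually_gt_atTop n] with k hk
    exact hP k n hk

theorem toR (R : ℝ) (Q : ProbabilityMeasure (X R)) : ∃ m : Measure ℝ, IsProbabilityMeasure m ∧
    (∀ᵐ (E : ℝ) ∂m, |E| ≤ R) ∧ ∀ n : ℕ, Integrable (fun E : ℝ => E ^ n) m ∧
      ∫ E, E ^ n ∂m = ∫ x, pw R n x ∂(Q : Measure (X R)) := by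
  have hv : Measurable (Subtype.val : X R → ℝ) := measurable_subtype_coe
  refine ⟨(Q : Measure (X R)).map Subtype.val, Measure.isProbabilityMeasure_map hv.aemeasurable,
    ?_, fun n => ?_⟩
  · rw [ae_map_iff hv.aemeasurable (measurableSet_le (by fun_prop) (by fun_prop))]
    exact Eventually.of_forall fun x => abs_le.2 x.2
  · have hpow : AEStronglyMeasurable (fun E : ℝ => E ^ n) ((Q : Measure (X R)).map Subtype.val) :=
      Measurable.aestronglyMeasurable (by fun_prop)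
    refine ⟨?_, ?_⟩
    · rw [integrable_map_measure hpow hv.aemeasurable]
      exact (pw R n).integrable _
    · rw [integral_map hv.aemeasurable hpow]
      rfl

/-- **existence of the spectral measure of the origin** -/
theorem ex_spec {d : ℕ} (lam : ℝ) (V : Zd d → ℝ) (hV : ∀ x, |lam * V x| ≤ 1) :
    ∃ m : Measure ℝ, IsProbabilityMeasure m ∧ (∀ᵐ (E : ℝ) ∂m, |E| ≤ 4 * d + 1) ∧
      ∀ n : ℕ, Integrable (fun E : ℝ => E ^ n) m ∧ ∫ E, E ^ n ∂m = mo lam V n := by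
  obtain ⟨Q, hQ⟩ := exX lam V hV
  obtain ⟨m, h1, h2, h3⟩ := toR _ Q
  exact ⟨m, h1, h2, fun n => ⟨(h3 n).1, by rw [(h3 n).2, hQ]⟩⟩

theorem ae_bd {d : ℕ} (μ : Measure ℝ) [IsProbabilityMeasure μ] (hμ : μ (Set.Icc (-1) 1)ᶜ = 0)
    (lam : ℝ) (hl : 0 ≤ lam) (hl1 : lam ≤ 1) :
    ∀ᵐ ω ∂(Measure.infinitePi fun _ : Zd d => μ), ∀ x, |lam * ω x| ≤ 1 := by
  rw [ae_all_iff]
  intro x
  have h1 : ∀ᵐ s ∂μ, |lam * s| ≤ 1 := by
    have h2 : ∀ᵐ s ∂μ, s ∈ Set.Icc (-1 : ℝ) 1 := by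
      rw [ae_iff]
      exact hμ
    filter_upwards [h2] with s hs
    rw [abs_mul, abs_of_nonneg hl]
    have : |s| ≤ 1 := abs_le.2 hs
    calc lam * |s| ≤ 1 * 1 := mul_le_mul hl1 this (abs_nonneg _) zero_le_one
      _ = 1 := one_mul 1
  have hmp : MeasurePreserving (Function.eval x)
      (Measure.infinitePi fun _ : Zd d => μ) μ :=
    measurePreserving_eval_infinitePi (fun _ : Zd d => μ) x
  exact hmp.quasiMeasurePreserving.ae h1

/-- **existence of the density of states measure** -/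
theorem ex_dos {d : ℕ} (μ : Measure ℝ) [IsProbabilityMeasure μ] (hμ : μ (Set.Icc (-1) 1)ᶜ = 0)
    (lam : ℝ) (hl : 0 ≤ lam) (hl1 : lam ≤ 1) :
    ∃ m : Measure ℝ, IsProbabilityMeasure m ∧ (∀ᵐ (E : ℝ) ∂m, |E| ≤ 4 * d + 1) ∧
      ∀ n : ℕ, Integrable (fun E : ℝ => E ^ n) m ∧
        ∫ E, E ^ n ∂m = ∫ ω, mo lam ω n ∂(Measure.infinitePi fun _ : Zd d => μ) := by
  obtain ⟨Q, hQ⟩ := avX (Measure.infinitePi fun _ : Zd d => μ) (4 * d + 1)
    (fun ω n => mo lam ω n) (mo_meas lam) (by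
      filter_upwards [ae_bd μ hμ lam hl hl1] with ω hω
      exact exX lam ω hω)
  obtain ⟨m, h1, h2, h3⟩ := toR _ Q
  exact ⟨m, h1, h2, fun n => ⟨(h3 n).1, by rw [(h3 n).2, hQ]⟩⟩

end Pool.Agent.K3h4.DS.Ex
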