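import Pool.Agent.K3h4.AN.Dl

/-! Finite dimensional spectral theory: eigenbasis, traces, counting of eigenvalues. -/

set_option autoImplicit false

open scoped BigOperators

namespace Pool.Agent.K3h4.DS.Fd

open Pool.Agent.K3h4.AN.Dl (pol pol_pow)

/-- orthonormal eigenbasis -/
theorem eb {ι : Type*} [Fintype ι] (A : (ι → ℝ) →ₗ[ℝ] (ι → ℝ))
    (hs : ∀ f g : ι → ℝ, ∑ x, A f x * g x = ∑ x, f x * A g x) :
    ∃ (n : ℕ) (t : Fin n → ℝ) (b : Fin n → ι → ℝ),
      (∀ i x, A (b i) x = t i * b i x) ∧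
      (∀ f g : ι → ℝ, ∑ x, f x * g x = ∑ i, (∑ x, b i x * f x) * (∑ x, b i x * g x)) ∧
      (∀ i, ∑ x, b i x ^ 2 = 1) := by
  classical
  set e := WithLp.linearEquiv 2 ℝ (ι → ℝ) with he
  set T : EuclideanSpace ℝ ι →ₗ[ℝ] EuclideanSpace ℝ ι :=
    e.symm.toLinearMap ∘ₗ A ∘ₗ e.toLinearMap with hT
  have hTapp : ∀ (v : EuclideanSpace ℝ ι) (x : ι), (T v) x = A (e v) x := fun v x => rfl
  have hsym : T.IsSymmetric := by
    intro v w
    rw [PiLp.inner_apply, PiLp.inner_apply]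
    simp only [hTapp]
    have h := hs (e v) (e w)
    have e1 : ∀ x : ι, inner ℝ (A (e v) x) (w x) = A (e v) x * (e w) x := fun x => by
      simp
      rw [mul_comm]
      rfl
    have e2 : ∀ x : ι, inner ℝ (v x) (A (e w) x) = (e v) x * A (e w) x := fun x => by
      simp
      rw [mul_comm]
      rfl
    rw [Finset.sum_congr rfl fun x _ => e1 x, Finset.sum_congr rfl fun x _ => e2 x]
    exact h
  set n := Module.finrank ℝ (EuclideanSpace ℝ ι) with hn
  set b := hsym.eigenvectorBasis (n := n) rfl with hb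
  set t := hsym.eigenvalues (n := n) rfl with ht
  have hin : ∀ (f g : ι → ℝ), inner ℝ (e.symm f) (e.symm g) = ∑ x, f x * g x := by
    intro f g
    rw [PiLp.inner_apply]
    refine Finset.sum_congr rfl fun x _ => ?_
    simp
    rw [mul_comm]
    rfl
  refine ⟨n, t, fun i => e (b i), fun i x => ?_, fun f g => ?_, fun i => ?_⟩
  · have heig : T (b i) = t i • b i := hsym.apply_eigenvectorBasis rfl i
    rw [← hTapp, heig]
    rfl
  · rw [← hin f g, ← b.sum_inner_mul_inner (e.symm f) (e.symm g)]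
    refine Finset.sum_congr rfl fun i _ => ?_
    have h1 : inner ℝ (e.symm f) (b i) = ∑ x, e (b i) x * f x := by
      have := hin f (e (b i))
      rw [e.symm_apply_apply] at this
      rw [this]
      exact Finset.sum_congr rfl fun x _ => mul_comm _ _
    have h2 : inner ℝ (b i) (e.symm g) = ∑ x, e (b i) x * g x := by
      have := hin (e (b i)) g
      rw [e.symm_apply_apply] at this
      exact this
    rw [h1, h2]
  · have h1 := hin (e (b i)) (e (b i))
    rw [e.symm_apply_apply, real_inner_self_eq_norm_sq, b.norm_eq_one] at h1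
    rw [show ∑ x, e (b i) x ^ 2 = ∑ x, e (b i) x * e (b i) x from
      Finset.sum_congr rfl fun x _ => pow_two _, ← h1]
    norm_num

section
variable {ι : Type*} [Fintype ι] {A : (ι → ℝ) →ₗ[ℝ] (ι → ℝ)} {n : ℕ} {t : Fin n → ℝ}
  {b : Fin n → ι → ℝ}

theorem pb (hs : ∀ f g : ι → ℝ, ∑ x, A f x * g x = ∑ x, f x * A g x)
    (h1 : ∀ i x, A (b i) x = t i * b i x) (f : ι → ℝ) (i : Fin n) (j : ℕ) :
    ∑ x, b i x * (A^[j] f) x = t i ^ j * ∑ x, b i x * f x := by
  induction j with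
  | zero => simp
  | succ j ih =>
    have h2 := hs (b i) (A^[j] f)
    have e1 : ∑ x, A (b i) x * (A^[j] f) x = t i * ∑ x, b i x * (A^[j] f) x := by
      rw [Finset.mul_sum]
      refine Finset.sum_congr rfl fun x _ => ?_
      rw [h1]; ring
    rw [e1, ih] at h2
    rw [Function.iterate_succ_apply', ← h2, pow_succ]
    ring

theorem pp (hs : ∀ f g : ι → ℝ, ∑ x, A f x * g x = ∑ x, f x * A g x)
    (h1 : ∀ i x, A (b i) x = t i * b i x) (P : Polynomial ℝ) (f : ι → ℝ) (i : Fin n) :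
    ∑ x, b i x * pol P A f x = P.eval (t i) * ∑ x, b i x * f x := by
  unfold pol
  have e1 : ∀ x, b i x * ∑ j ∈ Finset.range (P.natDegree + 1), P.coeff j * (A^[j] f) x =
      ∑ j ∈ Finset.range (P.natDegree + 1), P.coeff j * (b i x * (A^[j] f) x) := by
    intro x
    rw [Finset.mul_sum]
    exact Finset.sum_congr rfl fun j _ => by ring
  rw [Finset.sum_congr rfl fun x _ => e1 x, Finset.sum_comm, Polynomial.eval_eq_sum_range,
    Finset.sum_mul]
  refine Finset.sum_congr rfl fun j _ => ?_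
  rw [← Finset.mul_sum, pb hs h1]
  ring

/-- norm -/
theorem nrm (hs : ∀ f g : ι → ℝ, ∑ x, A f x * g x = ∑ x, f x * A g x)
    (h1 : ∀ i x, A (b i) x = t i * b i x)
    (h2 : ∀ f g : ι → ℝ, ∑ x, f x * g x = ∑ i, (∑ x, b i x * f x) * (∑ x, b i x * g x))
    (P : Polynomial ℝ) (f : ι → ℝ) :
    ∑ x, (pol P A f x) ^ 2 = ∑ i, (P.eval (t i)) ^ 2 * (∑ x, b i x * f x) ^ 2 := by
  rw [show ∑ x, (pol P A f x) ^ 2 = ∑ x, pol P A f x * pol P A f x from
    Finset.sum_congr rfl fun x _ => pow_two _, h2]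
  refine Finset.sum_congr rfl fun i _ => ?_
  rw [pp hs h1]
  ring

/-- moments -/
theorem mom (hs : ∀ f g : ι → ℝ, ∑ x, A f x * g x = ∑ x, f x * A g x)
    (h1 : ∀ i x, A (b i) x = t i * b i x)
    (h2 : ∀ f g : ι → ℝ, ∑ x, f x * g x = ∑ i, (∑ x, b i x * f x) * (∑ x, b i x * g x))
    (f : ι → ℝ) (j : ℕ) :
    ∑ x, f x * (A^[j] f) x = ∑ i, t i ^ j * (∑ x, b i x * f x) ^ 2 := by
  rw [h2]
  refine Finset.sum_congr rfl fun i _ => ?_
  rw [pb hs h1]
  ring

theorem tbd (h1 : ∀ i x, A (b i) x = t i * b i x) (h3 : ∀ i, ∑ x, b i x ^ 2 = 1) (R : ℝ)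
    (hR : ∀ (f : ι → ℝ) (M : ℝ), (∀ x, |f x| ≤ M) → ∀ x, |A f x| ≤ R * M) (i : Fin n) :
    |t i| ≤ R := by
  have hne : (Finset.univ : Finset ι).Nonempty := by
    by_contra h
    rw [Finset.not_nonempty_iff_eq_empty] at h
    have := h3 i
    rw [h] at this
    simp at this
  obtain ⟨x, -, hx⟩ := Finset.exists_max_image Finset.univ (fun x => |b i x|) hne
  have h4 := hR (b i) |b i x| (fun y => hx y (Finset.mem_univ _)) x
  rw [h1, abs_mul] at h4
  have h5 : 0 < |b i x| := by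
    by_contra h
    have h6 : |b i x| = 0 := le_antisymm (not_lt.1 h) (abs_nonneg _)
    have h7 := h3 i
    rw [Finset.sum_eq_zero fun y _ => by
      have h8 := hx y (Finset.mem_univ _)
      rw [h6] at h8
      have : b i y = 0 := abs_eq_zero.1 (le_antisymm h8 (abs_nonneg _))
      rw [this]; norm_num] at h7
    exact zero_ne_one h7
  exact le_of_mul_le_mul_right h4 h5

/-- min-max: counting eigenvalues below `E` -/
theorem mm (hs : ∀ f g : ι → ℝ, ∑ x, A f x * g x = ∑ x, f x * A g x)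
    (h1 : ∀ i x, A (b i) x = t i * b i x)
    (h2 : ∀ f g : ι → ℝ, ∑ x, f x * g x = ∑ i, (∑ x, b i x * f x) * (∑ x, b i x * g x))
    {κ : Type*} (C : Finset κ) (u : κ → ι → ℝ) (E : ℝ)
    (k1 : ∀ c ∈ C, ∑ x, u c x * A (u c) x < E * ∑ x, (u c x) ^ 2)
    (k2 : ∀ c ∈ C, ∀ c' ∈ C, c ≠ c' → ∀ x, u c x * u c' x = 0)
    (k3 : ∀ c ∈ C, ∀ c' ∈ C, c ≠ c' → ∀ x, u c x * A (u c') x = 0) :
    C.card ≤ (Finset.univ.filter fun i => t i < E).card := by
  classical
  by_contra hcon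
  push Not at hcon
  obtain ⟨Φ, hΦ⟩ : ∃ Φ : (C → ℝ) →ₗ[ℝ] ({i // t i < E} → ℝ),
      ∀ a i, Φ a i = ∑ c : C, a c * ∑ x, b i x * u c x := by
    refine ⟨{ toFun := fun a i => (∑ c : C, a c * ∑ x, b i x * u c x)
              map_add' := ?_
              map_smul' := ?_ }, fun a i => rfl⟩
    · intro a a'
      funext i
      simp only [Pi.add_apply, add_mul, Finset.sum_add_distrib]
    · intro r a
      funext i
      simp only [Pi.smul_apply, smul_eq_mul, RingHom.id_apply, Finset.mul_sum, mul_assoc]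
  have hker : LinearMap.ker Φ ≠ ⊥ := by
    apply LinearMap.ker_ne_bot_of_finrank_lt
    rw [Module.finrank_fintype_fun_eq_card, Module.finrank_fintype_fun_eq_card,
      Fintype.card_coe, Fintype.card_subtype]
    exact hcon
  obtain ⟨a, ha, ha0⟩ := (Submodule.ne_bot_iff _).1 hker
  have ha' : Φ a = 0 := ha
  obtain ⟨v, hv⟩ : ∃ v : ι → ℝ, v = ∑ c : C, a c • u c := ⟨_, rfl⟩
  have hvx : ∀ x, v x = ∑ c : C, a c * u c x := by
    intro x; rw [hv, Finset.sum_apply]; rfl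
  have hAv : ∀ x, A v x = ∑ c : C, a c * A (u c) x := by
    intro x
    rw [hv, map_sum, Finset.sum_apply]
    refine Finset.sum_congr rfl fun c _ => ?_
    rw [map_smul]; rfl
  have hb : ∀ i, t i < E → ∑ x, b i x * v x = 0 := by
    intro i hi
    have h4 := congrFun ha' ⟨i, hi⟩
    rw [hΦ] at h4
    simp only [hvx, Finset.mul_sum]
    rw [Finset.sum_comm]
    simp only [Finset.mul_sum] at h4
    rw [← show (0 : {i // t i < E} → ℝ) ⟨i, hi⟩ = 0 from rfl, ← h4]
    refine Finset.sum_congr rfl fun c _ => Finset.sum_congr rfl fun x _ => by ring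
  have q1 : ∑ x, v x * A v x = ∑ c : C, a c ^ 2 * ∑ x, u c x * A (u c) x := by
    have e1 : ∀ x, v x * A v x = ∑ c : C, a c ^ 2 * (u c x * A (u c) x) := by
      intro x
      rw [hvx, hAv, Finset.sum_mul]
      refine Finset.sum_congr rfl fun c _ => ?_
      rw [Finset.mul_sum, Finset.sum_eq_single c]
      · ring
      · intro c' _ hc'
        have h5 := k3 c c.2 c' c'.2 (fun h => hc' (Subtype.ext h.symm)) x
        calc a c * u c x * (a c' * A (u c') x) = a c * a c' * (u c x * A (u c') x) := by ring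
          _ = 0 := by rw [h5, mul_zero]
      · intro h; exact absurd (Finset.mem_univ c) h
    rw [Finset.sum_congr rfl fun x _ => e1 x, Finset.sum_comm]
    exact Finset.sum_congr rfl fun c _ => by rw [Finset.mul_sum]
  have q2 : ∑ x, v x ^ 2 = ∑ c : C, a c ^ 2 * ∑ x, (u c x) ^ 2 := by
    have e1 : ∀ x, v x ^ 2 = ∑ c : C, a c ^ 2 * (u c x) ^ 2 := by
      intro x
      rw [pow_two, hvx, Finset.sum_mul]
      refine Finset.sum_congr rfl fun c _ => ?_
      rw [Finset.mul_sum, Finset.sum_eq_single c]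
      · ring
      · intro c' _ hc'
        have h5 := k2 c c.2 c' c'.2 (fun h => hc' (Subtype.ext h.symm)) x
        calc a c * u c x * (a c' * u c' x) = a c * a c' * (u c x * u c' x) := by ring
          _ = 0 := by rw [h5, mul_zero]
      · intro h; exact absurd (Finset.mem_univ c) h
    rw [Finset.sum_congr rfl fun x _ => e1 x, Finset.sum_comm]
    exact Finset.sum_congr rfl fun c _ => by rw [Finset.mul_sum]
  have q3 : ∑ x, v x * A v x = ∑ i, t i * (∑ x, b i x * v x) ^ 2 := by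
    have := mom hs h1 h2 v 1
    simpa using this
  have q4 : ∑ x, v x ^ 2 = ∑ i, (∑ x, b i x * v x) ^ 2 := by
    rw [show ∑ x, v x ^ 2 = ∑ x, v x * v x from Finset.sum_congr rfl fun x _ => pow_two _, h2]
    exact Finset.sum_congr rfl fun i _ => (pow_two _).symm
  have q5 : E * ∑ x, v x ^ 2 ≤ ∑ x, v x * A v x := by
    rw [q3, q4, Finset.mul_sum]
    refine Finset.sum_le_sum fun i _ => ?_
    rcases lt_or_ge (t i) E with hi | hi
    · rw [hb i hi]; simp
    · exact mul_le_mul_of_nonneg_right hi (sq_nonneg _)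
  have q6 : ∑ x, v x * A v x < E * ∑ x, v x ^ 2 := by
    rw [q1, q2, Finset.mul_sum]
    obtain ⟨c0, hc0⟩ : ∃ c, a c ≠ 0 := by
      by_contra h
      push Not at h
      exact ha0 (funext h)
    refine Finset.sum_lt_sum (fun c _ => ?_) ⟨c0, Finset.mem_univ _, ?_⟩
    · have h5 := (k1 c c.2).le
      calc a c ^ 2 * ∑ x, u c x * A (u c) x ≤ a c ^ 2 * (E * ∑ x, (u c x) ^ 2) :=
            mul_le_mul_of_nonneg_left h5 (sq_nonneg _)
        _ = _ := by ring
    · have h5 := k1 c0 c0.2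
      have h6 : 0 < a c0 ^ 2 := by positivity
      calc a c0 ^ 2 * ∑ x, u c0 x * A (u c0) x < a c0 ^ 2 * (E * ∑ x, (u c0 x) ^ 2) :=
            mul_lt_mul_of_pos_left h5 h6
        _ = _ := by ring
  linarith

end

/-- lower bound of the trace of a polynomial -/
theorem tr {ι : Type*} [Fintype ι] [DecidableEq ι] (A : (ι → ℝ) →ₗ[ℝ] (ι → ℝ))
    (hs : ∀ f g : ι → ℝ, ∑ x, A f x * g x = ∑ x, f x * A g x) (R : ℝ)
    (hR : ∀ (f : ι → ℝ) (M : ℝ), (∀ x, |f x| ≤ M) → ∀ x, |A f x| ≤ R * M)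
    (P : Polynomial ℝ) (E : ℝ) (hP : ∀ s : ℝ, |s| ≤ R → s < E → 1 ≤ (P.eval s) ^ 2)
    {κ : Type*} (C : Finset κ) (u : κ → ι → ℝ)
    (k1 : ∀ c ∈ C, ∑ x, u c x * A (u c) x < E * ∑ x, (u c x) ^ 2)
    (k2 : ∀ c ∈ C, ∀ c' ∈ C, c ≠ c' → ∀ x, u c x * u c' x = 0)
    (k3 : ∀ c ∈ C, ∀ c' ∈ C, c ≠ c' → ∀ x, u c x * A (u c') x = 0) :
    (C.card : ℝ) ≤ ∑ z, ∑ x, (pol P A (Pi.single z 1) x) ^ 2 := by
  obtain ⟨n, t, b, h1, h2, h3⟩ := eb A hs
  have hc := mm hs h1 h2 C u E k1 k2 k3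
  have e1 : ∑ z, ∑ x, (pol P A (Pi.single z 1) x) ^ 2 = ∑ i, (P.eval (t i)) ^ 2 := by
    have e2 : ∀ z, ∑ x, (pol P A (Pi.single z 1) x) ^ 2 =
        ∑ i, (P.eval (t i)) ^ 2 * (b i z) ^ 2 := by
      intro z
      rw [nrm hs h1 h2]
      refine Finset.sum_congr rfl fun i _ => ?_
      congr 2
      rw [Finset.sum_eq_single z]
      · rw [Pi.single_eq_same, mul_one]
      · intro y _ hy
        rw [Pi.single_eq_of_ne hy, mul_zero]
      · intro h; exact absurd (Finset.mem_univ z) h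
    rw [Finset.sum_congr rfl fun z _ => e2 z, Finset.sum_comm]
    refine Finset.sum_congr rfl fun i _ => ?_
    rw [← Finset.mul_sum, h3, mul_one]
  rw [e1]
  calc (C.card : ℝ) ≤ ((Finset.univ.filter fun i => t i < E).card : ℝ) := by exact_mod_cast hc
    _ = ∑ i ∈ Finset.univ.filter fun i => t i < E, (1 : ℝ) := by simp
    _ ≤ ∑ i ∈ Finset.univ.filter fun i => t i < E, (P.eval (t i)) ^ 2 := by
        refine Finset.sum_le_sum fun i hi => ?_
        exact hP (t i) (tbd h1 h3 R hR i) (Finset.mem_filter.1 hi).2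
    _ ≤ ∑ i, (P.eval (t i)) ^ 2 :=
        Finset.sum_le_sum_of_subset_of_nonneg (Finset.filter_subset _ _) fun i _ _ => sq_nonneg _

/-- moments of a coordinate vector -/
theorem mz {ι : Type*} [Fintype ι] [DecidableEq ι] (A : (ι → ℝ) →ₗ[ℝ] (ι → ℝ))
    (hs : ∀ f g : ι → ℝ, ∑ x, A f x * g x = ∑ x, f x * A g x) (R : ℝ)
    (hR : ∀ (f : ι → ℝ) (M : ℝ), (∀ x, |f x| ≤ M) → ∀ x, |A f x| ≤ R * M) (z : ι) :
    ∃ (n : ℕ) (t w : Fin n → ℝ), (∀ i, |t i| ≤ R) ∧ (∀ i, 0 ≤ w i) ∧ ∑ i, w i = 1 ∧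
      ∀ j : ℕ, (A^[j] (Pi.single z 1)) z = ∑ i, w i * t i ^ j := by
  obtain ⟨n, t, b, h1, h2, h3⟩ := eb A hs
  have e0 : ∀ i, ∑ x, b i x * (Pi.single z 1 : ι → ℝ) x = b i z := by
    intro i
    rw [Finset.sum_eq_single z]
    · rw [Pi.single_eq_same, mul_one]
    · intro y _ hy
      rw [Pi.single_eq_of_ne hy, mul_zero]
    · intro h; exact absurd (Finset.mem_univ z) h
  have e1 : ∀ g : ι → ℝ, ∑ x, (Pi.single z 1 : ι → ℝ) x * g x = g z := by
    intro g
    rw [Finset.sum_eq_single z]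
    · rw [Pi.single_eq_same, one_mul]
    · intro y _ hy
      rw [Pi.single_eq_of_ne hy, zero_mul]
    · intro h; exact absurd (Finset.mem_univ z) h
  have e2 : ∀ j : ℕ, (A^[j] (Pi.single z 1)) z = ∑ i, (b i z) ^ 2 * t i ^ j := by
    intro j
    have := mom hs h1 h2 (Pi.single z 1) j
    rw [e1] at this
    rw [this]
    refine Finset.sum_congr rfl fun i _ => ?_
    rw [e0]; ring
  refine ⟨n, t, fun i => (b i z) ^ 2, tbd h1 h3 R hR, fun i => sq_nonneg _, ?_, e2⟩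
  have := e2 0
  simpa using this.symm

end Pool.Agent.K3h4.DS.Fd
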