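import Pool.Agent.K3h4.DS.Mo

/-! Chebyshev filters below the spectrum of a torus. -/

set_option autoImplicit false
set_option linter.unusedSectionVars false

open scoped BigOperators ENNReal
open MeasureTheory Filter Topology

namespace Pool.Agent.K3h4.DS.Fl

open Pool.Agent.H4R2.AE (T Hop)
open Pool.Agent.H541R3.AND.Trans
open Pool.Agent.H541R3.AND.Heat (QT)
open Pool.Agent.H541R3.AND.Deloc (q GoodAt)
open Pool.Agent.K3h4.AN.Dl (pol QL ql_symm pol_moment pol_box)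
open Pool.Agent.K3h4.DS.Ex
open Pool.Agent.K3h4.DS.Mo
open Polynomial.Chebyshev (one_le_eval_T_real abs_eval_T_real_le_one)

theorem cosh_sq (θ : ℝ) (h0 : 0 ≤ θ) (h1 : θ ≤ 1) : Real.cosh θ ≤ 1 + θ ^ 2 := by
  refine (Real.cosh_le_exp_half_sq θ).trans ?_
  have h2 : θ ^ 2 / 2 ≤ 1 / 2 := by nlinarith
  have h3 : Real.exp (θ ^ 2 / 2) ≤ 1 / (1 - θ ^ 2 / 2) := by
    have h4 := Real.one_sub_le_exp_neg (θ ^ 2 / 2)
    rw [Real.exp_neg] at h4
    rw [le_div_iff₀ (by linarith)]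
    have h5 := Real.exp_pos (θ ^ 2 / 2)
    calc Real.exp (θ ^ 2 / 2) * (1 - θ ^ 2 / 2) ≤ Real.exp (θ ^ 2 / 2) * (Real.exp (θ ^ 2 / 2))⁻¹ := by
          gcongr
      _ = 1 := mul_inv_cancel₀ h5.ne'
  refine h3.trans ?_
  rw [div_le_iff₀ (by linarith)]
  have : 0 ≤ θ ^ 2 := sq_nonneg _
  nlinarith

theorem T_low (n : ℕ) (δ y : ℝ) (h0 : 0 ≤ δ) (h1 : δ ≤ 1) (hy : 1 + δ ≤ y) :
    Real.exp (n * Real.sqrt δ) / 2 ≤ (Polynomial.Chebyshev.T ℝ (n : ℤ)).eval y := by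
  have hy1 : 1 ≤ y := by linarith
  obtain ⟨θ, hθ⟩ : ∃ θ, θ = Real.arcosh y := ⟨_, rfl⟩
  have hc : Real.cosh θ = y := by rw [hθ]; exact Real.cosh_arcosh hy1
  have hθ0 : 0 ≤ θ := by rw [hθ]; exact Real.arcosh_nonneg hy1
  have hs0 : 0 ≤ Real.sqrt δ := Real.sqrt_nonneg _
  have hs1 : Real.sqrt δ ≤ 1 := Real.sqrt_le_one.2 h1
  have h2 : Real.cosh (Real.sqrt δ) ≤ Real.cosh θ := by
    rw [hc]
    refine (cosh_sq _ hs0 hs1).trans ?_
    rw [Real.sq_sqrt h0]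
    exact hy
  rw [Real.cosh_le_cosh, abs_of_nonneg hs0, abs_of_nonneg hθ0] at h2
  rw [← hc, Polynomial.Chebyshev.T_real_cosh]
  have h3 : Real.exp (n * Real.sqrt δ) ≤ Real.exp (((n : ℤ) : ℝ) * θ) := by
    apply Real.exp_le_exp.2
    push_cast
    exact mul_le_mul_of_nonneg_left h2 (Nat.cast_nonneg n)
  rw [Real.cosh_eq]
  have := Real.exp_pos (-(((n : ℤ) : ℝ) * θ))
  linarith

/-- **the filter bound below the spectrum of the torus** -/
theorem fil2 {d : ℕ} (hd : 1 ≤ d) (lam : ℝ) (V : Zd d → ℝ) (hV : ∀ x, |lam * V x| ≤ 1) (c0 b : ℝ)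
    (hb : b ≠ 0) (h h0 n : ℕ) (P0 : Polynomial ℝ) (hdeg : P0.natDegree ≤ h0) (hdeg' : h0 + n ≤ h)
    (B : ℝ) (hB : ∑ x ∈ box h0 (0 : Zd d), (pol P0 (QZ c0 b lam V) (Pi.single 0 1) x) ^ 2 ≤ B)
    (a1 κ : ℝ) (ha1 : |a1| ≤ 1) (hκ : 0 < κ) (hκ1 : κ ≤ 1)
    (hform : ∀ f : T d (2 * h + 1) → ℝ, a1 * ∑ x, f x ^ 2 ≤ ∑ x, f x * Hop lam (VT h V 0) f x)
    (g : ℝ) (hg0 : 0 ≤ g) (hg : ∀ E : ℝ, E ≤ a1 - κ → g ≤ (P0.eval (q c0 b E)) ^ 2)
    (m : Measure ℝ) (hm : Spm lam V m) :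
    m.real (Set.Iic (a1 - κ)) * g ≤
      4 * B * Real.exp (-(2 * (n * Real.sqrt (2 * κ / (4 * d + 1 - a1))))) := by
  have := hm.1
  have hd1 : (1 : ℝ) ≤ d := by exact_mod_cast hd
  obtain ⟨W, hW⟩ : ∃ W : ℝ, W = 4 * d + 1 - a1 := ⟨_, rfl⟩
  obtain ⟨ha, ha'⟩ := abs_le.1 ha1
  have hW2 : 2 ≤ W := by rw [hW]; linarith
  have hW0 : 0 < W := by linarith
  rw [← hW]
  obtain ⟨α, hα⟩ : ∃ α : ℝ, α = 2 * b / W := ⟨_, rfl⟩
  obtain ⟨β, hβ⟩ : ∃ β : ℝ, β = 1 + 2 / W * (a1 - c0 - b) := ⟨_, rfl⟩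
  obtain ⟨Q, hQ⟩ : ∃ Q : Polynomial ℝ, Q = (Polynomial.Chebyshev.T ℝ (n : ℤ)).comp
    (Polynomial.C α * Polynomial.X + Polynomial.C β) := ⟨_, rfl⟩
  have hQev : ∀ t : ℝ, Q.eval t = (Polynomial.Chebyshev.T ℝ (n : ℤ)).eval (α * t + β) := by
    intro t
    rw [hQ, Polynomial.eval_comp]
    simp
  have hQdeg : Q.natDegree ≤ n := by
    rw [hQ]
    refine Polynomial.natDegree_comp_le.trans ?_
    have h1 : (Polynomial.C α * Polynomial.X + Polynomial.C β).natDegree ≤ 1 :=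
      Polynomial.natDegree_linear_le
    have h2 : (Polynomial.Chebyshev.T ℝ (n : ℤ)).natDegree ≤ n := by
      rw [Polynomial.Chebyshev.natDegree_T]
      simp
    calc _ ≤ n * 1 := Nat.mul_le_mul h2 h1
      _ = n := mul_one n
  have hy : ∀ E : ℝ, α * q c0 b E + β = 1 + 2 / W * (a1 - E) := by
    intro E
    rw [hα, hβ]
    unfold q
    field_simp
    ring
  have hPQ : (P0 * Q).natDegree ≤ h :=
    Polynomial.natDegree_mul_le.trans (by omega)
  obtain ⟨j1, j2⟩ := pol_moment c0 b lam V (P0 * Q) 0 h hPQ m hm.2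
  obtain ⟨j3, j4⟩ := pol_moment c0 b lam V P0 0 h (by omega) m hm.2
  obtain ⟨j5, j6⟩ := pol_moment c0 b lam V P0 0 h0 hdeg m hm.2
  -- the torus
  have key : ∑ t : T d (2 * h + 1), (pol (P0 * Q) (QT c0 b lam (VT h V 0)) (Pi.single 0 1) t) ^ 2 ≤
      ∑ t : T d (2 * h + 1), (pol P0 (QT c0 b lam (VT h V 0)) (Pi.single 0 1) t) ^ 2 := by
    have hs := ql_symm c0 b lam (VT h V 0)
    obtain ⟨N, t, bb, h1, h2, h3⟩ := Fd.eb (QL c0 b lam (VT h V 0)) hs
    have e1 := Fd.nrm hs h1 h2 (P0 * Q) (Pi.single 0 1)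
    have e2 := Fd.nrm hs h1 h2 P0 (Pi.single 0 1)
    have e1' : ∑ t : T d (2 * h + 1), (pol (P0 * Q) (QT c0 b lam (VT h V 0)) (Pi.single 0 1) t) ^ 2 =
      ∑ t : T d (2 * h + 1), (pol (P0 * Q) (QL c0 b lam (VT h V 0)) (Pi.single 0 1) t) ^ 2 := rfl
    have e2' : ∑ t : T d (2 * h + 1), (pol P0 (QT c0 b lam (VT h V 0)) (Pi.single 0 1) t) ^ 2 =
      ∑ t : T d (2 * h + 1), (pol P0 (QL c0 b lam (VT h V 0)) (Pi.single 0 1) t) ^ 2 := rfl
    rw [e1', e2', e1, e2]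
    refine Finset.sum_le_sum fun i _ => ?_
    refine mul_le_mul_of_nonneg_right ?_ (sq_nonneg _)
    -- the eigenvalue
    obtain ⟨E, hE⟩ : ∃ E : ℝ, E = c0 + b * (1 - t i) := ⟨_, rfl⟩
    have hti : t i = q c0 b E := by
      rw [hE]; unfold q; field_simp; ring
    have hHop : ∀ x, Hop lam (VT h V 0) (bb i) x = E * bb i x := by
      intro x
      have h4 := h1 i x
      have h5 : QL c0 b lam (VT h V 0) (bb i) x =
        bb i x - 1 / b * (Hop lam (VT h V 0) (bb i) x - c0 * bb i x) := rfl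
      rw [h5] at h4
      rw [hE]
      field_simp at h4
      linarith
    have hElow : a1 ≤ E := by
      have h4 := hform (bb i)
      have h5 : ∑ x, bb i x * Hop lam (VT h V 0) (bb i) x = E := by
        have e : ∀ x, bb i x * Hop lam (VT h V 0) (bb i) x = E * bb i x ^ 2 := by
          intro x; rw [hHop]; ring
        rw [Finset.sum_congr rfl fun x _ => e x, ← Finset.mul_sum, h3, mul_one]
      rw [h5, h3, mul_one] at h4
      exact h4
    have hEup : E ≤ 4 * d + 1 := by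
      have h4 : ∀ (i' : Fin 1) x, QL 1 (-1) lam (VT h V 0) (bb i) x = E * bb i x := by
        intro _ x
        rw [ql_eq]
        exact hHop x
      have h5 := Fd.tbd (A := QL 1 (-1) lam (VT h V 0)) (t := fun _ : Fin 1 => E)
        (b := fun _ => bb i) h4 (fun _ => h3 i) (4 * d + 1)
        (fun f M hf x => ql_sup lam (VT h V 0) (fun y => hV _) f M hf x) 0
      exact (abs_le.1 h5).2
    have hab : |(Polynomial.Chebyshev.T ℝ (n : ℤ)).eval (1 + 2 / W * (a1 - E))| ≤ 1 := by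
      apply abs_eval_T_real_le_one
      rw [abs_le]
      have h6 : 2 / W * (a1 - E) ≤ 0 := mul_nonpos_of_nonneg_of_nonpos (by positivity) (by linarith)
      have h7 : -2 ≤ 2 / W * (a1 - E) := by
        have h8 : 2 / W * (a1 - E) ≥ 2 / W * (-W) :=
          mul_le_mul_of_nonneg_left (by rw [hW]; linarith) (by positivity)
        have h9 : 2 / W * (-W) = -2 := by field_simp
        linarith
      constructor <;> linarith
    rw [Polynomial.eval_mul, hQev, hti, hy, mul_pow]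
    have h6 : (Polynomial.Chebyshev.T ℝ (n : ℤ)).eval (1 + 2 / W * (a1 - E)) ^ 2 ≤ 1 := by
      rw [← sq_abs]
      exact pow_le_one₀ (abs_nonneg _) hab
    exact mul_le_of_le_one_right (sq_nonneg _) h6
  rw [← (pol_box h c0 b lam V 0 (P0 * Q) hPQ).2, ← (pol_box h c0 b lam V 0 P0 (by omega)).2] at key
  have hint : ∫ E, (P0 * Q).eval (q c0 b E) ^ 2 ∂m ≤ B := by
    rw [j2]
    refine key.trans ?_
    rw [← j4, j6]
    exact hB
  -- lower bound of the polynomial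
  obtain ⟨X, hX⟩ : ∃ X : ℝ, X = Real.exp (n * Real.sqrt (2 * κ / W)) / 2 := ⟨_, rfl⟩
  have hX0 : 0 < X := by rw [hX]; positivity
  have hlow : ∀ E : ℝ, E ≤ a1 - κ → g * X ^ 2 ≤ (P0 * Q).eval (q c0 b E) ^ 2 := by
    intro E hE
    rw [Polynomial.eval_mul, hQev, hy, mul_pow]
    have h1 : 1 + 2 * κ / W ≤ 1 + 2 / W * (a1 - E) := by
      have h2 : 2 * κ / W = 2 / W * κ := by ring
      rw [h2]
      have h3 : 2 / W * κ ≤ 2 / W * (a1 - E) :=
        mul_le_mul_of_nonneg_left (by linarith) (by positivity)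
      linarith
    have h2 := T_low n (2 * κ / W) (1 + 2 / W * (a1 - E)) (by positivity)
      (by rw [div_le_one hW0]; linarith) h1
    rw [← hX] at h2
    exact mul_le_mul (hg E hE) (pow_le_pow_left₀ hX0.le h2 2) (sq_nonneg _) (sq_nonneg _)
  have h1 : m.real (Set.Iic (a1 - κ)) * (g * X ^ 2) ≤ B := by
    refine le_trans ?_ hint
    have h4 : ∫ E in Set.Iic (a1 - κ), (g * X ^ 2 : ℝ) ∂m ≤
        ∫ E in Set.Iic (a1 - κ), (P0 * Q).eval (q c0 b E) ^ 2 ∂m :=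
      setIntegral_mono_on (integrable_const _).integrableOn j1.integrableOn
        measurableSet_Iic fun E hE => hlow E hE
    rw [setIntegral_const, smul_eq_mul] at h4
    exact h4.trans (setIntegral_le_integral j1 (Eventually.of_forall fun E => sq_nonneg _))
  have hXX : X ^ 2 * (4 * Real.exp (-(2 * (n * Real.sqrt (2 * κ / W))))) = 1 := by
    rw [hX, div_pow, ← Real.exp_nat_mul]
    have : Real.exp (((2 : ℕ) : ℝ) * (n * Real.sqrt (2 * κ / W))) *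
        Real.exp (-(2 * (n * Real.sqrt (2 * κ / W)))) = 1 := by
      rw [← Real.exp_add]
      push_cast
      rw [add_neg_cancel, Real.exp_zero]
    linarith
  calc m.real (Set.Iic (a1 - κ)) * g = (m.real (Set.Iic (a1 - κ)) * (g * X ^ 2)) *
        (4 * Real.exp (-(2 * (n * Real.sqrt (2 * κ / W))))) := by
        have : (m.real (Set.Iic (a1 - κ)) * (g * X ^ 2)) *
          (4 * Real.exp (-(2 * (n * Real.sqrt (2 * κ / W))))) = m.real (Set.Iic (a1 - κ)) * g *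
          (X ^ 2 * (4 * Real.exp (-(2 * (n * Real.sqrt (2 * κ / W)))))) := by ring
        rw [this, hXX, mul_one]
    _ ≤ B * (4 * Real.exp (-(2 * (n * Real.sqrt (2 * κ / W))))) := by gcongr
    _ = _ := by ring

end Pool.Agent.K3h4.DS.Fl
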