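import Pool.Agent.K3h4.DS.Ex

/-! The density of states measure: moments, supports, polynomial approximation, upper bounds. -/

set_option autoImplicit false

open scoped BigOperators ENNReal
open MeasureTheory Filter Topology

namespace Pool.Agent.K3h4.DS.Mo

open Pool.Agent.H4R2.AE (T Hop)
open Pool.Agent.H541R3.AND.Trans
open Pool.Agent.H541R3.AND.Heat (QT)
open Pool.Agent.K3h4.AN.Dl (pol QL ql_symm pol_moment pol_box)
open Pool.Agent.K3h4.DS.Ex

/-- spectral measure of the origin, by moments -/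
def Spm {d : ℕ} (lam : ℝ) (V : Zd d → ℝ) (m : Measure ℝ) : Prop :=
  IsFiniteMeasure m ∧ ∀ n : ℕ, Integrable (fun E : ℝ => E ^ n) m ∧ ∫ E, E ^ n ∂m = mo lam V n

/-- density of states measure, by moments -/
def Dos (d : ℕ) (μ : Measure ℝ) (lam : ℝ) (ν : Measure ℝ) : Prop :=
  IsFiniteMeasure ν ∧ ∀ n : ℕ, Integrable (fun E : ℝ => E ^ n) ν ∧
    ∫ E, E ^ n ∂ν = ∫ ω, mo lam ω n ∂(Measure.infinitePi fun _ : Zd d => μ)

theorem supp (m : Measure ℝ) [IsFiniteMeasure m] (R : ℝ) (hR : 0 < R)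
    (hi : ∀ n : ℕ, Integrable (fun E : ℝ => E ^ n) m)
    (hb : ∀ n : ℕ, ∫ E, E ^ n ∂m ≤ R ^ n) : ∀ᵐ (E : ℝ) ∂m, |E| ≤ R := by
  have key : ∀ R' : ℝ, R < R' → m {E : ℝ | R' ≤ |E|} = 0 := by
    intro R' hR'
    have hR'0 : 0 < R' := hR.trans hR'
    have hs : MeasurableSet {E : ℝ | R' ≤ |E|} := measurableSet_le (by fun_prop) (by fun_prop)
    have h1 : ∀ n : ℕ, m.real {E : ℝ | R' ≤ |E|} ≤ (R / R') ^ (2 * n) := by
      intro n
      have h2 : ∫ E in {E : ℝ | R' ≤ |E|}, R' ^ (2 * n) ∂m ≤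
          ∫ E in {E : ℝ | R' ≤ |E|}, E ^ (2 * n) ∂m := by
        refine setIntegral_mono_on (integrable_const _).integrableOn (hi _).integrableOn hs ?_
        intro E hE
        have h3 : R' ^ (2 * n) ≤ |E| ^ (2 * n) := pow_le_pow_left₀ hR'0.le hE _
        rwa [pow_mul |E|, sq_abs, ← pow_mul] at h3
      rw [setIntegral_const, smul_eq_mul] at h2
      have h3 : ∫ E in {E : ℝ | R' ≤ |E|}, E ^ (2 * n) ∂m ≤ ∫ E, E ^ (2 * n) ∂m := by
        refine setIntegral_le_integral (hi _) (Eventually.of_forall fun E => ?_)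
        show 0 ≤ E ^ (2 * n)
        rw [pow_mul]
        exact pow_nonneg (sq_nonneg _) _
      rw [div_pow, le_div_iff₀ (by positivity)]
      exact h2.trans (h3.trans (hb _))
    have h4 : Tendsto (fun n : ℕ => (R / R') ^ (2 * n)) atTop (𝓝 0) := by
      have h5 : (fun n : ℕ => (R / R') ^ (2 * n)) = fun n : ℕ => ((R / R') ^ 2) ^ n := by
        funext n; rw [pow_mul]
      rw [h5]
      apply tendsto_pow_atTop_nhds_zero_of_lt_one (by positivity)
      have h6 : R / R' < 1 := (div_lt_one hR'0).2 hR'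
      have h7 : 0 ≤ R / R' := by positivity
      nlinarith
    have h5 : m.real {E : ℝ | R' ≤ |E|} ≤ 0 := ge_of_tendsto' h4 h1
    have h6 : m.real {E : ℝ | R' ≤ |E|} = 0 := le_antisymm h5 measureReal_nonneg
    exact (measureReal_eq_zero_iff (measure_ne_top _ _)).1 h6
  rw [ae_iff]
  have h1 : {E : ℝ | ¬ |E| ≤ R} ⊆ ⋃ k : ℕ, {E : ℝ | R + 1 / ((k : ℝ) + 1) ≤ |E|} := by
    intro E hE
    have hE' : R < |E| := not_le.1 hE
    obtain ⟨k, hk⟩ := exists_nat_one_div_lt (sub_pos.2 hE')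
    exact Set.mem_iUnion.2 ⟨k, by
      show R + 1 / ((k : ℝ) + 1) ≤ |E|
      linarith⟩
  refine measure_mono_null h1 (measure_iUnion_null fun k => key _ ?_)
  have : 0 < 1 / ((k : ℝ) + 1) := by positivity
  linarith

/-- values of polynomials -/
noncomputable def vl {d : ℕ} (lam : ℝ) (Q : Polynomial ℝ) (V : Zd d → ℝ) : ℝ :=
  ∑ j ∈ Finset.range (Q.natDegree + 1), Q.coeff j * mo lam V j

theorem vl_meas {d : ℕ} (lam : ℝ) (Q : Polynomial ℝ) :
    Measurable fun V : Zd d → ℝ => vl lam Q V :=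
  Finset.measurable_sum _ fun j _ => (mo_meas lam j).const_mul _

theorem poly_int (m : Measure ℝ) (hi : ∀ n : ℕ, Integrable (fun E : ℝ => E ^ n) m)
    (Q : Polynomial ℝ) : Integrable (fun E : ℝ => Q.eval E) m ∧
      ∫ E, Q.eval E ∂m = ∑ j ∈ Finset.range (Q.natDegree + 1), Q.coeff j * ∫ E, E ^ j ∂m := by
  have e : (fun E : ℝ => Q.eval E) = fun E =>
      ∑ j ∈ Finset.range (Q.natDegree + 1), Q.coeff j * E ^ j := by
    funext E; rw [Polynomial.eval_eq_sum_range]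
  rw [e]
  refine ⟨integrable_finsetSum _ fun j _ => (hi j).const_mul _, ?_⟩
  rw [integral_finsetSum _ fun j _ => (hi j).const_mul _]
  exact Finset.sum_congr rfl fun j _ => integral_const_mul _ _

theorem spm_poly {d : ℕ} {lam : ℝ} {V : Zd d → ℝ} {m : Measure ℝ} (hm : Spm lam V m)
    (Q : Polynomial ℝ) : Integrable (fun E : ℝ => Q.eval E) m ∧ ∫ E, Q.eval E ∂m = vl lam Q V := by
  obtain ⟨h1, h2⟩ := poly_int m (fun n => (hm.2 n).1) Q
  refine ⟨h1, ?_⟩
  rw [h2]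
  exact Finset.sum_congr rfl fun j _ => by rw [(hm.2 j).2]

section
variable {d : ℕ} {μ : Measure ℝ} [IsProbabilityMeasure μ] {lam : ℝ} {ν : Measure ℝ}

theorem mo_int (hμ : μ (Set.Icc (-1) 1)ᶜ = 0) (hl : 0 ≤ lam) (hl1 : lam ≤ 1) (n : ℕ) :
    Integrable (fun ω : Zd d → ℝ => mo lam ω n) (Measure.infinitePi fun _ : Zd d => μ) := by
  refine Integrable.of_bound (mo_meas lam n).aestronglyMeasurable ((4 * d + 1) ^ n) ?_
  filter_upwards [ae_bd μ hμ lam hl hl1] with ω hω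
  exact mo_bd lam ω hω n

theorem dos_poly (hμ : μ (Set.Icc (-1) 1)ᶜ = 0) (hl : 0 ≤ lam) (hl1 : lam ≤ 1)
    (hν : Dos d μ lam ν) (Q : Polynomial ℝ) : Integrable (fun E : ℝ => Q.eval E) ν ∧
      Integrable (fun ω : Zd d → ℝ => vl lam Q ω) (Measure.infinitePi fun _ : Zd d => μ) ∧
      ∫ E, Q.eval E ∂ν = ∫ ω, vl lam Q ω ∂(Measure.infinitePi fun _ : Zd d => μ) := by
  obtain ⟨h1, h2⟩ := poly_int ν (fun n => (hν.2 n).1) Q
  have hint : ∀ j, Integrable (fun ω : Zd d → ℝ => Q.coeff j * mo lam ω j)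
    (Measure.infinitePi fun _ : Zd d => μ) := fun j => (mo_int hμ hl hl1 j).const_mul _
  refine ⟨h1, integrable_finsetSum _ fun j _ => hint j, ?_⟩
  unfold vl
  rw [h2, integral_finsetSum _ fun j _ => hint j]
  exact Finset.sum_congr rfl fun j _ => by rw [(hν.2 j).2, integral_const_mul]

theorem spm_supp {V : Zd d → ℝ} {m : Measure ℝ} (hm : Spm lam V m) (hV : ∀ x, |lam * V x| ≤ 1) :
    ∀ᵐ (E : ℝ) ∂m, |E| ≤ 4 * d + 1 := by
  have := hm.1
  refine supp m (4 * d + 1) (by positivity) (fun n => (hm.2 n).1) fun n => ?_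
  rw [(hm.2 n).2]
  exact (le_abs_self _).trans (mo_bd lam V hV n)

theorem dos_supp (hμ : μ (Set.Icc (-1) 1)ᶜ = 0) (hl : 0 ≤ lam) (hl1 : lam ≤ 1)
    (hν : Dos d μ lam ν) : ∀ᵐ (E : ℝ) ∂ν, |E| ≤ 4 * d + 1 := by
  have := hν.1
  refine supp ν (4 * d + 1) (by positivity) (fun n => (hν.2 n).1) fun n => ?_
  rw [(hν.2 n).2]
  have h1 : ∀ᵐ ω ∂(Measure.infinitePi fun _ : Zd d => μ), mo lam ω n ≤ (4 * d + 1) ^ n := by
    filter_upwards [ae_bd μ hμ lam hl hl1] with ω hω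
    exact (le_abs_self _).trans (mo_bd lam ω hω n)
  calc ∫ ω, mo lam ω n ∂(Measure.infinitePi fun _ : Zd d => μ) ≤
        ∫ _ω : Zd d → ℝ, ((4 * d + 1) ^ n : ℝ) ∂(Measure.infinitePi fun _ : Zd d => μ) :=
        integral_mono_ae (mo_int hμ hl hl1 n) (integrable_const _) h1
    _ = (4 * d + 1) ^ n := by rw [integral_const]; simp

theorem mo_zero (V : Zd d → ℝ) : mo lam V 0 = 1 := by
  unfold mo; simp

theorem spm_mass {V : Zd d → ℝ} {m : Measure ℝ} (hm : Spm lam V m) : m.real Set.univ = 1 := by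
  have h := (hm.2 0).2
  rw [mo_zero] at h
  simpa using h

theorem dos_mass (hν : Dos d μ lam ν) : ν.real Set.univ = 1 := by
  have h := (hν.2 0).2
  simp only [mo_zero] at h
  simpa using h

end

/-- approximation of the indicator of a half line -/
theorem apx (R a b ε : ℝ) (hab : a < b) (hε : 0 < ε) : ∃ P : Polynomial ℝ,
    (∀ E : ℝ, |E| ≤ R → E ≤ a → 1 ≤ P.eval E) ∧ (∀ E : ℝ, |E| ≤ R → b ≤ E → |P.eval E| ≤ ε) ∧
      ∀ E : ℝ, |E| ≤ R → 0 ≤ P.eval E ∧ P.eval E ≤ 1 + ε := by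
  have hc : ContinuousOn (fun E : ℝ => max 0 (min 1 ((b - E) / (b - a))) + ε / 2)
      (Set.Icc (-R) R) := by fun_prop
  obtain ⟨P, hP⟩ := exists_polynomial_near_of_continuousOn (-R) R _ hc (ε / 2) (by positivity)
  have hba : 0 < b - a := by linarith
  refine ⟨P, fun E hE hEa => ?_, fun E hE hEb => ?_, fun E hE => ?_⟩
  · have h1 := abs_lt.1 (hP E (abs_le.1 hE))
    have h2 : 1 ≤ (b - E) / (b - a) := by rw [le_div_iff₀ hba]; linarith
    have h3 : max 0 (min 1 ((b - E) / (b - a))) = 1 := by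
      rw [min_eq_left h2]; simp
    rw [h3] at h1
    linarith [h1.1]
  · have h1 := abs_lt.1 (hP E (abs_le.1 hE))
    have h2 : (b - E) / (b - a) ≤ 0 := div_nonpos_of_nonpos_of_nonneg (by linarith) hba.le
    have h3 : max 0 (min 1 ((b - E) / (b - a))) = 0 :=
      max_eq_left ((min_le_right _ _).trans h2)
    rw [h3] at h1
    rw [abs_le]
    constructor <;> linarith [h1.1, h1.2]
  · have h1 := abs_lt.1 (hP E (abs_le.1 hE))
    have h2 : 0 ≤ max 0 (min 1 ((b - E) / (b - a))) := le_max_left _ _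
    have h3 : max 0 (min 1 ((b - E) / (b - a))) ≤ 1 :=
      max_le zero_le_one (min_le_left _ _)
    constructor <;> linarith [h1.1, h1.2]

theorem sq_up (m : Measure ℝ) [IsFiniteMeasure m] (R a b ε : ℝ)
    (hm1 : m.real Set.univ = 1)
    (hs : ∀ᵐ (E : ℝ) ∂m, |E| ≤ R) (P : Polynomial ℝ)
    (hi : Integrable (fun E : ℝ => (P.eval E) ^ 2) m)
    (h1 : ∀ E : ℝ, |E| ≤ R → E ≤ a → 1 ≤ P.eval E)
    (h2 : ∀ E : ℝ, |E| ≤ R → b ≤ E → |P.eval E| ≤ ε)
    (h3 : ∀ E : ℝ, |E| ≤ R → 0 ≤ P.eval E ∧ P.eval E ≤ 1 + ε) :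
    m.real (Set.Iic a) ≤ ∫ E, (P.eval E) ^ 2 ∂m ∧
      ∫ E, (P.eval E) ^ 2 ∂m ≤ (1 + ε) ^ 2 * m.real (Set.Iic b) + ε ^ 2 := by
  constructor
  · have e1 : m.real (Set.Iic a) = ∫ E, (Set.Iic a).indicator (fun _ => (1 : ℝ)) E ∂m := by
      rw [integral_indicator measurableSet_Iic, setIntegral_const, smul_eq_mul, mul_one]
    rw [e1]
    refine integral_mono_ae ((integrable_const _).indicator measurableSet_Iic) hi ?_
    filter_upwards [hs] with E hE
    by_cases hEa : E ≤ a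
    · rw [Set.indicator_of_mem (Set.mem_Iic.2 hEa)]
      have := h1 E hE hEa
      nlinarith
    · rw [Set.indicator_of_notMem (by simpa using hEa)]
      positivity
  · have hi2 : Integrable (fun E : ℝ => (1 + ε) ^ 2 * (Set.Iic b).indicator (fun _ => (1 : ℝ)) E +
        ε ^ 2) m :=
      (((integrable_const _).indicator measurableSet_Iic).const_mul _).add (integrable_const _)
    have e1 : ∫ E, ((1 + ε) ^ 2 * (Set.Iic b).indicator (fun _ => (1 : ℝ)) E + ε ^ 2) ∂m =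
        (1 + ε) ^ 2 * m.real (Set.Iic b) + ε ^ 2 := by
      rw [integral_add (((integrable_const _).indicator measurableSet_Iic).const_mul _)
        (integrable_const _), integral_const_mul, integral_indicator measurableSet_Iic,
        setIntegral_const, smul_eq_mul, mul_one, integral_const, hm1, smul_eq_mul, one_mul]
    rw [← e1]
    refine integral_mono_ae hi hi2 ?_
    filter_upwards [hs] with E hE
    by_cases hEb : E ≤ b
    · rw [Set.indicator_of_mem (Set.mem_Iic.2 hEb)]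
      obtain ⟨k1, k2⟩ := h3 E hE
      have : (P.eval E) ^ 2 ≤ (1 + ε) ^ 2 := pow_le_pow_left₀ k1 k2 2
      have : 0 ≤ ε ^ 2 := sq_nonneg _
      linarith
    · rw [Set.indicator_of_notMem (by simpa using hEb)]
      have k1 := h2 E hE (not_le.1 hEb).le
      have : (P.eval E) ^ 2 ≤ ε ^ 2 := by
        rw [← sq_abs]
        exact pow_le_pow_left₀ (abs_nonneg _) k1 2
      linarith

/-- pass to the limit `ε → 0` -/
theorem lim_eps (A B : ℝ) (h : ∀ ε : ℝ, 0 < ε → A ≤ (1 + ε) ^ 2 * B + ε ^ 2) : A ≤ B := by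
  have h1 : Tendsto (fun ε : ℝ => (1 + ε) ^ 2 * B + ε ^ 2) (𝓝[>] 0) (𝓝 ((1 + 0) ^ 2 * B + 0 ^ 2)) := by
    apply Tendsto.mono_left _ nhdsWithin_le_nhds
    apply Continuous.tendsto
    fun_prop
  have h2 : A ≤ (1 + 0) ^ 2 * B + 0 ^ 2 :=
    ge_of_tendsto h1 (by
      filter_upwards [self_mem_nhdsWithin] with ε hε
      exact h ε hε)
  simpa using h2

/-- pointwise step bound -/
theorem step_bd {Ω : Type*} (N : ℕ) (s : ℕ → ℝ) (hs : ∀ k, 0 ≤ s k) (B : ℕ → Set Ω) (ω : Ω) (S : ℝ)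
    (h : ∀ k, k ≤ N → ω ∉ B k → S ≤ s k) (h1 : S ≤ 1) :
    S ≤ s 0 + ∑ k ∈ Finset.range N, s (k + 1) * (B k).indicator (fun _ => (1 : ℝ)) ω +
      (B N).indicator (fun _ => (1 : ℝ)) ω := by
  have hnn : ∀ k, 0 ≤ (B k).indicator (fun _ => (1 : ℝ)) ω := fun k =>
    Set.indicator_nonneg (fun _ _ => zero_le_one) _
  have hsum : 0 ≤ ∑ k ∈ Finset.range N, s (k + 1) * (B k).indicator (fun _ => (1 : ℝ)) ω :=
    Finset.sum_nonneg fun k _ => mul_nonneg (hs _) (hnn k)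
  by_cases hall : ω ∈ B N
  · rw [Set.indicator_of_mem hall]
    have := hs 0
    linarith
  · -- first good index
    have hex : ∃ k, ω ∉ B k := ⟨N, hall⟩
    classical
    obtain ⟨k, hk⟩ : ∃ k, k = Nat.find hex := ⟨_, rfl⟩
    have hk1 : ω ∉ B k := by rw [hk]; exact Nat.find_spec hex
    have hk2 : ∀ j, j < k → ω ∈ B j := by
      intro j hj
      rw [hk] at hj
      have := Nat.find_min hex hj
      simpa using this
    have hkN : k ≤ N := by
      by_contra hc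
      exact hall (hk2 N (by omega))
    have h2 := h k hkN hk1
    have h3 := hnn N
    rcases Nat.eq_zero_or_pos k with h0 | h0
    · rw [h0] at h2
      linarith
    · obtain ⟨j, hj⟩ : ∃ j, k = j + 1 := ⟨k - 1, by omega⟩
      have h4 : s (j + 1) * (B j).indicator (fun _ => (1 : ℝ)) ω ≤
          ∑ k ∈ Finset.range N, s (k + 1) * (B k).indicator (fun _ => (1 : ℝ)) ω :=
        Finset.single_le_sum (f := fun k => s (k + 1) * (B k).indicator (fun _ => (1 : ℝ)) ω)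
          (fun i _ => mul_nonneg (hs _) (hnn i)) (Finset.mem_range.2 (by omega))
      rw [Set.indicator_of_mem (hk2 j (by omega)), mul_one, ← hj] at h4
      have := hs 0
      linarith

/-- **upper bounds for the density of states** -/
theorem upper {d : ℕ} {μ : Measure ℝ} [IsProbabilityMeasure μ] {lam : ℝ} {ν : Measure ℝ}
    (hμ : μ (Set.Icc (-1) 1)ᶜ = 0) (hl : 0 ≤ lam) (hl1 : lam ≤ 1) (hν : Dos d μ lam ν)
    (a b : ℝ) (hab : a < b) (N : ℕ) (s : ℕ → ℝ) (hs : ∀ k, 0 ≤ s k) (B : ℕ → Set (Zd d → ℝ))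
    (hB : ∀ k, MeasurableSet (B k))
    (h : ∀ k, k ≤ N → ∀ ω : Zd d → ℝ, (∀ x, |lam * ω x| ≤ 1) → ω ∉ B k → ∀ m, Spm lam ω m →
      m.real (Set.Iic b) ≤ s k) :
    ν.real (Set.Iic a) ≤ s 0 + ∑ k ∈ Finset.range N, s (k + 1) *
      (Measure.infinitePi fun _ : Zd d => μ).real (B k) +
      (Measure.infinitePi fun _ : Zd d => μ).real (B N) := by
  have := hν.1
  apply lim_eps
  intro ε hε
  obtain ⟨P, h1, h2, h3⟩ := apx (4 * d + 1) a b ε hab hε
  have hP2 : ∀ E : ℝ, (P ^ 2).eval E = (P.eval E) ^ 2 := fun E => by simp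
  obtain ⟨i1, i2, i3⟩ := dos_poly hμ hl hl1 hν (P ^ 2)
  simp only [hP2] at i1 i3
  have k1 := (sq_up ν (4 * d + 1) a b ε (dos_mass hν) (dos_supp hμ hl hl1 hν) P i1 h1 h2 h3).1
  rw [i3] at k1
  refine k1.trans ?_
  obtain ⟨G, hG⟩ : ∃ G : (Zd d → ℝ) → ℝ, G = fun ω => ∑ k ∈ Finset.range N, s (k + 1) *
    (B k).indicator (fun _ => (1 : ℝ)) ω := ⟨_, rfl⟩
  obtain ⟨I, hI⟩ : ∃ I : (Zd d → ℝ) → ℝ, I = (B N).indicator (fun _ => (1 : ℝ)) := ⟨_, rfl⟩
  obtain ⟨F, hF⟩ : ∃ F : (Zd d → ℝ) → ℝ, F = fun ω => (s 0 + G ω) + I ω := ⟨_, rfl⟩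
  have hind : ∀ k, Integrable ((B k).indicator fun _ => (1 : ℝ))
      (Measure.infinitePi fun _ : Zd d => μ) := fun k => (integrable_const _).indicator (hB k)
  have hindI : ∀ k, ∫ ω, (B k).indicator (fun _ => (1 : ℝ)) ω
      ∂(Measure.infinitePi fun _ : Zd d => μ) = (Measure.infinitePi fun _ : Zd d => μ).real (B k) := by
    intro k
    rw [integral_indicator (hB k), setIntegral_const, smul_eq_mul, mul_one]
  have hGi : Integrable G (Measure.infinitePi fun _ : Zd d => μ) := by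
    rw [hG]
    exact integrable_finsetSum _ fun k _ => (hind k).const_mul _
  have hGI : ∫ ω, G ω ∂(Measure.infinitePi fun _ : Zd d => μ) =
      ∑ k ∈ Finset.range N, s (k + 1) * (Measure.infinitePi fun _ : Zd d => μ).real (B k) := by
    rw [hG, integral_finsetSum _ fun k _ => (hind k).const_mul _]
    simp only [integral_const_mul, hindI]
  have hIi : Integrable I (Measure.infinitePi fun _ : Zd d => μ) := by rw [hI]; exact hind N
  have hII : ∫ ω, I ω ∂(Measure.infinitePi fun _ : Zd d => μ) =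
      (Measure.infinitePi fun _ : Zd d => μ).real (B N) := by rw [hI]; exact hindI N
  have hsG : Integrable (fun ω => s 0 + G ω) (Measure.infinitePi fun _ : Zd d => μ) :=
    (integrable_const _).add hGi
  have hFi : Integrable F (Measure.infinitePi fun _ : Zd d => μ) := by
    rw [hF]
    exact hsG.add hIi
  have hFI : ∫ ω, F ω ∂(Measure.infinitePi fun _ : Zd d => μ) = s 0 +
      ∑ k ∈ Finset.range N, s (k + 1) * (Measure.infinitePi fun _ : Zd d => μ).real (B k) +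
      (Measure.infinitePi fun _ : Zd d => μ).real (B N) := by
    rw [hF, integral_add hsG hIi, integral_add (integrable_const _) hGi, hGI, hII, integral_const]
    simp
  rw [← hFI]
  have e2 : (1 + ε) ^ 2 * ∫ ω, F ω ∂(Measure.infinitePi fun _ : Zd d => μ) + ε ^ 2 =
      ∫ ω, ((1 + ε) ^ 2 * F ω + ε ^ 2) ∂(Measure.infinitePi fun _ : Zd d => μ) := by
    rw [integral_add (hFi.const_mul _) (integrable_const _), integral_const_mul, integral_const]
    simp
  rw [e2]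
  refine integral_mono_ae i2 ((hFi.const_mul _).add (integrable_const _)) ?_
  filter_upwards [ae_bd μ hμ lam hl hl1] with ω hω
  obtain ⟨m, hm1, hm2, hm3⟩ := ex_spec lam ω hω
  have hsp : Spm lam ω m := ⟨inferInstance, hm3⟩
  obtain ⟨j1, j2⟩ := spm_poly hsp (P ^ 2)
  simp only [hP2] at j1 j2
  have k2 := (sq_up m (4 * d + 1) a b ε (spm_mass hsp) hm2 P j1 h1 h2 h3).2
  rw [j2] at k2
  refine k2.trans ?_
  have k3 : m.real (Set.Iic b) ≤ F ω := by
    rw [hF, hG, hI]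
    exact step_bd N s hs B ω _ (fun k hk hω' => h k hk ω hω hω' m hsp) measureReal_le_one
  have : (1 + ε) ^ 2 * m.real (Set.Iic b) ≤ (1 + ε) ^ 2 * F ω :=
    mul_le_mul_of_nonneg_left k3 (sq_nonneg _)
  show (1 + ε) ^ 2 * m.real (Set.Iic b) + ε ^ 2 ≤ (1 + ε) ^ 2 * F ω + ε ^ 2
  linarith

end Pool.Agent.K3h4.DS.Mo
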