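import Pool.Agent.K3h4.DS.Ti

/-! Moments of the coupling and a Chebyshev bound. -/

set_option autoImplicit false
set_option linter.unusedSectionVars false

open scoped BigOperators ENNReal
open MeasureTheory Filter Topology ProbabilityTheory

namespace Pool.Agent.K3h4.DS.Tb

open Pool.Agent.K3h4.DS.Ti

/-- mean of the positive part of the difference of two independent variables -/
noncomputable def e0 (μ : Measure ℝ) : ℝ := ∫ p, (p.1 - min p.1 p.2) ∂(μ.prod μ)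

section
variable (μ : Measure ℝ) [IsProbabilityMeasure μ]

theorem ae1 (hμ : μ (Set.Icc (-1) 1)ᶜ = 0) : ∀ᵐ v ∂μ, -1 ≤ v ∧ v ≤ 1 := by
  rw [ae_iff]
  exact hμ

theorem ae2 (hμ : μ (Set.Icc (-1) 1)ᶜ = 0) :
    ∀ᵐ p ∂(μ.prod μ), 0 ≤ p.1 - min p.1 p.2 ∧ p.1 - min p.1 p.2 ≤ 2 := by
  have h1 : ∀ᵐ p ∂(μ.prod μ), -1 ≤ p.1 ∧ p.1 ≤ 1 :=
    Measure.quasiMeasurePreserving_fst.ae (ae1 μ hμ)
  have h2 : ∀ᵐ p ∂(μ.prod μ), -1 ≤ p.2 ∧ p.2 ≤ 1 :=
    Measure.quasiMeasurePreserving_snd.ae (ae1 μ hμ)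
  filter_upwards [h1, h2] with p hp1 hp2
  have h3 : min p.1 p.2 ≤ p.1 := min_le_left _ _
  have h4 : -1 ≤ min p.1 p.2 := le_min hp1.1 hp2.1
  constructor <;> linarith [hp1.2]

theorem cp_bd (hμ : μ (Set.Icc (-1) 1)ᶜ = 0) (a b : ℝ≥0∞) :
    ∀ᵐ p ∂(cp μ a b), 0 ≤ p.1 - p.2 ∧ p.1 - p.2 ≤ 2 := by
  have hs : MeasurableSet {p : ℝ × ℝ | 0 ≤ p.1 - p.2 ∧ p.1 - p.2 ≤ 2} :=
    (measurableSet_Icc (a := (0 : ℝ)) (b := 2)).preimage
      (by fun_prop : Measurable fun p : ℝ × ℝ => p.1 - p.2)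
  unfold cp
  rw [ae_add_measure_iff]
  constructor
  · refine Measure.ae_smul_measure ?_ _
    rw [ae_map_iff m1.aemeasurable hs]
    exact Eventually.of_forall fun v => by simp
  · refine Measure.ae_smul_measure ?_ _
    rw [ae_map_iff m2.aemeasurable hs]
    exact ae2 μ hμ

theorem int_cp (hμ : μ (Set.Icc (-1) 1)ᶜ = 0) (a b : ℝ≥0∞) (hab : a + b = 1) (F : ℝ → ℝ)
    (hF : Measurable F) (hF0 : F 0 = 0) (C : ℝ) (hC : ∀ t, 0 ≤ t → t ≤ 2 → |F t| ≤ C) :
    Integrable (fun p : ℝ × ℝ => F (p.1 - p.2)) (cp μ a b) ∧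
      ∫ p, F (p.1 - p.2) ∂(cp μ a b) = b.toReal * ∫ p, F (p.1 - min p.1 p.2) ∂(μ.prod μ) := by
  have hp := cp_prob μ a b hab
  have ha : a ≠ ⊤ := by
    intro h; rw [h] at hab; simp at hab
  have hb : b ≠ ⊤ := by
    intro h; rw [h] at hab; simp at hab
  have hFm : Measurable fun p : ℝ × ℝ => F (p.1 - p.2) := hF.comp (by fun_prop)
  have hi : Integrable (fun p : ℝ × ℝ => F (p.1 - p.2)) (cp μ a b) := by
    refine Integrable.of_bound hFm.aestronglyMeasurable C ?_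
    filter_upwards [cp_bd μ hμ a b] with p hp
    exact hC _ hp.1 hp.2
  refine ⟨hi, ?_⟩
  have hI1 : Integrable (fun p : ℝ × ℝ => F (p.1 - p.2)) (a • μ.map fun v => (v, v)) := by
    unfold cp at hi
    exact hi.left_of_add_measure
  have hI2 : Integrable (fun p : ℝ × ℝ => F (p.1 - p.2))
      (b • (μ.prod μ).map fun p => (p.1, min p.1 p.2)) := by
    unfold cp at hi
    exact hi.right_of_add_measure
  unfold cp
  rw [integral_add_measure hI1 hI2, integral_smul_measure, integral_smul_measure,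
    integral_map m1.aemeasurable hFm.aestronglyMeasurable,
    integral_map m2.aemeasurable hFm.aestronglyMeasurable]
  simp only [sub_self, hF0, integral_zero, mul_zero, zero_add, smul_eq_mul]

theorem mean_cp (hμ : μ (Set.Icc (-1) 1)ᶜ = 0) (a b : ℝ≥0∞) (hab : a + b = 1) :
    Integrable (fun p : ℝ × ℝ => p.1 - p.2) (cp μ a b) ∧
      ∫ p, (p.1 - p.2) ∂(cp μ a b) = b.toReal * e0 μ := by
  have := int_cp μ hμ a b hab (fun t => t) measurable_id rfl 2
    (fun t h0 h1 => by rw [abs_of_nonneg h0]; exact h1)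
  exact this

theorem sq_cp (hμ : μ (Set.Icc (-1) 1)ᶜ = 0) (a b : ℝ≥0∞) (hab : a + b = 1) :
    ∫ p, (p.1 - p.2) ^ 2 ∂(cp μ a b) ≤ 2 * (b.toReal * e0 μ) := by
  obtain ⟨h1, h2⟩ := mean_cp μ hμ a b hab
  obtain ⟨h3, -⟩ := int_cp μ hμ a b hab (fun t => t ^ 2) (by fun_prop) (by norm_num) 4
    (fun t h0 h1 => by rw [abs_of_nonneg (by positivity)]; nlinarith)
  rw [← h2, ← integral_const_mul]
  refine integral_mono_ae h3 (h1.const_mul 2) ?_
  filter_upwards [cp_bd μ hμ a b] with p hp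
  show (p.1 - p.2) ^ 2 ≤ 2 * (p.1 - p.2)
  nlinarith [hp.1, hp.2]

theorem e0_nonneg (hμ : μ (Set.Icc (-1) 1)ᶜ = 0) : 0 ≤ e0 μ := by
  unfold e0
  refine integral_nonneg_of_ae ?_
  filter_upwards [ae2 μ hμ] with p hp
  exact hp.1

/-- Chebyshev bound -/
theorem cheb {ι : Type*} [Fintype ι] (hμ : μ (Set.Icc (-1) 1)ᶜ = 0) (a b : ℝ≥0∞)
    (hab : a + b = 1) (w : ι → ℝ) (hw : ∀ i, 0 ≤ w i) (hw0 : 0 < ∑ i, w i)
    (hm : 0 < b.toReal * e0 μ) :
    (Measure.pi fun _ : ι => cp μ a b).real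
      {θ | ∑ i, w i * ((θ i).1 - (θ i).2) < b.toReal * e0 μ / 2 * ∑ i, w i} ≤
      8 * (∑ i, w i ^ 2) / (b.toReal * e0 μ * (∑ i, w i) ^ 2) := by
  have hp := cp_prob μ a b hab
  obtain ⟨m, hmm⟩ : ∃ m, m = b.toReal * e0 μ := ⟨_, rfl⟩
  obtain ⟨i1, i2⟩ := mean_cp μ hμ a b hab
  have i3 := sq_cp μ hμ a b hab
  rw [← hmm] at hm i2 i3 ⊢
  obtain ⟨Θ, hΘ⟩ : ∃ Θ : Measure (ι → ℝ × ℝ), Θ = Measure.pi fun _ : ι => cp μ a b := ⟨_, rfl⟩
  have hΘp : IsProbabilityMeasure Θ := by rw [hΘ]; infer_instance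
  obtain ⟨X, hX⟩ : ∃ X : ι → (ℝ × ℝ) → ℝ, X = fun i p => w i * (p.1 - p.2) := ⟨_, rfl⟩
  have hXL : ∀ i, MemLp (X i) 2 (cp μ a b) := by
    intro i
    rw [hX]
    refine MemLp.of_bound (Measurable.aestronglyMeasurable (by fun_prop)) (w i * 2) ?_
    filter_upwards [cp_bd μ hμ a b] with p hp
    rw [Real.norm_eq_abs, abs_of_nonneg (mul_nonneg (hw i) hp.1)]
    exact mul_le_mul_of_nonneg_left hp.2 (hw i)
  have hvar := variance_sum_pi (μ := fun _ : ι => cp μ a b) (X := X) hXL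
  rw [← hΘ] at hvar
  have hvi : ∀ i, Var[X i; cp μ a b] ≤ w i ^ 2 * (2 * m) := by
    intro i
    refine (variance_le_expectation_sq (hXL i).aestronglyMeasurable).trans ?_
    have e1 : ∫ p, ((X i) ^ 2) p ∂(cp μ a b) = w i ^ 2 * ∫ p, (p.1 - p.2) ^ 2 ∂(cp μ a b) := by
      rw [← integral_const_mul]
      refine integral_congr_ae (Eventually.of_forall fun p => ?_)
      rw [hX]
      show (w i * (p.1 - p.2)) ^ 2 = w i ^ 2 * (p.1 - p.2) ^ 2
      ring
    rw [e1]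
    exact mul_le_mul_of_nonneg_left i3 (sq_nonneg _)
  obtain ⟨S, hS⟩ : ∃ S : (ι → ℝ × ℝ) → ℝ, S = ∑ i, fun ω => X i (ω i) := ⟨_, rfl⟩
  rw [← hS] at hvar
  have hSL : MemLp S 2 Θ := by
    rw [hS, hΘ]
    exact memLp_finsetSum' _ fun i _ =>
      (hXL i).comp_measurePreserving (measurePreserving_eval (fun _ : ι => cp μ a b) i)
  have hSx : ∀ θ, S θ = ∑ i, w i * ((θ i).1 - (θ i).2) := by
    intro θ
    rw [hS, hX, Finset.sum_apply]
  have hES : ∫ θ, S θ ∂Θ = m * ∑ i, w i := by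
    simp only [hSx]
    have hcomp : ∀ i, Integrable (fun θ : ι → ℝ × ℝ => (θ i).1 - (θ i).2) Θ ∧
        ∫ θ, ((θ i).1 - (θ i).2) ∂Θ = m := by
      intro i
      have hmp := measurePreserving_eval (fun _ : ι => cp μ a b) i
      rw [← hΘ] at hmp
      constructor
      · exact hmp.integrable_comp_of_integrable i1
      · rw [← i2]
        have := hmp.map_eq
        rw [← this, integral_map hmp.aemeasurable (Measurable.aestronglyMeasurable (by fun_prop))]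
    rw [integral_finsetSum _ fun i _ => (hcomp i).1.const_mul _]
    simp only [integral_const_mul, (hcomp _).2]
    rw [← Finset.sum_mul, mul_comm]
  have hcheb := meas_ge_le_variance_div_sq hSL (c := m / 2 * ∑ i, w i) (by positivity)
  rw [hES] at hcheb
  have hsub : {θ : ι → ℝ × ℝ | ∑ i, w i * ((θ i).1 - (θ i).2) < m / 2 * ∑ i, w i} ⊆
      {θ | m / 2 * ∑ i, w i ≤ |S θ - m * ∑ i, w i|} := by
    intro θ hθ
    have h1 : ∑ i, w i * ((θ i).1 - (θ i).2) < m / 2 * ∑ i, w i := hθ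
    show m / 2 * ∑ i, w i ≤ |S θ - m * ∑ i, w i|
    rw [hSx]
    refine le_trans ?_ (neg_le_abs _)
    have : m * ∑ i, w i = m / 2 * ∑ i, w i + m / 2 * ∑ i, w i := by ring
    linarith
  rw [← hΘ]
  have h5 : Θ.real {θ : ι → ℝ × ℝ | ∑ i, w i * ((θ i).1 - (θ i).2) < m / 2 * ∑ i, w i} ≤
      Var[S; Θ] / (m / 2 * ∑ i, w i) ^ 2 := by
    have h6 := (measure_mono hsub).trans hcheb
    have h7 := ENNReal.toReal_mono ENNReal.ofReal_ne_top h6
    rwa [ENNReal.toReal_ofReal (div_nonneg (variance_nonneg _ _) (sq_nonneg _))] at h7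
  refine h5.trans ?_
  rw [hvar]
  have h6 : ∑ i, Var[X i; cp μ a b] ≤ (∑ i, w i ^ 2) * (2 * m) := by
    rw [Finset.sum_mul]
    exact Finset.sum_le_sum fun i _ => hvi i
  calc (∑ i, Var[X i; cp μ a b]) / (m / 2 * ∑ i, w i) ^ 2 ≤
        ((∑ i, w i ^ 2) * (2 * m)) / (m / 2 * ∑ i, w i) ^ 2 := by gcongr
    _ = 8 * (∑ i, w i ^ 2) / (m * (∑ i, w i) ^ 2) := by
        field_simp
        norm_num

/-- the mean is bounded below for laws with a bounded density -/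
theorem e0_ge (hμ : μ (Set.Icc (-1) 1)ᶜ = 0) (M : ℝ) (hM : 0 < M)
    (hD : μ ≤ ENNReal.ofReal M • (volume : Measure ℝ)) : 1 / (16 * M) ≤ e0 μ := by
  have h1 : Integrable (fun p : ℝ × ℝ => p.1 - min p.1 p.2) (μ.prod μ) := by
    refine Integrable.of_bound (Measurable.aestronglyMeasurable (by fun_prop)) 2 ?_
    filter_upwards [ae2 μ hμ] with p hp
    rw [Real.norm_eq_abs, abs_of_nonneg hp.1]
    exact hp.2
  have hsw : ∫ p, (p.2 - min p.1 p.2) ∂(μ.prod μ) = e0 μ := by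
    have h2 := integral_prod_swap (μ := μ) (ν := μ) (fun p : ℝ × ℝ => p.1 - min p.1 p.2)
    unfold e0
    rw [← h2]
    refine integral_congr_ae (Eventually.of_forall fun p => ?_)
    show p.2 - min p.1 p.2 = p.swap.1 - min p.swap.1 p.swap.2
    simp [min_comm]
  have h1' : Integrable (fun p : ℝ × ℝ => p.2 - min p.1 p.2) (μ.prod μ) := by
    have h3 := h1.swap
    refine h3.congr (Eventually.of_forall fun p => ?_)
    show (p.swap.1 - min p.swap.1 p.swap.2) = p.2 - min p.1 p.2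
    simp [min_comm]
  have h2 : ∫ p, |p.1 - p.2| ∂(μ.prod μ) = 2 * e0 μ := by
    have e1 : ∀ p : ℝ × ℝ, |p.1 - p.2| = (p.1 - min p.1 p.2) + (p.2 - min p.1 p.2) := by
      intro p
      rcases le_total p.1 p.2 with h | h
      · rw [min_eq_left h, abs_of_nonpos (by linarith)]; ring
      · rw [min_eq_right h, abs_of_nonneg (by linarith)]; ring
    simp only [e1]
    rw [integral_add h1 h1', hsw]
    show e0 μ + e0 μ = 2 * e0 μ
    ring
  have h3 : Integrable (fun p : ℝ × ℝ => |p.1 - p.2|) (μ.prod μ) := by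
    have := h1.add h1'
    refine this.congr (Eventually.of_forall fun p => ?_)
    show (p.1 - min p.1 p.2) + (p.2 - min p.1 p.2) = |p.1 - p.2|
    rcases le_total p.1 p.2 with h | h
    · rw [min_eq_left h, abs_of_nonpos (by linarith)]; ring
    · rw [min_eq_right h, abs_of_nonneg (by linarith)]; ring
  obtain ⟨δ, hδ⟩ : ∃ δ : ℝ, δ = 1 / (4 * M) := ⟨_, rfl⟩
  have hδ0 : 0 < δ := by rw [hδ]; positivity
  have hsm : MeasurableSet {p : ℝ × ℝ | |p.1 - p.2| < δ} :=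
    measurableSet_lt (by fun_prop) measurable_const
  have h4 : (μ.prod μ).real {p : ℝ × ℝ | |p.1 - p.2| < δ} ≤ 1 / 2 := by
    have h5 : (μ.prod μ) {p : ℝ × ℝ | |p.1 - p.2| < δ} ≤ ENNReal.ofReal (1 / 2) := by
      rw [Measure.prod_apply hsm]
      have h6 : ∀ v : ℝ, μ (Prod.mk v ⁻¹' {p : ℝ × ℝ | |p.1 - p.2| < δ}) ≤
          ENNReal.ofReal (1 / 2) := by
        intro v
        have e1 : Prod.mk v ⁻¹' {p : ℝ × ℝ | |p.1 - p.2| < δ} ⊆ Set.Ioo (v - δ) (v + δ) := by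
          intro r hr
          have hr' : |v - r| < δ := hr
          rw [abs_lt] at hr'
          exact ⟨by linarith [hr'.2], by linarith [hr'.1]⟩
        refine (measure_mono e1).trans ((hD _).trans ?_)
        rw [Measure.smul_apply, Real.volume_Ioo, smul_eq_mul, ← ENNReal.ofReal_mul hM.le]
        apply ENNReal.ofReal_le_ofReal
        rw [hδ]
        have : M * (v + 1 / (4 * M) - (v - 1 / (4 * M))) = 1 / 2 := by
          field_simp
          ring
        rw [this]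
      refine (lintegral_mono h6).trans ?_
      rw [lintegral_const, measure_univ, mul_one]
    have h7 := ENNReal.toReal_mono ENNReal.ofReal_ne_top h5
    rwa [ENNReal.toReal_ofReal (by norm_num)] at h7
  have h5 : δ * (1 / 2) ≤ ∫ p, |p.1 - p.2| ∂(μ.prod μ) := by
    have h6 : (1 : ℝ) / 2 ≤ (μ.prod μ).real {p : ℝ × ℝ | |p.1 - p.2| < δ}ᶜ := by
      rw [probReal_compl_eq_one_sub hsm]
      linarith
    calc δ * (1 / 2) ≤ δ * (μ.prod μ).real {p : ℝ × ℝ | |p.1 - p.2| < δ}ᶜ := by gcongr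
      _ = ∫ p in {p : ℝ × ℝ | |p.1 - p.2| < δ}ᶜ, δ ∂(μ.prod μ) := by
          rw [setIntegral_const, smul_eq_mul, mul_comm]
      _ ≤ ∫ p in {p : ℝ × ℝ | |p.1 - p.2| < δ}ᶜ, |p.1 - p.2| ∂(μ.prod μ) := by
          refine setIntegral_mono_on (integrable_const _).integrableOn h3.integrableOn hsm.compl ?_
          intro p hp
          exact not_lt.1 hp
      _ ≤ ∫ p, |p.1 - p.2| ∂(μ.prod μ) :=
          setIntegral_le_integral h3 (Eventually.of_forall fun p => abs_nonneg _)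
  rw [h2] at h5
  have e : 1 / (16 * M) = δ * (1 / 2) / 2 := by rw [hδ]; field_simp; norm_num
  rw [e]
  linarith

end

end Pool.Agent.K3h4.DS.Tb
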