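import Mathlib

/-! A monotone coupling of a product measure with a tilted product measure. -/

set_option autoImplicit false

open scoped BigOperators ENNReal
open MeasureTheory Filter Topology ProbabilityTheory

namespace Pool.Agent.K3h4.DS.Ti

/-- density of the minimum of two independent variables -/
noncomputable def hh (μ : Measure ℝ) (v : ℝ) : ℝ≥0∞ := μ (Set.Ici v) + μ (Set.Ioi v)

theorem hh_meas (μ : Measure ℝ) : Measurable (hh μ) := by
  unfold hh
  refine Measurable.add ?_ ?_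
  · apply Antitone.measurable
    intro a b hab
    exact measure_mono (Set.Ici_subset_Ici.2 hab)
  · apply Antitone.measurable
    intro a b hab
    exact measure_mono (Set.Ioi_subset_Ioi hab)

theorem min_law (μ : Measure ℝ) [IsProbabilityMeasure μ] :
    (μ.prod μ).map (fun p : ℝ × ℝ => min p.1 p.2) = μ.withDensity (hh μ) := by
  ext A hA
  have hm : Measurable fun p : ℝ × ℝ => min p.1 p.2 := by fun_prop
  rw [Measure.map_apply hm hA, withDensity_apply _ hA]
  obtain ⟨S1, hS1⟩ : ∃ S : Set (ℝ × ℝ), S = {p | p.1 ∈ A ∧ p.1 ≤ p.2} := ⟨_, rfl⟩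
  obtain ⟨S2, hS2⟩ : ∃ S : Set (ℝ × ℝ), S = {p | p.2 ∈ A ∧ p.2 < p.1} := ⟨_, rfl⟩
  have hm1 : MeasurableSet S1 := by
    rw [hS1]
    exact (measurable_fst hA).inter (measurableSet_le measurable_fst measurable_snd)
  have hm2 : MeasurableSet S2 := by
    rw [hS2]
    exact (measurable_snd hA).inter (measurableSet_lt measurable_snd measurable_fst)
  have hdisj : Disjoint S1 S2 := by
    rw [Set.disjoint_left, hS1, hS2]
    rintro p ⟨_, h1⟩ ⟨_, h2⟩
    exact absurd h2 (not_lt.2 h1)
  have hU : (fun p : ℝ × ℝ => min p.1 p.2) ⁻¹' A = S1 ∪ S2 := by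
    rw [hS1, hS2]
    ext p
    simp only [Set.mem_preimage, Set.mem_union, Set.mem_ofPred_eq]
    rcases le_or_gt p.1 p.2 with h | h
    · rw [min_eq_left h]
      constructor
      · intro h1; exact Or.inl ⟨h1, h⟩
      · rintro (⟨h1, _⟩ | ⟨_, h1⟩)
        · exact h1
        · exact absurd h1 (not_lt.2 h)
    · rw [min_eq_right h.le]
      constructor
      · intro h1; exact Or.inr ⟨h1, h⟩
      · rintro (⟨_, h1⟩ | ⟨h1, _⟩)
        · exact absurd h1 (not_le.2 h)
        · exact h1
  rw [hU, measure_union hdisj hm2, Measure.prod_apply hm1, Measure.prod_apply_symm hm2]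
  have e1 : ∀ v : ℝ, μ (Prod.mk v ⁻¹' S1) = A.indicator (fun v => μ (Set.Ici v)) v := by
    intro v
    by_cases hv : v ∈ A
    · rw [Set.indicator_of_mem hv]
      congr 1
      rw [hS1]
      ext r
      simp [hv]
    · rw [Set.indicator_of_notMem hv]
      have : Prod.mk v ⁻¹' S1 = ∅ := by
        rw [hS1]
        ext r
        simp [hv]
      rw [this, measure_empty]
  have e2 : ∀ r : ℝ, μ ((fun v => (v, r)) ⁻¹' S2) = A.indicator (fun v => μ (Set.Ioi v)) r := by
    intro r
    by_cases hr : r ∈ A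
    · rw [Set.indicator_of_mem hr]
      congr 1
      rw [hS2]
      ext v
      simp [hr]
    · rw [Set.indicator_of_notMem hr]
      have : (fun v => (v, r)) ⁻¹' S2 = ∅ := by
        rw [hS2]
        ext v
        simp [hr]
      rw [this, measure_empty]
  have hma : Measurable fun v : ℝ => μ (Set.Ici v) := by
    apply Antitone.measurable
    intro a b hab
    exact measure_mono (Set.Ici_subset_Ici.2 hab)
  simp only [e1, e2]
  rw [lintegral_indicator hA, lintegral_indicator hA, ← lintegral_add_left hma]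
  rfl

theorem hh_int (μ : Measure ℝ) [IsProbabilityMeasure μ] : ∫⁻ v, hh μ v ∂μ = 1 := by
  have h1 := congrArg (fun m : Measure ℝ => m Set.univ) (min_law μ)
  have hm : Measurable fun p : ℝ × ℝ => min p.1 p.2 := by fun_prop
  simp only [Measure.map_apply hm MeasurableSet.univ, Set.preimage_univ, measure_univ,
    withDensity_apply _ MeasurableSet.univ, Measure.restrict_univ] at h1
  exact h1.symm

theorem hh_le (μ : Measure ℝ) [IsProbabilityMeasure μ] (v : ℝ) : hh μ v ≤ 2 := by
  unfold hh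
  calc μ (Set.Ici v) + μ (Set.Ioi v) ≤ 1 + 1 := add_le_add prob_le_one prob_le_one
    _ = 2 := by norm_num

/-- tilted density -/
noncomputable def gg (μ : Measure ℝ) (a b : ℝ≥0∞) (v : ℝ) : ℝ≥0∞ := a + b * hh μ v

theorem gg_meas (μ : Measure ℝ) (a b : ℝ≥0∞) : Measurable (gg μ a b) :=
  ((hh_meas μ).const_mul b).const_add a

theorem gg_sq (μ : Measure ℝ) [IsProbabilityMeasure μ] (a b : ℝ≥0∞) (hab : a + b = 1) :
    ∫⁻ v, gg μ a b v ^ 2 ∂μ ≤ 1 + b ^ 2 := by
  have h1 : ∀ v, gg μ a b v ^ 2 ≤ a ^ 2 + (2 * a * b + 2 * b ^ 2) * hh μ v := by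
    intro v
    unfold gg
    have e : (a + b * hh μ v) ^ 2 = a ^ 2 + 2 * a * b * hh μ v + b ^ 2 * hh μ v * hh μ v := by ring
    have e2 : b ^ 2 * hh μ v * hh μ v ≤ 2 * b ^ 2 * hh μ v := by
      calc b ^ 2 * hh μ v * hh μ v ≤ b ^ 2 * hh μ v * 2 := by
            gcongr
            exact hh_le μ v
        _ = 2 * b ^ 2 * hh μ v := by ring
    rw [e, add_mul, ← add_assoc]
    exact add_le_add le_rfl e2
  refine (lintegral_mono h1).trans ?_
  rw [lintegral_add_left measurable_const, lintegral_const_mul _ (hh_meas μ), hh_int,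
    lintegral_const, measure_univ]
  calc a ^ 2 * 1 + (2 * a * b + 2 * b ^ 2) * 1 = (a + b) ^ 2 + b ^ 2 := by ring
    _ = 1 + b ^ 2 := by rw [hab, one_pow]
    _ ≤ 1 + b ^ 2 := le_rfl

theorem lpi {ι : Type*} [Fintype ι] (μ : Measure ℝ) [IsProbabilityMeasure μ] (F : ι → ℝ → ℝ≥0∞)
    (hF : ∀ i, Measurable (F i)) :
    ∫⁻ V, ∏ i, F i (V i) ∂(Measure.pi fun _ : ι => μ) = ∏ i, ∫⁻ v, F i v ∂μ := by
  have h1 : iIndepFun (fun i (V : ι → ℝ) => F i (V i)) (Measure.pi fun _ : ι => μ) :=
    iIndepFun_pi (μ := fun _ : ι => μ) (X := fun i => F i) fun i => (hF i).aemeasurable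
  rw [lintegral_prod_eq_prod_lintegral_of_indepFun Finset.univ _ h1
    fun i => (hF i).comp (measurable_pi_apply i)]
  refine Finset.prod_congr rfl fun i _ => ?_
  exact (measurePreserving_eval (fun _ : ι => μ) i).lintegral_comp (hF i)

theorem pi_dens {ι : Type*} [Fintype ι] (μ : Measure ℝ) [IsProbabilityMeasure μ] (G : ℝ → ℝ≥0∞)
    (hG : Measurable G) (h1 : ∫⁻ v, G v ∂μ = 1) :
    (Measure.pi fun _ : ι => μ.withDensity G) =
      (Measure.pi fun _ : ι => μ).withDensity fun V => ∏ i, G (V i) := by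
  have hp : IsProbabilityMeasure (μ.withDensity G) := by
    constructor
    rw [withDensity_apply _ MeasurableSet.univ, Measure.restrict_univ, h1]
  apply Measure.pi_eq
  intro s hs
  rw [withDensity_apply _ (MeasurableSet.univ_pi hs), ← lintegral_indicator (MeasurableSet.univ_pi hs)]
  have e : ∀ V : ι → ℝ, (Set.univ.pi s).indicator (fun V => ∏ i, G (V i)) V =
      ∏ i, (s i).indicator G (V i) := by
    intro V
    by_cases hV : V ∈ Set.univ.pi s
    · rw [Set.indicator_of_mem hV]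
      exact Finset.prod_congr rfl fun i _ => (Set.indicator_of_mem (hV i (Set.mem_univ i)) _).symm
    · rw [Set.indicator_of_notMem hV]
      rw [Set.mem_univ_pi] at hV
      push Not at hV
      obtain ⟨i, hi⟩ := hV
      exact (Finset.prod_eq_zero (Finset.mem_univ i) (Set.indicator_of_notMem hi _)).symm
  simp only [e]
  rw [lpi μ (fun i => (s i).indicator G) fun i => hG.indicator (hs i)]
  refine Finset.prod_congr rfl fun i _ => ?_
  rw [lintegral_indicator (hs i), withDensity_apply _ (hs i)]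

/-- comparison of a set under the tilted and the original product measures -/
theorem cs {ι : Type*} [Fintype ι] (μ : Measure ℝ) [IsProbabilityMeasure μ] (a b : ℝ≥0∞)
    (hab : a + b = 1) (A : Set (ι → ℝ)) (hA : MeasurableSet A) :
    ((Measure.pi fun _ : ι => μ.withDensity (gg μ a b)) A) ^ 2 ≤
      (1 + b ^ 2) ^ (Fintype.card ι) * (Measure.pi fun _ : ι => μ) A := by
  have hG := gg_meas μ a b
  have h1 : ∫⁻ v, gg μ a b v ∂μ = 1 := by
    unfold gg
    rw [lintegral_add_left measurable_const, lintegral_const_mul _ (hh_meas μ), hh_int,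
      lintegral_const, measure_univ, mul_one, mul_one, hab]
  rw [pi_dens μ _ hG h1, withDensity_apply _ hA, ← lintegral_indicator hA]
  obtain ⟨P, hP⟩ : ∃ P : Measure (ι → ℝ), P = Measure.pi fun _ : ι => μ := ⟨_, rfl⟩
  rw [← hP]
  have hm : Measurable fun V : ι → ℝ => ∏ i, gg μ a b (V i) :=
    Finset.measurable_prod _ fun i _ => hG.comp (measurable_pi_apply i)
  have e1 : ∀ V : ι → ℝ, A.indicator (fun V => ∏ i, gg μ a b (V i)) V =
      ((fun V : ι → ℝ => ∏ i, gg μ a b (V i)) * A.indicator (fun _ => (1 : ℝ≥0∞))) V := by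
    intro V
    by_cases hV : V ∈ A
    · rw [Set.indicator_of_mem hV, Pi.mul_apply, Set.indicator_of_mem hV, mul_one]
    · rw [Set.indicator_of_notMem hV, Pi.mul_apply, Set.indicator_of_notMem hV, mul_zero]
  simp only [e1]
  have h2 := ENNReal.lintegral_mul_le_Lp_mul_Lq P (p := 2) (q := 2)
    ⟨by norm_num, by norm_num, by norm_num⟩ hm.aemeasurable
    ((measurable_const (a := (1 : ℝ≥0∞))).indicator hA).aemeasurable
  have h3 := pow_le_pow_left' h2 2
  refine h3.trans ?_
  rw [mul_pow]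
  have e2 : ∀ x : ℝ≥0∞, (x ^ ((1 : ℝ) / 2)) ^ 2 = x := by
    intro x
    rw [← ENNReal.rpow_natCast, ← ENNReal.rpow_mul]
    norm_num
  rw [e2, e2]
  have e3 : ∫⁻ V, A.indicator (fun _ => (1 : ℝ≥0∞)) V ^ (2 : ℝ) ∂P = P A := by
    have : ∀ V, A.indicator (fun _ => (1 : ℝ≥0∞)) V ^ (2 : ℝ) = A.indicator (fun _ => 1) V := by
      intro V
      by_cases hV : V ∈ A
      · rw [Set.indicator_of_mem hV]; simp
      · rw [Set.indicator_of_notMem hV]; simp
    simp only [this]
    rw [lintegral_indicator hA]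
    simp
  have e4 : ∫⁻ V : ι → ℝ, (∏ i, gg μ a b (V i)) ^ (2 : ℝ) ∂P = (∫⁻ v, gg μ a b v ^ 2 ∂μ) ^ Fintype.card ι := by
    have : ∀ V : ι → ℝ, (∏ i, gg μ a b (V i)) ^ (2 : ℝ) = ∏ i, gg μ a b (V i) ^ 2 := by
      intro V
      rw [show (2 : ℝ) = ((2 : ℕ) : ℝ) by norm_num, ENNReal.rpow_natCast, Finset.prod_pow]
    simp only [this]
    rw [hP, lpi μ (fun _ v => gg μ a b v ^ 2) fun _ => hG.pow_const 2, Finset.prod_const,
      Finset.card_univ]
  rw [e3, e4]
  gcongr
  exact gg_sq μ a b hab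

/-- the coupling of one variable -/
noncomputable def cp (μ : Measure ℝ) (a b : ℝ≥0∞) : Measure (ℝ × ℝ) :=
  a • μ.map (fun v => (v, v)) + b • (μ.prod μ).map (fun p => (p.1, min p.1 p.2))

theorem m1 : Measurable fun v : ℝ => (v, v) := by fun_prop
theorem m2 : Measurable fun p : ℝ × ℝ => (p.1, min p.1 p.2) := by fun_prop

theorem cp_fst (μ : Measure ℝ) [IsProbabilityMeasure μ] (a b : ℝ≥0∞) (hab : a + b = 1) :
    (cp μ a b).map Prod.fst = μ := by
  unfold cp
  rw [Measure.map_add _ _ measurable_fst, Measure.map_smul, Measure.map_smul,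
    Measure.map_map measurable_fst m1, Measure.map_map measurable_fst m2]
  have e1 : Prod.fst ∘ (fun v : ℝ => (v, v)) = id := rfl
  have e2 : Prod.fst ∘ (fun p : ℝ × ℝ => (p.1, min p.1 p.2)) = Prod.fst := rfl
  rw [e1, e2, Measure.map_id]
  have e3 : (μ.prod μ).map Prod.fst = μ := by
    rw [Measure.map_fst_prod, measure_univ, one_smul]
  rw [e3, ← add_smul, hab, one_smul]

theorem cp_snd (μ : Measure ℝ) [IsProbabilityMeasure μ] (a b : ℝ≥0∞) :
    (cp μ a b).map Prod.snd = μ.withDensity (gg μ a b) := by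
  unfold cp
  rw [Measure.map_add _ _ measurable_snd, Measure.map_smul, Measure.map_smul,
    Measure.map_map measurable_snd m1, Measure.map_map measurable_snd m2]
  have e1 : Prod.snd ∘ (fun v : ℝ => (v, v)) = id := rfl
  have e2 : Prod.snd ∘ (fun p : ℝ × ℝ => (p.1, min p.1 p.2)) = fun p => min p.1 p.2 := rfl
  rw [e1, e2, Measure.map_id, min_law]
  have e3 : gg μ a b = (fun _ => a) + b • hh μ := by
    funext v
    unfold gg
    simp
  rw [e3, withDensity_add_left measurable_const, withDensity_const, withDensity_smul _ (hh_meas μ)]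

theorem cp_prob (μ : Measure ℝ) [IsProbabilityMeasure μ] (a b : ℝ≥0∞) (hab : a + b = 1) :
    IsProbabilityMeasure (cp μ a b) := by
  have h := cp_fst μ a b hab
  constructor
  have h2 := congrArg (fun m : Measure ℝ => m Set.univ) h
  simpa [Measure.map_apply measurable_fst MeasurableSet.univ] using h2

theorem cp_le (μ : Measure ℝ) [IsProbabilityMeasure μ] (a b : ℝ≥0∞) :
    ∀ᵐ p ∂(cp μ a b), p.2 ≤ p.1 := by
  have hs : MeasurableSet {p : ℝ × ℝ | ¬ p.2 ≤ p.1} :=
    (measurableSet_le measurable_snd measurable_fst).compl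
  rw [ae_iff]
  unfold cp
  rw [Measure.add_apply, Measure.smul_apply, Measure.smul_apply, Measure.map_apply m1 hs,
    Measure.map_apply m2 hs]
  have e1 : (fun v : ℝ => (v, v)) ⁻¹' {p : ℝ × ℝ | ¬ p.2 ≤ p.1} = ∅ := by
    ext v; simp
  have e2 : (fun p : ℝ × ℝ => (p.1, min p.1 p.2)) ⁻¹' {p : ℝ × ℝ | ¬ p.2 ≤ p.1} = ∅ := by
    ext v; simp
  rw [e1, e2]
  simp

end Pool.Agent.K3h4.DS.Ti
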